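import Pool.Agent.MP_b9875a_co.H99.Free

set_option autoImplicit false

namespace Pool.Agent.MP_b9875a_co.H99.PL

open Finset

variable {V : Type} [DecidableEq V]

lemma Col.adm_erase {K : Col V} {f f' : V → Finset V} {v r : V} (hA : K.Adm f)
    (h1 : ∀ u, u ≠ v → f' u = f u) (h2 : f' v = (f v).erase r)
    (hb : ∀ Z, K.Sens f v Z → r ∈ Z) : K.Adm f' := by
  intro X hX
  have h3 := hA X hX
  by_cases hv : v ∈ X
  · have e : vl K.c f' X + min (K.c v) (f v \ X).card =
        vl K.c f X + min (K.c v) (f' v \ X).card := by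
      unfold vl
      rw [← add_sum_erase _ _ hv, ← add_sum_erase X _ hv]
      have : ∑ x ∈ X.erase v, min (K.c x) (f' x \ X).card =
          ∑ x ∈ X.erase v, min (K.c x) (f x \ X).card :=
        sum_congr rfl (fun x hx => by rw [h1 x (ne_of_mem_erase hx)])
      rw [this]
      omega
    have e2 : (f v).erase r \ X = (f v \ X).erase r := by
      ext x
      simp only [mem_sdiff, mem_erase]
      tauto
    have e3 : (f v \ X).card - 1 ≤ (f' v \ X).card := by
      rw [h2, e2]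
      exact pred_card_le_card_erase
    by_contra hlt
    have hr := hb X ⟨⟨hX, by omega⟩, hv, by omega⟩
    have e4 : (f' v \ X).card = (f v \ X).card := by
      rw [h2, e2, erase_eq_of_notMem (fun a => (mem_sdiff.1 a).2 hr)]
    omega
  · have : vl K.c f' X = vl K.c f X :=
      sum_congr rfl (fun x hx => by rw [h1 x (fun e => hv (e ▸ hx))])
    omega

namespace Dat

variable {D : Dat V}

lemma tt_top (H : D.Hyp) (η : V → Finset V) (hL : D.t0 ≤ D.S.card) :
    D.K0.Tt (D.fr η) D.S ∧ ∀ v, (D.fr η v \ D.S).card = 0 := by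
  have h0 : ∀ v, (D.fr η v \ D.S).card = 0 := fun v => by
    rw [card_eq_zero, sdiff_eq_empty_iff_subset]
    exact sdiff_subset.trans (H.out_sub v)
  refine ⟨⟨⟨Subset.refl _, ?_⟩, ?_⟩, h0⟩
  · show D.t0 ≤ (D.S ∩ D.S).card
    rwa [inter_self]
  · have : vl D.K0.c (D.fr η) D.S = 0 := sum_eq_zero (fun v _ => by rw [h0 v]; simp)
    rw [this]
    show 0 + 0 ≤ _
    omega

lemma large_top (H : D.Hyp) {v : V} (hv : v ∈ D.A) : D.t0 ≤ D.S.card := by
  have h1 := H.rich v hv
  have h2 := card_le_card (inter_subset_left.trans (H.out_sub v) : D.out v ∩ D.A ⊆ D.S)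
  omega

lemma top (H : D.Hyp) {dl : ℕ} {O : Finset V} {η η' : V → Finset V}
    (F : D.Free dl O D.S η η') : D.Inv dl η → (D.K1 dl).Tt η O →
    (∀ Z, (D.K1 dl).Tt η Z → O ⊆ Z → Z ⊆ O) →
    D.Inv dl η' ∧ (∀ Z, (D.K1 dl).Tt η' Z → (D.K1 dl).Tt η Z ∨ Z ⊆ O) ∧
      ∀ Z, (D.K1 dl).Tt η' Z → ¬ O ⊆ Z := by
  induction F with
  | @fin η η' v y w s hf =>
    intro I hO hmax
    have yO : y ∉ O := hf.resolve_right (fun a => a (hO.1.1 s.wO))
    have key : ∀ Z, (D.K1 dl).Tt η' Z → (D.K1 dl).Tt η Z := fun Z hZ =>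
      Col.tt_before (K := D.K1 dl) H.sup1 I.adm1 I.rich1 s.sw1 hO s.vO s.soft1
        (s.w1.resolve_left yO) hZ
        (fun a e => yO (hmax _ e subset_union_right (mem_union_left _ a)))
    refine ⟨s.inv, fun Z hZ => Or.inl (key Z hZ), fun Z hZ e => ?_⟩
    have hE : Z = O := Subset.antisymm (hmax Z (key Z hZ) e) e
    have h1 := s.sw1.vl_gt (D.K1 dl).c O s.vO s.wO yO s.soft1
    have h2 := I.adm1 O hO.1
    have h3 := hZ.2
    rw [hE] at h3
    omega
  | @step η η1 η' v y w s yO wE _ ih =>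
    intro I hO hmax
    obtain ⟨a, b, c⟩ := ih s.inv ((Col.tt_same s.sw1 s.wO yO).2 hO)
      (fun Z hZ e => hmax Z ((Col.tt_same s.sw1 (e s.wO) (e yO)).1 hZ) e)
    refine ⟨a, fun Z hZ => ?_, c⟩
    rcases b Z hZ with e | e
    · exact Col.tt_inner (K := D.K1 dl) H.sup1 s.inv.adm1 s.inv.rich1 s.sw1 s.vO s.soft1 s.wO yO
        hO hmax e
    · exact Or.inr e

lemma free_top (H : D.Hyp) {dl : ℕ} (hdl : 1 ≤ dl) {O : Finset V} {η : V → Finset V}
    (I : D.Inv dl η) (hO : (D.K1 dl).Tt η O) : ∃ η', D.Free dl O D.S η η' := by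
  have hOS : O ⊆ D.S := hO.1.1
  by_cases a : D.t0 ≤ O.card
  · exact free H hdl _ O D.S η (Nat.lt_succ_self _) I hO
      (tt_top H η (a.trans (card_le_card hOS))).1 (by rwa [inter_eq_left.2 hOS])
  · obtain ⟨v, hv, hs⟩ : ∃ v ∈ O ∩ D.A, (η v \ O).card < D.m := by
      by_contra hn
      push Not at hn
      have h1 : (O ∩ D.A).card * D.m ≤
          ∑ v ∈ O ∩ D.A, min ((D.K1 dl).c v) (η v \ O).card := by
        rw [← smul_eq_mul]
        apply card_nsmul_le_sum
        intro v hv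
        rw [c1_of_A (mem_inter.1 hv).2]
        exact le_min le_rfl (hn v hv)
      have h2 : ∑ v ∈ O ∩ D.A, min ((D.K1 dl).c v) (η v \ O).card ≤ vl (D.K1 dl).c η O :=
        sum_le_sum_of_subset inter_subset_left
      have h3 : vl (D.K1 dl).c η O + dl ≤ D.p1 O := hO.2
      have h4 := H.p1_le O
      have h5 : D.t1 * D.m ≤ (O ∩ D.A).card * D.m := Nat.mul_le_mul_right _ hO.1.2
      omega
    obtain ⟨vO, vA⟩ := mem_inter.1 hv
    obtain ⟨t1, t2⟩ := tt_top H η (large_top H vA)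
    have P : Par D dl O D.S v η := ⟨I, hO, t1, vO, hOS vO, by rwa [c1_of_A vA],
      by rw [t2 v]; exact (mem_A.1 vA).2⟩
    rcases split H P with b | ⟨R, _, _, hsub, hcard⟩
    · exact b
    · exfalso
      have : D.fr η v ∩ D.A ∩ R ⊆ O := fun x hx => by
        simp only [mem_inter] at hx
        exact hsub (mem_inter.2 ⟨hx.1.1, hx.2⟩)
      have := card_le_card this
      omega

open Classical in
lemma level (H : D.Hyp) (dl : ℕ) (n : ℕ) : ∀ η : V → Finset V,
    (D.S.powerset.filter (fun X => ∃ Z, (D.K1 (dl + 1)).Tt η Z ∧ X ⊆ Z)).card ≤ n →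
    D.Inv (dl + 1) η → ∃ η', D.Inv dl η' := by
  induction n using Nat.strong_induction_on with
  | _ n ih =>
  intro η hn I
  by_cases a : ∃ Z, (D.K1 (dl + 1)).Tt η Z
  · obtain ⟨Z0, hZ0⟩ := a
    obtain ⟨O, hO1, hO2⟩ := exists_max_image
      (D.S.powerset.filter (fun Z => (D.K1 (dl + 1)).Tt η Z)) card
      ⟨Z0, mem_filter.2 ⟨mem_powerset.2 hZ0.1.1, hZ0⟩⟩
    have hO := (mem_filter.1 hO1).2
    obtain ⟨η', F⟩ := free_top H (by omega) I hO
    obtain ⟨I', b, c⟩ := top H F I hO (fun Z hZ e => by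
      rw [eq_of_subset_of_card_le e (hO2 Z (mem_filter.2 ⟨mem_powerset.2 hZ.1.1, hZ⟩))])
    refine ih _ (lt_of_lt_of_le (card_lt_card ⟨?_, ?_⟩) hn) η' le_rfl I'
    · intro X hX
      obtain ⟨h1, Z, hZ, h2⟩ := mem_filter.1 hX
      refine mem_filter.2 ⟨h1, ?_⟩
      rcases b Z hZ with e | e
      · exact ⟨Z, e, h2⟩
      · exact ⟨O, hO, h2.trans e⟩
    · intro e
      obtain ⟨_, Z, hZ, h2⟩ := mem_filter.1
        (e (mem_filter.2 ⟨mem_powerset.2 hO.1.1, O, hO, Subset.refl _⟩))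
      exact c Z hZ h2
  · refine ⟨η, I.sub, I.le, I.ge, I.dead, I.adm0, fun X hX => ?_⟩
    have h1 : ¬ vl (D.K1 (dl + 1)).c η X + (dl + 1) ≤ D.p1 X := fun e => a ⟨X, hX, e⟩
    show D.p1 X ≤ vl (D.K1 (dl + 1)).c η X + dl
    omega

lemma init (H : D.Hyp) (n : ℕ) : ∀ η : V → Finset V,
    ∑ v ∈ D.A, (D.Dp - (η v).card) ≤ n → (∀ v, η v ⊆ D.out v ∩ D.A) →
    (∀ v, (η v).card ≤ D.Dp) → D.K0.Adm (D.fr η) → ∃ η', D.Inv (D.t1 * D.m) η' := by
  induction n using Nat.strong_induction_on with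
  | _ n ih =>
  intro η hn hsub hle hA
  by_cases a : ∃ v ∈ D.A, (η v).card < D.Dp
  · obtain ⟨v, vA, hv⟩ := a
    obtain ⟨t1, t2⟩ := tt_top H η (large_top H vA)
    have hc := (mem_A.1 vA).2
    obtain ⟨R, hR, hmin⟩ := Col.exists_min H.sup0 hA (rich0' H hle) (v := v) hc
      ⟨t1, (mem_A.1 vA).1, by rw [t2 v]; omega⟩
    have h1 := fr_card H hle vA
    have h2 : (D.fr η v \ R).card ≤ D.c v := hR.2.2
    have h3 := H.c_le v (mem_A.1 vA).1
    obtain ⟨y, hy, hyR⟩ := exists_mem_notMem_of_card_lt_card (s := D.fr η v \ R)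
      (t := D.fr η v ∩ D.A) (by omega)
    have hy' := mem_inter.1 hy
    have hy2 := mem_sdiff.1 hy'.1
    have yR : y ∈ R := by_contra fun b => hyR (mem_sdiff.2 ⟨hy'.1, b⟩)
    set η' := Function.update η v (insert y (η v)) with hη
    have e1 : η' v = insert y (η v) := by simp [hη]
    have e2 : ∀ u, u ≠ v → η' u = η u := fun u hu => by simp [hη, hu]
    have e3 : (η' v).card = (η v).card + 1 := by rw [e1, card_insert_of_notMem hy2.2]
    refine ih _ (lt_of_lt_of_le ?_ hn) η' le_rfl (fun u => ?_) (fun u => ?_)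
      (Col.adm_erase (v := v) (r := y) hA (fun u hu => by simp only [fr, e2 u hu]) ?_
        (fun Z hZ => hmin Z hZ yR))
    · refine sum_lt_sum (fun u _ => ?_) ⟨v, vA, by omega⟩
      by_cases b : u = v
      · rw [b]; omega
      · rw [e2 u b]
    · by_cases b : u = v
      · rw [b, e1]
        exact insert_subset (mem_inter.2 ⟨hy2.1, hy'.2⟩) (hsub v)
      · rw [e2 u b]; exact hsub u
    · by_cases b : u = v
      · rw [b]; omega
      · rw [e2 u b]; exact hle u
    · ext x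
      simp only [fr, e1, mem_sdiff, mem_insert, mem_erase]
      tauto
  · push Not at a
    refine ⟨η, fun v => (hsub v).trans inter_subset_left, hle, a, fun v => ?_, hA,
      fun X _ => (H.p1_le X).trans (Nat.le_add_left _ _)⟩
    rw [sdiff_eq_empty_iff_subset.2 ((hsub v).trans inter_subset_right)]
    simp

/-- The safe reservation lemma. -/
theorem res (H : D.Hyp) : ∃ η, D.Inv 0 η := by
  have h0 : ∃ η, D.Inv (D.t1 * D.m) η := by
    refine init H _ (fun _ => ∅) le_rfl (fun _ => empty_subset _) (fun _ => by simp) ?_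
    intro X hX
    have h1 := H.tot X hX.1 (hX.2.trans (card_le_card inter_subset_left))
    have h2 : D.fr (fun _ => ∅) = D.out := by
      funext v
      simp [fr]
    rw [h2]
    show D.p0 X ≤ vl D.c D.out X + 0
    omega
  generalize D.t1 * D.m = n at h0
  induction n with
  | zero => exact h0
  | succ n ih =>
    obtain ⟨η, I⟩ := h0
    exact ih (level H n _ η le_rfl I)

end Dat

end Pool.Agent.MP_b9875a_co.H99.PL
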