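import Pool.Agent.MP_b9875a_co.H99.Col

set_option autoImplicit false

namespace Pool.Agent.MP_b9875a_co.H99.PL

open Finset

lemma greedy {ι : Type} [DecidableEq ι] (Y : Finset ι) (a : ι → ι → ℕ) (hd : ∀ y, a y y = 0)
    (N K : ℕ) (h : ∀ I, I ⊆ Y → I.card ≤ N →
      2 * K * Y.card + 4 * (N * K) ≤ ∑ x ∈ Y \ I, ∑ y ∈ Y, a x y) (t : ℕ) :
    t ≤ N → ∃ I, I ⊆ Y ∧ I.card ≤ t ∧ 2 * K * t ≤ ∑ x ∈ Y \ I, ∑ y ∈ I, a x y := by
  induction t with
  | zero => intro _; exact ⟨∅, empty_subset _, by simp, by simp⟩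
  | succ t ih =>
    intro ht
    obtain ⟨I, hI, hc, hf⟩ := ih (by omega)
    by_cases b : 2 * K * (t + 1) ≤ ∑ x ∈ Y \ I, ∑ y ∈ I, a x y
    · exact ⟨I, hI, by omega, b⟩
    by_contra hn
    have key : ∀ y ∈ Y \ I, ∑ x ∈ Y \ I, a x y ≤ ∑ z ∈ I, a y z + 2 * K := by
      intro y hy
      have hy' := mem_sdiff.1 hy
      by_contra hlt
      refine hn ⟨insert y I, insert_subset hy'.1 hI, by rw [card_insert_of_notMem hy'.2]; omega, ?_⟩
      have e1 : Y \ insert y I = (Y \ I).erase y := by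
        ext x
        simp only [mem_sdiff, mem_insert, mem_erase]
        tauto
      have e2 : ∑ x ∈ Y \ I, ∑ z ∈ insert y I, a x z =
          ∑ x ∈ Y \ I, a x y + ∑ x ∈ Y \ I, ∑ z ∈ I, a x z := by
        rw [← sum_add_distrib]
        exact sum_congr rfl (fun x _ => sum_insert hy'.2)
      have e3 := add_sum_erase (Y \ I) (fun x => ∑ z ∈ insert y I, a x z) hy
      rw [sum_insert hy'.2, hd y] at e3
      rw [e1, mul_add]
      omega
    have h1 := sum_le_sum key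
    rw [sum_add_distrib, sum_const, smul_eq_mul, sum_comm] at h1
    have h2 := h I hI (by omega)
    have h3 : ∑ x ∈ Y \ I, ∑ y ∈ Y, a x y =
        ∑ x ∈ Y \ I, ∑ y ∈ Y \ I, a x y + ∑ x ∈ Y \ I, ∑ y ∈ I, a x y := by
      rw [← sum_add_distrib]
      exact sum_congr rfl (fun x _ => (sum_sdiff hI).symm)
    have h4 : (Y \ I).card * (2 * K) ≤ 2 * K * Y.card := by
      rw [mul_comm]
      exact Nat.mul_le_mul_left _ (card_le_card sdiff_subset)
    have h5 : 2 * K * (t + 1) ≤ 2 * (N * K) := by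
      have := Nat.mul_le_mul_left (2 * K) ht
      nlinarith
    omega

variable {V : Type} [DecidableEq V]

lemma sum_biUnion_le' {ι : Type} [DecidableEq ι] (F : Finset ι) (t : ι → Finset V) (f : V → ℕ) :
    ∑ v ∈ F.biUnion t, f v ≤ ∑ i ∈ F, ∑ v ∈ t i, f v := by
  induction F using Finset.induction_on with
  | empty => simp
  | insert a F ha ih =>
    rw [biUnion_insert, sum_insert ha]
    have := sum_union_inter (s₁ := t a) (s₂ := F.biUnion t) (f := f)
    omega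

lemma meet_bound (S : Finset V) (out : V → Finset V) (c : V → ℕ) (ph : Finset V → ℕ) (θ K : ℕ)
    (hout : ∀ v, out v ⊆ S) (hmod : ∀ X Y, ph X + ph Y ≤ ph (X ∩ Y) + ph (X ∪ Y))
    (hadm : ∀ R, R ⊆ S → θ ≤ R.card → ph R ≤ vl c out R) (I : Finset (Finset V)) :
    (∀ R ∈ I, R ⊆ S ∧ θ ≤ R.card ∧ vl c out R < ph R + K) →
    vl c out (S.filter (fun v => ∀ R ∈ I, v ∈ R)) + I.card ≤
      ph (S.filter (fun v => ∀ R ∈ I, v ∈ R)) + I.card * K := by
  induction I using Finset.induction_on with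
  | empty =>
    intro _
    have e : S.filter (fun v => ∀ R ∈ (∅ : Finset (Finset V)), v ∈ R) = S := by simp
    have : vl c out S = 0 := sum_eq_zero (fun v _ => by
      rw [sdiff_eq_empty_iff_subset.2 (hout v)]; simp)
    rw [e, this]
    simp
  | insert R I hR ih =>
    intro h
    have h1 := ih (fun R' hR' => h R' (mem_insert_of_mem hR'))
    obtain ⟨a, b, d⟩ := h R (mem_insert_self _ _)
    have e : S.filter (fun v => ∀ R' ∈ insert R I, v ∈ R') =
        R ∩ S.filter (fun v => ∀ R ∈ I, v ∈ R) := by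
      ext v
      simp only [mem_filter, mem_inter, forall_mem_insert]
      tauto
    rw [e, card_insert_of_notMem hR, add_mul]
    have h2 := vl_submod c out R (S.filter (fun v => ∀ R ∈ I, v ∈ R))
    have h3 := hmod R (S.filter (fun v => ∀ R ∈ I, v ∈ R))
    have h4 := hadm _ (union_subset a (filter_subset (fun v => ∀ R ∈ I, v ∈ R) S))
      (b.trans (card_le_card subset_union_left))
    omega

/-- The target lemma: if every alive vertex is avoided by a bad set, the blank is small. -/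
lemma target (S : Finset V) (out : V → Finset V) (c mu be : V → ℕ) (ph : Finset V → ℕ)
    (θ N K g : ℕ) (hK : 1 ≤ K) (hN : 1 ≤ N) (hg : 8 * K ≤ g)
    (hout : ∀ v, out v ⊆ S) (hmod : ∀ X Y, ph X + ph Y ≤ ph (X ∩ Y) + ph (X ∪ Y))
    (hph : ∀ R, ph R ≤ N * K) (hadm : ∀ R, R ⊆ S → θ ≤ R.card → ph R ≤ vl c out R)
    (hsum : ∀ v ∈ S, c v + mu v + be v = g) (hmu : ∑ v ∈ S, mu v ≤ N * K)
    (hdead : ∀ v ∈ S, c v = 0 → be v ≤ mu v)
    (hdeg : ∀ v ∈ S, 1 ≤ c v → g + θ ≤ (out v).card)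
    (h1 : ∀ z ∈ S, 1 ≤ c z → ∃ R, (R ⊆ S ∧ θ ≤ R.card ∧ vl c out R < ph R + K) ∧ z ∉ R)
    (h2 : ∀ v ∈ S, 1 ≤ c v → be v < 4 * K)
    (h3 : ∀ R q, R ⊆ S → θ ≤ R.card → q ≤ 4 * K → vl c out R < ph R + q →
      ∑ v ∈ S \ R, be v < q) :
    ∑ v ∈ S, be v ≤ (6 * N + 10) * K := by
  classical
  set A := S.filter (fun v => 1 ≤ c v) with hA
  set Z := S.filter (fun v => c v = 0) with hZ
  have hZb : ∑ v ∈ Z, be v ≤ N * K := by
    refine le_trans (sum_le_sum (fun v hv => hdead v (mem_filter.1 hv).1 (mem_filter.1 hv).2)) ?_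
    exact (sum_le_sum_of_subset (filter_subset _ _)).trans hmu
  set Bad := S.powerset.filter (fun R => θ ≤ R.card ∧ vl c out R < ph R + K) with hBad
  obtain ⟨F, hF1, hF2⟩ := exists_min_image
    (Bad.powerset.filter (fun F => ∀ a ∈ A, ∃ R ∈ F, a ∉ R)) card
    ⟨Bad, mem_filter.2 ⟨mem_powerset_self _, fun a ha => by
      obtain ⟨R, hR, haR⟩ := h1 a (mem_filter.1 ha).1 (mem_filter.1 ha).2
      exact ⟨R, mem_filter.2 ⟨mem_powerset.2 hR.1, hR.2⟩, haR⟩⟩⟩
  have hFB := mem_powerset.1 (mem_filter.1 hF1).1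
  have hcov := (mem_filter.1 hF1).2
  have hbad : ∀ R ∈ F, R ⊆ S ∧ θ ≤ R.card ∧ vl c out R < ph R + K := fun R hR =>
    ⟨mem_powerset.1 (mem_filter.1 (hFB hR)).1, (mem_filter.1 (hFB hR)).2⟩
  by_cases hM : F.card ≤ 5 * N + 2
  · have e1 : S ⊆ F.biUnion (fun R => S \ R) ∪ Z := by
      intro v hv
      by_cases a : c v = 0
      · exact mem_union_right _ (mem_filter.2 ⟨hv, a⟩)
      · obtain ⟨R, hR, hvR⟩ := hcov v (mem_filter.2 ⟨hv, by omega⟩)
        exact mem_union_left _ (mem_biUnion.2 ⟨R, hR, mem_sdiff.2 ⟨hv, hvR⟩⟩)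
    have e2 := sum_le_sum_of_subset (f := be) e1
    have e3 := sum_union_inter (s₁ := F.biUnion (fun R => S \ R)) (s₂ := Z) (f := be)
    have e4 := sum_biUnion_le' F (fun R => S \ R) be
    have e5 : ∑ R ∈ F, ∑ v ∈ S \ R, be v ≤ F.card * K := by
      rw [← smul_eq_mul]
      exact sum_le_card_nsmul _ _ _ (fun R hR =>
        (h3 R K (hbad R hR).1 (hbad R hR).2.1 (by omega) (hbad R hR).2.2).le)
    have e6 := Nat.mul_le_mul_right K hM
    have e7 : (5 * N + 2) * K = 5 * (N * K) + 2 * K := by ring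
    have e8 : (6 * N + 10) * K = 6 * (N * K) + 10 * K := by ring
    omega
  set Q : Finset V → Finset V := fun R =>
    A.filter (fun a => a ∉ R ∧ ∀ R' ∈ F, R' ≠ R → a ∈ R') with hQ
  have hQne : ∀ R ∈ F, (Q R).Nonempty := by
    intro R hR
    by_contra hn
    have := hF2 (F.erase R) (mem_filter.2 ⟨mem_powerset.2 ((erase_subset _ _).trans hFB),
      fun a ha => by
        by_contra hc
        push Not at hc
        obtain ⟨R0, hR0, haR0⟩ := hcov a ha
        have e : R0 = R := by_contra fun e => haR0 (hc R0 (mem_erase.2 ⟨e, hR0⟩))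
        exact hn ⟨a, mem_filter.2 ⟨ha, e ▸ haR0, fun R' h1 h2 => hc R' (mem_erase.2 ⟨h2, h1⟩)⟩⟩⟩)
    have := card_erase_add_one hR
    omega
  have hQS : ∀ R, Q R ⊆ S := fun R => (filter_subset _ _).trans (filter_subset _ _)
  have hQd : ∀ R ∈ F, ∀ R' ∈ F, R ≠ R' → Disjoint (Q R) (Q R') := by
    intro R hR R' _ hne
    rw [disjoint_left]
    intro a h1 h2
    exact (mem_filter.1 h1).2.1 ((mem_filter.1 h2).2.2 R hR hne)
  by_cases htwo : ∃ R ∈ F, ∃ R' ∈ F, R ≠ R' ∧ ∑ v ∈ S \ (Q R ∪ Z), be v < 4 * K ∧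
      ∑ v ∈ S \ (Q R' ∪ Z), be v < 4 * K
  · obtain ⟨R, hR, R', hR', hne, a, b⟩ := htwo
    have e1 : S ⊆ (S \ (Q R ∪ Z) ∪ S \ (Q R' ∪ Z)) ∪ Z := by
      intro v hv
      have : v ∈ Q R → v ∉ Q R' := fun h => disjoint_left.1 (hQd R hR R' hR' hne) h
      simp only [mem_union, mem_sdiff]
      tauto
    have e2 := sum_le_sum_of_subset (f := be) e1
    have e3 := sum_union_inter (s₁ := S \ (Q R ∪ Z) ∪ S \ (Q R' ∪ Z)) (s₂ := Z) (f := be)
    have e4 := sum_union_inter (s₁ := S \ (Q R ∪ Z)) (s₂ := S \ (Q R' ∪ Z)) (f := be)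
    have e8 : (6 * N + 10) * K = 6 * (N * K) + 10 * K := by ring
    omega
  exfalso
  have hgain : ∀ R ∈ F, ¬ ∑ v ∈ S \ (Q R ∪ Z), be v < 4 * K →
      4 * K ≤ ∑ v ∈ Q R, min (c v) (out v \ (Q R ∪ Z)).card + ∑ v ∈ Q R, mu v := by
    intro R hR hn
    by_cases a : θ ≤ (Q R ∪ Z).card
    · have e1 : vl c out (Q R ∪ Z) ≤ ∑ v ∈ Q R, min (c v) (out v \ (Q R ∪ Z)).card := by
        have e2 := sum_union_inter (s₁ := Q R) (s₂ := Z)
          (f := fun v => min (c v) (out v \ (Q R ∪ Z)).card)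
        have e3 : ∑ v ∈ Z, min (c v) (out v \ (Q R ∪ Z)).card = 0 :=
          sum_eq_zero (fun v hv => by rw [(mem_filter.1 hv).2]; simp)
        unfold vl
        omega
      by_contra hlt
      exact hn (h3 _ _ (union_subset (hQS R) (filter_subset _ _)) a le_rfl (by omega))
    · obtain ⟨v, hv⟩ := hQne R hR
      have hvA := mem_filter.1 (mem_filter.1 hv).1
      have e1 := single_le_sum (f := fun v => min (c v) (out v \ (Q R ∪ Z)).card)
        (fun _ _ => Nat.zero_le _) hv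
      have e2 := single_le_sum (f := mu) (fun _ _ => Nat.zero_le _) hv
      have e3 := le_card_sdiff (Q R ∪ Z) (out v)
      have e4 := hdeg v hvA.1 hvA.2
      have e5 := hsum v hvA.1
      have e6 := h2 v hvA.1 hvA.2
      omega
  have hch : ∀ (R : Finset V) (v : V), ∃ C, C ⊆ out v \ (Q R ∪ Z) ∧
      C.card = min (c v) (out v \ (Q R ∪ Z)).card :=
    fun R v => exists_subset_card_eq (min_le_right _ _)
  choose Ch hCh1 hCh2 using hch
  have hds : ∀ (R : Finset V) (w : V), ∃ R', w ∈ S \ (Q R ∪ Z) → R' ∈ F ∧ R' ≠ R ∧ w ∉ R' := by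
    intro R w
    by_cases a : w ∈ S \ (Q R ∪ Z)
    · have a' := mem_sdiff.1 a
      have wA : w ∈ A := mem_filter.2 ⟨a'.1, by
        by_contra e
        exact a'.2 (mem_union_right _ (mem_filter.2 ⟨a'.1, by omega⟩))⟩
      by_contra hn
      push Not at hn
      have hall : ∀ R' ∈ F, R' ≠ R → w ∈ R' := fun R' p q => (hn R').2 p q
      obtain ⟨R0, hR0, hw⟩ := hcov w wA
      have e : R0 = R := by_contra fun e => hw (hall R0 hR0 e)
      exact a'.2 (mem_union_left _ (mem_filter.2 ⟨wA, e ▸ hw, hall⟩))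
    · exact ⟨R, fun b => absurd b a⟩
  choose ds hds using hds
  have hds' : ∀ R v, ∀ w ∈ Ch R v, ds R w ∈ F ∧ ds R w ≠ R ∧ w ∉ ds R w := fun R v w hw =>
    hds R w (sdiff_subset_sdiff (hout v) (Subset.refl _) (hCh1 R v hw))
  set a : Finset V → Finset V → ℕ := fun R R' =>
    ∑ v ∈ Q R, ((Ch R v).filter (fun w => ds R w = R')).card with ha
  have hrow : ∀ (R : Finset V) (I : Finset (Finset V)),
      ∑ R' ∈ I, a R R' = ∑ v ∈ Q R, ((Ch R v).filter (fun w => ds R w ∈ I)).card := by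
    intro R I
    rw [sum_comm]
    exact sum_congr rfl (fun v _ => sum_card_fiberwise_eq_card_filter _ _ _)
  obtain ⟨I, hI, hIc, hf⟩ := greedy F a (fun R => sum_eq_zero (fun v _ => by
      rw [card_eq_zero, filter_eq_empty_iff]
      exact fun w hw => (hds' R v w hw).2.1)) N K (fun I hI hIc => by
    set G := (F \ I).filter (fun R => ¬ ∑ v ∈ S \ (Q R ∪ Z), be v < 4 * K) with hG
    have e1 : ((F \ I).filter (fun R => ∑ v ∈ S \ (Q R ∪ Z), be v < 4 * K)).card ≤ 1 := by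
      rw [card_le_one]
      intro R hR R' hR'
      by_contra hne
      exact htwo ⟨R, (mem_sdiff.1 (mem_filter.1 hR).1).1, R', (mem_sdiff.1 (mem_filter.1 hR').1).1,
        hne, (mem_filter.1 hR).2, (mem_filter.1 hR').2⟩
    have e2 := card_filter_add_card_filter_not (s := F \ I)
      (fun R => ∑ v ∈ S \ (Q R ∪ Z), be v < 4 * K)
    have e3 := le_card_sdiff I F
    have hGF : G ⊆ F := (filter_subset _ _).trans sdiff_subset
    have e4 : G.card * (4 * K) ≤ ∑ R ∈ G, (∑ R' ∈ F, a R R' + ∑ v ∈ Q R, mu v) := by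
      rw [← smul_eq_mul]
      apply card_nsmul_le_sum
      intro R hR
      refine (hgain R (hGF hR) (mem_filter.1 hR).2).trans (le_of_eq ?_)
      rw [hrow]
      congr 1
      exact sum_congr rfl (fun v _ => by
        rw [filter_true_of_mem (fun w hw => (hds' R v w hw).1), hCh2])
    rw [sum_add_distrib] at e4
    have e5 : ∑ R ∈ G, ∑ v ∈ Q R, mu v ≤ N * K := by
      rw [← sum_biUnion (fun R hR R' hR' hne => hQd R (hGF hR) R' (hGF hR') hne)]
      exact (sum_le_sum_of_subset (biUnion_subset.2 (fun R _ => hQS R))).trans hmu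
    have e6 : ∑ R ∈ G, ∑ R' ∈ F, a R R' ≤ ∑ R ∈ F \ I, ∑ R' ∈ F, a R R' :=
      sum_le_sum_of_subset (filter_subset _ _)
    have e7 : 2 * F.card + 5 * N ≤ 4 * G.card := by rw [← hG] at e2; omega
    have e8 := Nat.mul_le_mul_right K e7
    nlinarith) N le_rfl
  have e1 := meet_bound S out c ph θ K hout hmod hadm I (fun R hR => hbad R (hI hR))
  set W := S.filter (fun v => ∀ R ∈ I, v ∈ R) with hW
  have e2 : ∑ R ∈ F \ I, ∑ R' ∈ I, a R R' ≤
      ∑ R ∈ F \ I, ∑ v ∈ Q R, min (c v) (out v \ W).card := by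
    refine sum_le_sum (fun R _ => ?_)
    rw [hrow]
    refine sum_le_sum (fun v _ => le_min ?_ (card_le_card ?_))
    · exact (card_filter_le _ _).trans ((hCh2 R v).trans_le (min_le_left _ _))
    · intro w hw
      have hw' := mem_filter.1 hw
      exact mem_sdiff.2 ⟨(mem_sdiff.1 (hCh1 R v hw'.1)).1,
        fun e => (hds' R v w hw'.1).2.2 ((mem_filter.1 e).2 _ hw'.2)⟩
  rw [← sum_biUnion (fun R hR R' hR' hne =>
    hQd R (mem_sdiff.1 hR).1 R' (mem_sdiff.1 hR').1 hne)] at e2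
  have e3 : ∑ v ∈ (F \ I).biUnion Q, min (c v) (out v \ W).card ≤ vl c out W := by
    refine sum_le_sum_of_subset (biUnion_subset.2 (fun R hR v hv => ?_))
    exact mem_filter.2 ⟨hQS R hv, fun R' hR' => (mem_filter.1 hv).2.2 R' (hI hR')
      (fun e => (mem_sdiff.1 hR).2 (e ▸ hR'))⟩
  have e4 := hph W
  have e5 := Nat.mul_le_mul_right K hIc
  have e6 : 2 * K * N = 2 * (N * K) := by ring
  have e7 : I.card = 0 := by omega
  rw [card_eq_zero] at e7
  rw [e7] at hf
  simp only [sum_empty, sum_const_zero] at hf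
  have : 0 < 2 * K * N := by positivity
  omega

end Pool.Agent.MP_b9875a_co.H99.PL
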