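import Pool.Agent.MP_b9875a_co.H99.State
import Pool.Agent.MP_b9875a_co.H99.Target
import Pool.Agent.MP_b9875a_co.H99.Res

set_option autoImplicit false

namespace Pool.Agent.MP_b9875a_co.H99.PL

open Finset

variable {V : Type} [DecidableEq V]

omit [DecidableEq V] in
lemma card_ext (T : Finset (ℕ × ℕ)) (n K : ℕ) (hT : ∀ τ ∈ T, τ.1 < n) (f : ℕ × ℕ → V) (z : V)
    (P : V → Prop) [DecidablePred P] :
    ((T ∪ {n} ×ˢ range K).filter (fun τ => P (if τ.1 = n then z else f τ))).card =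
      (T.filter (fun τ => P (f τ))).card + if P z then K else 0 := by
  have hd : Disjoint T ({n} ×ˢ range K) := by
    rw [disjoint_left]
    intro τ h1 h2
    have := hT τ h1
    have := mem_singleton.1 (mem_product.1 h2).1
    omega
  rw [filter_union, card_union_of_disjoint (disjoint_filter_filter hd)]
  congr 1
  · congr 1
    exact filter_congr (fun τ hτ => by rw [if_neg (hT τ hτ).ne])
  · have : ({n} ×ˢ range K).filter (fun τ : ℕ × ℕ => P (if τ.1 = n then z else f τ)) =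
        ({n} ×ˢ range K).filter (fun _ => P z) :=
      filter_congr (fun τ hτ => by rw [if_pos (mem_singleton.1 (mem_product.1 hτ).1)])
    rw [this]
    by_cases a : P z <;> simp [a]

namespace Sta

variable {σ : Sta V} {N K L b n : ℕ}

lemma L_pos (hL : 3 * N + 7 < 2 ^ L) : 1 ≤ L := by
  rcases L with _ | L
  · simp at hL
  · omega

lemma Good.ph_le (G : σ.Good N K L b n) (R : Finset V) : σ.ph R ≤ N * K := by
  rw [ph_eq G.tok]
  refine le_trans (sum_le_sum (fun v hv => G.fi v (mem_sdiff.1 hv).1)) ?_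
  exact ((sum_le_sum_of_subset sdiff_subset).trans G.smu).trans (Nat.mul_le_mul_right _ G.nN)

lemma Good.dead_mu (G : σ.Good N K L b n) {v : V} (hv : v ∈ σ.S) (hc : σ.c v = 0) :
    4 * K * L ≤ σ.mu v ∧ σ.be v ≤ σ.mu v := by
  have h1 := G.tot v hv
  have h2 := G.belt v hv
  have h3 : 8 * K * L = 2 * (4 * K * L) := by ring
  omega

lemma Good.dead_le (G : σ.Good N K L b n) (hK : 1 ≤ K) (hL : 1 ≤ L) :
    (σ.S \ σ.alive).card ≤ N := by
  have h1 : (σ.S \ σ.alive).card * K ≤ ∑ v ∈ σ.S \ σ.alive, σ.mu v := by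
    rw [← smul_eq_mul]
    refine card_nsmul_le_sum _ _ _ (fun v hv => ?_)
    have a := mem_sdiff.1 hv
    have b : σ.c v = 0 := by_contra fun e => a.2 (mem_filter.2 ⟨a.1, by omega⟩)
    have c := (G.dead_mu a.1 b).1
    have d := Nat.mul_le_mul_left (4 * K) hL
    omega
  have h2 := ((sum_le_sum_of_subset (sdiff_subset (t := σ.alive))).trans G.smu).trans
    (Nat.mul_le_mul_right _ G.nN)
  exact Nat.le_of_mul_le_mul_right (h1.trans h2) hK

lemma Good.alive_ne (G : σ.Good N K L b n) (hK : 1 ≤ K) (hL : 1 ≤ L) : σ.alive.Nonempty := by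
  have h1 := G.dead_le hK hL
  have h2 := G.big
  have h3 := le_card_sdiff σ.alive σ.S
  exact card_pos.1 (by omega)

lemma exists_ext {θ q0 : ℕ} (hA : σ.Adm θ) {R0 : Finset V} (h0 : R0 ⊆ σ.S) (h1 : θ ≤ R0.card)
    (h2 : σ.val R0 < σ.ph R0 + q0) : ∃ R q, R ⊆ R0 ∧ θ ≤ R.card ∧ q < q0 ∧
      σ.val R = σ.ph R + q ∧ ∀ R', R' ⊆ R → θ ≤ R'.card → σ.ph R' + q ≤ σ.val R' := by
  obtain ⟨R, hR1, hR2⟩ := exists_min_image (R0.powerset.filter (fun R => θ ≤ R.card))
    (fun R => σ.val R - σ.ph R) ⟨R0, mem_filter.2 ⟨mem_powerset_self _, h1⟩⟩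
  have a := mem_powerset.1 (mem_filter.1 hR1).1
  have b := (mem_filter.1 hR1).2
  have c := hA R (a.trans h0) b
  have d := hR2 R0 (mem_filter.2 ⟨mem_powerset_self _, h1⟩)
  have e := hA R0 h0 h1
  refine ⟨R, σ.val R - σ.ph R, a, b, by omega, by omega, fun R' h3 h4 => ?_⟩
  have f := hR2 R' (mem_filter.2 ⟨mem_powerset.2 (h3.trans a), h4⟩)
  have g := hA R' ((h3.trans a).trans h0) h4
  omega

omit [DecidableEq V] in
lemma psi_small {R : Finset V} (hR : R ⊆ σ.S) {q B : ℕ} (hq : q ≤ 4 * K)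
    (h : ∀ v ∈ σ.alive, σ.be v < 4 * K) (hb : ∑ v ∈ R, σ.be v + q ≤ B) (ν : V → ℕ)
    (hν : ∑ v ∈ R, ν v = q) :
    ∑ v ∈ R.filter (fun v => 1 ≤ σ.c v), fw K (σ.be v + ν v) ≤ 2 * B := by
  have h1 : ∑ v ∈ R.filter (fun v => 1 ≤ σ.c v), fw K (σ.be v + ν v) ≤
      ∑ v ∈ R.filter (fun v => 1 ≤ σ.c v), 2 * (σ.be v + ν v) := by
    refine sum_le_sum (fun v hv => fw_small K ?_)
    have a := h v (filter_subset_filter _ hR hv)
    have b := single_le_sum (f := ν) (fun _ _ => Nat.zero_le _) (mem_filter.1 hv).1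
    omega
  have h2 : ∑ v ∈ R.filter (fun v => 1 ≤ σ.c v), 2 * (σ.be v + ν v) ≤
      ∑ v ∈ R, 2 * (σ.be v + ν v) := sum_le_sum_of_subset (filter_subset _ _)
  rw [← mul_sum R, sum_add_distrib] at h2
  omega

lemma psi_big (hK : 1 ≤ K) {R : Finset V} (hR : R ⊆ σ.S) {q : ℕ} (hq : q < K) {u : V}
    (hu : u ∈ σ.alive) (huR : u ∉ R) (hb : 4 * K ≤ σ.be u)
    (hmax : ∀ v ∈ σ.alive, σ.be v ≤ σ.be u) (ν : V → ℕ) (hν : ∑ v ∈ R, ν v = q) :
    ∑ v ∈ R.filter (fun v => 1 ≤ σ.c v), fw K (σ.be v + ν v) ≤ ∑ v ∈ σ.alive, fw K (σ.be v) := by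
  obtain ⟨y, hy⟩ := Nat.exists_eq_add_of_le' hb
  set i := y / (4 * K) with hi
  have h1 : 4 * K * i ≤ y := Nat.mul_div_le _ _
  have h2 : y < 4 * K * (i + 1) := Nat.lt_mul_div_succ _ (by omega)
  have h3 := fw_add_ge K y (4 * K) i hK h1
  have h4 : ∑ v ∈ R.filter (fun v => 1 ≤ σ.c v), fw K (σ.be v + ν v) ≤
      ∑ v ∈ R.filter (fun v => 1 ≤ σ.c v), (fw K (σ.be v) + ν v * 2 ^ (i + 2)) := by
    refine sum_le_sum (fun v hv => fw_add_le K _ _ _ hK ?_)
    have a := hmax v (filter_subset_filter _ hR hv)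
    have b := single_le_sum (f := ν) (fun _ _ => Nat.zero_le _) (mem_filter.1 hv).1
    have c : 4 * K * (i + 2 + 1) = 4 * K * (i + 1) + 8 * K := by ring
    omega
  rw [sum_add_distrib, ← sum_mul] at h4
  have h5 : ∑ v ∈ R.filter (fun v => 1 ≤ σ.c v), ν v ≤ ∑ v ∈ R, ν v :=
    sum_le_sum_of_subset (filter_subset _ _)
  have h6 := Nat.mul_le_mul_right (2 ^ (i + 2))
    (show ∑ v ∈ R.filter (fun v => 1 ≤ σ.c v), ν v ≤ K by omega)
  have h7 : K * 2 ^ (i + 2) = 4 * K * 2 ^ i := by ring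
  have h8 := add_sum_erase σ.alive (fun v => fw K (σ.be v)) hu
  have h9 : ∑ v ∈ R.filter (fun v => 1 ≤ σ.c v), fw K (σ.be v) ≤
      ∑ v ∈ σ.alive.erase u, fw K (σ.be v) :=
    sum_le_sum_of_subset (fun v hv => mem_erase.2
      ⟨fun e => huR (e ▸ (mem_filter.1 hv).1), filter_subset_filter _ hR hv⟩)
  rw [← hy] at h3
  omega

/-- pruning the arcs into `z` -/
lemma prune (S : Finset V) (D : Finset (V × V)) (c : V → ℕ) (p : Finset V → ℕ) (θ : ℕ) (z : V)
    (hbig : θ ≤ (S.erase z).card)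
    (hA : ∀ R, R ⊆ S → θ ≤ R.card → p R ≤ vl c (fun v => S.filter (fun w => (v, w) ∈ D)) R) :
    ∃ D', D' ⊆ D ∧ (∀ e ∈ D, e.2 ≠ z → e ∈ D') ∧
      (∀ R, R ⊆ S → θ ≤ R.card → p R ≤ vl c (fun v => S.filter (fun w => (v, w) ∈ D')) R) ∧
      ∃ R, R ⊆ S ∧ θ ≤ R.card ∧ z ∉ R ∧
        vl c (fun v => S.filter (fun w => (v, w) ∈ D')) R ≤ p R := by
  classical
  obtain ⟨D', h1, h2⟩ := exists_min_image (D.powerset.filter (fun D' =>
    (∀ e ∈ D, e.2 ≠ z → e ∈ D') ∧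
      ∀ R, R ⊆ S → θ ≤ R.card → p R ≤ vl c (fun v => S.filter (fun w => (v, w) ∈ D')) R)) card
    ⟨D, mem_filter.2 ⟨mem_powerset_self _, fun _ h _ => h, hA⟩⟩
  obtain ⟨h3, h4, h5⟩ := mem_filter.1 h1
  refine ⟨D', mem_powerset.1 h3, h4, h5, ?_⟩
  by_contra hn
  by_cases a : ∃ v, (v, z) ∈ D'
  · obtain ⟨v, hv⟩ := a
    have h6 : (⟨S, S, c, p, 0, θ⟩ : Col V).Adm
        (fun u => S.filter (fun w => (u, w) ∈ D'.erase (v, z))) := by
      refine Col.adm_erase (f := fun u => S.filter (fun w => (u, w) ∈ D')) (v := v) (r := z)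
        (fun R hR => h5 R hR.1 (hR.2.trans (card_le_card inter_subset_left))) (fun u hu => ?_) ?_
        (fun Z hZ => by_contra fun e => hn ⟨Z, hZ.1.1.1,
          hZ.1.1.2.trans (card_le_card inter_subset_left), e, hZ.1.2⟩)
      · exact filter_congr (fun w _ => by simp [hu])
      · ext w
        simp only [mem_filter, mem_erase, ne_eq, Prod.mk.injEq, true_and]
        tauto
    have h7 := h2 (D'.erase (v, z)) (mem_filter.2 ⟨mem_powerset.2 ((erase_subset _ _).trans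
      (mem_powerset.1 h3)), fun e he hz => mem_erase.2 ⟨fun x => hz (by rw [x]), h4 e he hz⟩,
      fun R p q => h6 R ⟨p, by show θ ≤ (R ∩ S).card; rwa [inter_eq_left.2 p]⟩⟩)
    have := card_erase_add_one hv
    omega
  · refine hn ⟨S.erase z, erase_subset _ _, hbig, notMem_erase _ _, ?_⟩
    refine le_trans (le_of_eq (sum_eq_zero (fun v _ => ?_))) (Nat.zero_le _)
    have : S.filter (fun w => (v, w) ∈ D') \ S.erase z = ∅ := by
      rw [sdiff_eq_empty_iff_subset]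
      intro w hw
      exact mem_erase.2 ⟨fun e => a ⟨v, e ▸ (mem_filter.1 hw).2⟩, (mem_filter.1 hw).1⟩
    rw [this]
    simp

lemma add_at [Fintype V] (flow : FlowStmt) (hK : 1 ≤ K) (hL : 3 * N + 7 < 2 ^ L)
    (G : σ.Good N K L (b + 1) n) (hn : n < N) {z : V} (hz : z ∈ σ.alive)
    (h : ∀ R, R ⊆ σ.S → N + 1 ≤ R.card → z ∉ R → σ.ph R + K ≤ σ.val R) :
    ∃ σ' : Sta V, σ'.Good N K L b (n + 1) ∧ σ'.alive ⊆ σ.alive.erase z ∧ K ≤ σ'.pend z ∧
      (∀ x, σ.pend x ≤ σ'.pend x) ∧ ∀ F, σ.Av F → σ'.Av F := by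
  have hz' := mem_filter.1 hz
  obtain ⟨D', d1, d2, d3, R, r1, r2, r3, r4⟩ := prune σ.S σ.D σ.c
    (fun R => σ.ph R + if z ∉ R then K else 0) (N + 1) z (by
      have a := G.deg z hz'.1 hz'.2
      have b := G.tot z hz'.1
      have c : (σ.out z).card ≤ σ.S.card := card_filter_le _ _
      have d := card_erase_add_one hz'.1
      omega) (fun R a b => by
      by_cases e : z ∈ R
      · simp only [e, not_true, if_false]
        exact G.adm R a b
      · simp only [e, not_false_iff, if_true]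
        exact h R a b e)
  set σ1 : Sta V := ⟨σ.S, D', σ.T ∪ {n} ×ˢ range K, fun τ => if τ.1 = n then z else σ.tl τ,
    fun τ => if τ.1 = n then z else σ.ds τ, fun τ => if τ.1 = n then ∅ else σ.ln τ, σ.c,
    fun v => σ.mu v + if z = v then K else 0, σ.be⟩ with hσ
  have hph : ∀ R, σ1.ph R = σ.ph R + if z ∉ R then K else 0 := fun R =>
    card_ext σ.T n K G.nm σ.tl z (fun v => v ∉ R)
  have hfi : ∀ v, σ1.fi v = σ.fi v + if z = v then K else 0 := fun v =>
    card_ext σ.T n K G.nm σ.tl z (fun w => w = v)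
  have hpe : ∀ v, σ1.pend v = σ.pend v + if z = v then K else 0 := fun v =>
    card_ext σ.T n K G.nm σ.ds z (fun w => w = v)
  have hold : ∀ τ ∈ σ1.T, τ.1 ≠ n → τ ∈ σ.T := fun τ hτ e =>
    (mem_union.1 hτ).resolve_right (fun a => e (mem_singleton.1 (mem_product.1 a).1))
  have adm : σ1.Adm (N + 1) := fun R a b => by rw [hph]; exact d3 R a b
  have tok : σ1.Tok := by
    refine ⟨fun τ hτ => ?_, fun τ hτ => ?_, fun τ hτ => ?_, fun τ hτ τ' hτ' hne => ?_⟩
    · by_cases e : τ.1 = n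
      · simp only [hσ, if_pos e]; exact hz'.1
      · simp only [hσ, if_neg e]; exact G.tok.tlS τ (hold τ hτ e)
    · by_cases e : τ.1 = n
      · simp only [hσ, if_pos e]; exact Relation.ReflTransGen.refl
      · simp only [hσ, if_neg e]; exact G.tok.rch τ (hold τ hτ e)
    · by_cases e : τ.1 = n
      · simp only [hσ, if_pos e]; exact disjoint_empty_left _
      · simp only [hσ, if_neg e]; exact (G.tok.dD τ (hold τ hτ e)).mono_right d1
    · by_cases e : τ.1 = n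
      · simp only [hσ, if_pos e]; exact disjoint_empty_left _
      · by_cases e' : τ'.1 = n
        · simp only [hσ, if_pos e']; exact disjoint_empty_right _
        · simp only [hσ, if_neg e, if_neg e']
          exact G.tok.dd τ (hold τ hτ e) τ' (hold τ' hτ' e') hne
  have hmu : ∀ v ∈ R, σ1.mu v = σ.mu v := fun v hv => by
    have : z ≠ v := fun e => r3 (e ▸ hv)
    simp only [hσ, if_neg this, add_zero]
  obtain ⟨σ', g1, g2, g3, g4, g5⟩ := dive (σ := σ1) (N := N) (K := K) (L := L) (b := b)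
    (n := n + 1) (q := 0) flow hK hL r1 r2 tok
    (fun τ hτ => by
      by_cases e : τ.1 = n
      · omega
      · have := G.nm τ (hold τ hτ e); omega) hn
    (fun v hv => by rw [hmu v hv]; exact G.tot v (r1 hv))
    (fun v hv => by rw [hfi]; exact Nat.add_le_add_right (G.fi v hv) _)
    (by
      show ∑ v ∈ σ.S, (σ.mu v + if z = v then K else 0) ≤ _
      rw [sum_add_distrib, sum_ite_eq, if_pos hz'.1, add_mul, one_mul]
      exact Nat.add_le_add_right G.smu _)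
    (fun v hv hc => by
      have a := G.deg v (r1 hv) hc
      have b : (σ.out v).erase z ⊆ σ1.out v := fun w hw => by
        have c := mem_erase.1 hw
        exact mem_filter.2 ⟨(mem_filter.1 c.2).1, d2 _ (mem_filter.1 c.2).2 c.1⟩
      have c := card_le_card b
      have d : (σ.out v).card - 1 ≤ ((σ.out v).erase z).card := pred_card_le_card_erase
      rw [hmu v hv]
      show _ ≤ _ + σ.be v
      omega) adm (fun v hv => G.belt v (r1 hv))
    (by
      have a := adm R r1 r2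
      have b : σ1.val R ≤ σ1.ph R := by rw [hph]; exact r4
      omega)
    (fun R' a b => adm R' (a.trans r1) b)
    ((sum_le_sum_of_subset r1).trans G.sbe)
    (fun ν hν => by
      have a : ∀ v ∈ R, ν v = 0 := sum_eq_zero_iff.1 hν
      refine le_trans (le_of_eq (sum_congr rfl (fun v hv => ?_)))
        ((sum_le_sum_of_subset (filter_subset_filter _ r1)).trans G.psi)
      rw [a v (mem_filter.1 hv).1, add_zero])
  refine ⟨σ', g1, fun v hv => mem_erase.2 ⟨fun e => r3 (by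
    have := (mem_filter.1 hv).1
    rwa [g2, e] at this), g3 hv⟩, ?_, fun x => ?_, fun F hF => g5 F ⟨d1.trans hF.1, fun τ hτ => ?_⟩⟩
  · rw [g4, hpe, if_pos rfl]; omega
  · rw [g4, hpe]; omega
  · by_cases e : τ.1 = n
    · simp only [hσ, if_pos e]; exact empty_subset _
    · simp only [hσ, if_neg e]; exact hF.2 τ (hold τ hτ e)

lemma add [Fintype V] (flow : FlowStmt) (hK : 1 ≤ K) (hL : 3 * N + 7 < 2 ^ L) (hn : n < N)
    (s : ℕ) : ∀ σ : Sta V, σ.S.card ≤ s → σ.Good N K L (b + 1) n →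
    ∃ z ∈ σ.alive, ∃ σ' : Sta V, σ'.Good N K L b (n + 1) ∧ σ'.alive ⊆ σ.alive.erase z ∧
      K ≤ σ'.pend z ∧ (∀ x, σ.pend x ≤ σ'.pend x) ∧ ∀ F, σ.Av F → σ'.Av F := by
  induction s using Nat.strong_induction_on with
  | _ s ih =>
  intro σ hs G
  have hL1 := L_pos hL
  by_cases a : ∃ z ∈ σ.alive, ∀ R, R ⊆ σ.S → N + 1 ≤ R.card → z ∉ R → σ.ph R + K ≤ σ.val R
  · obtain ⟨z, hz, h⟩ := a
    exact ⟨z, hz, add_at flow hK hL G hn hz h⟩
  push Not at a
  have go : ∀ R q, R ⊆ σ.S → R ≠ σ.S → N + 1 ≤ R.card → σ.val R = σ.ph R + q →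
      (∀ R', R' ⊆ R → N + 1 ≤ R'.card → σ.ph R' + q ≤ σ.val R') →
      ∑ v ∈ R, σ.be v + q ≤ (6 * N + 11) * K →
      (∀ ν : V → ℕ, ∑ v ∈ R, ν v = q →
        ∑ v ∈ R.filter (fun v => 1 ≤ σ.c v), fw K (σ.be v + ν v) ≤ 2 * ((6 * N + 11) * K)) →
      ∃ z ∈ σ.alive, ∃ σ' : Sta V, σ'.Good N K L b (n + 1) ∧ σ'.alive ⊆ σ.alive.erase z ∧
        K ≤ σ'.pend z ∧ (∀ x, σ.pend x ≤ σ'.pend x) ∧ ∀ F, σ.Av F → σ'.Av F := by
    intro R q h1 h2 h3 h4 h5 h6 h7
    obtain ⟨σ1, g1, g2, g3, g4, g5⟩ := dive flow hK hL h1 h3 G.tok G.nm G.nN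
      (fun v hv => G.tot v (h1 hv)) G.fi G.smu (fun v hv => G.deg v (h1 hv)) G.adm
      (fun v hv => G.belt v (h1 hv)) h4 h5 h6 h7
    obtain ⟨z, hz, σ', t1, t2, t3, t4, t5⟩ := ih R.card
      (lt_of_lt_of_le (card_lt_card (ssubset_of_subset_of_ne h1 h2)) hs) σ1 (by rw [g2]) g1
    exact ⟨z, g3 hz, σ', t1, t2.trans (erase_subset_erase _ g3), t3,
      fun x => g4 x ▸ t4 x, fun F hF => t5 F (g5 F hF)⟩
  obtain ⟨u, hu, hmax⟩ := exists_max_image σ.alive σ.be (G.alive_ne hK hL1)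
  obtain ⟨R0, r1, r2, r3, r4⟩ := a u hu
  obtain ⟨R, q, e1, e2, e3, e4, e5⟩ := exists_ext G.adm r1 r2 r4
  have hRS := e1.trans r1
  have huS := (mem_filter.1 hu).1
  have hne : R ≠ σ.S := fun e => r3 (e1 (e ▸ huS))
  have hsd := sum_sdiff (f := σ.be) hRS
  have hsb := G.sbe
  by_cases c1 : 4 * K ≤ σ.be u
  · have := single_le_sum (f := σ.be) (fun _ _ => Nat.zero_le _)
      (mem_sdiff.2 ⟨huS, fun e => r3 (e1 e)⟩ : u ∈ σ.S \ R)
    exact go R q hRS hne e2 e4 e5 (by omega) (fun ν hν =>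
      (psi_big hK hRS e3 hu (fun e => r3 (e1 e)) c1 hmax ν hν).trans G.psi)
  have hsm : ∀ v ∈ σ.alive, σ.be v < 4 * K := fun v hv => by have := hmax v hv; omega
  by_cases c2 : ∀ R q, R ⊆ σ.S → N + 1 ≤ R.card → q ≤ 4 * K → σ.val R < σ.ph R + q →
      ∑ v ∈ σ.S \ R, σ.be v < q
  · have ht := target σ.S σ.out σ.c σ.mu σ.be σ.ph (N + 1) N K (8 * K * L) hK (by omega)
      (Nat.le_mul_of_pos_right _ hL1) (fun v => filter_subset _ _)
      (fun X Y => (ph_mod X Y).le) G.ph_le G.adm G.tot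
      (G.smu.trans (Nat.mul_le_mul_right _ G.nN)) (fun v hv hc => (G.dead_mu hv hc).2)
      (fun v hv hc => by
        have := G.deg v hv hc
        have := G.tot v hv
        omega)
      (fun z hz hc => by
        obtain ⟨R, p1, p2, p3, p4⟩ := a z (mem_filter.2 ⟨hz, hc⟩)
        exact ⟨R, ⟨p1, p2, p4⟩, p3⟩)
      (fun v hv hc => hsm v (mem_filter.2 ⟨hv, hc⟩)) c2
    have h6 : ∑ v ∈ R, σ.be v + q ≤ (6 * N + 11) * K := by
      have : (6 * N + 11) * K = (6 * N + 10) * K + K := by ring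
      omega
    exact go R q hRS hne e2 e4 e5 h6 (psi_small hRS (by omega) hsm h6)
  · push Not at c2
    obtain ⟨R1, q1, p1, p2, p3, p4, p5⟩ := c2
    obtain ⟨R2, q2, f1, f2, f3, f4, f5⟩ := exists_ext G.adm p1 p2 p4
    have h1 := f1.trans p1
    have h2 : ∑ v ∈ σ.S \ R1, σ.be v ≤ ∑ v ∈ σ.S \ R2, σ.be v :=
      sum_le_sum_of_subset (sdiff_subset_sdiff (Subset.refl _) f1)
    have h3 := sum_sdiff (f := σ.be) h1
    have h6 : ∑ v ∈ R2, σ.be v + q2 ≤ (6 * N + 11) * K := by omega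
    refine go R2 q2 h1 (fun e => ?_) f2 f4 f5 h6 (psi_small h1 (by omega) hsm h6)
    rw [e, sdiff_self, bot_eq_empty, sum_empty] at h2
    omega

end Sta

end Pool.Agent.MP_b9875a_co.H99.PL
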