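import Mathlib

set_option autoImplicit false

namespace Pool.Agent.MP_b9875a_co.H99

open Finset

variable {V : Type} [DecidableEq V]

/-- arcs of `D` from `R` to `W \ R` -/
def cutSet (D : Finset (V × V)) (W R : Finset V) : Finset (V × V) :=
  D.filter (fun e => e.1 ∈ R ∧ e.2 ∈ W ∧ e.2 ∉ R)

def cut (D : Finset (V × V)) (W R : Finset V) : ℕ := (cutSet D W R).card

lemma mem_cutSet {D : Finset (V × V)} {W R : Finset V} {e : V × V} :
    e ∈ cutSet D W R ↔ e ∈ D ∧ e.1 ∈ R ∧ e.2 ∈ W ∧ e.2 ∉ R := by
  simp [cutSet]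

lemma cut_submod (D : Finset (V × V)) (W R R' : Finset V) :
    cut D W (R ∩ R') + cut D W (R ∪ R') ≤ cut D W R + cut D W R' := by
  unfold cut cutSet
  simp only [card_filter, ← sum_add_distrib]
  apply sum_le_sum
  intro e _
  by_cases h1 : e.1 ∈ R <;> by_cases h2 : e.1 ∈ R' <;> by_cases h3 : e.2 ∈ R <;>
    by_cases h4 : e.2 ∈ R' <;> by_cases h5 : e.2 ∈ W <;> simp [h1, h2, h3, h4, h5]

lemma cut_erase_le (D : Finset (V × V)) (W R : Finset V) (e : V × V) :
    cut D W R ≤ cut (D.erase e) W R + 1 := by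
  unfold cut
  have : cutSet D W R ⊆ insert e (cutSet (D.erase e) W R) := by
    intro x hx
    rw [mem_cutSet] at hx
    by_cases h : x = e
    · simp [h]
    · simp only [mem_insert, mem_cutSet, mem_erase]
      exact Or.inr ⟨⟨h, hx.1⟩, hx.2⟩
  exact (card_le_card this).trans (card_insert_le _ _)

lemma cut_erase_of_not (D : Finset (V × V)) (W R : Finset V) (e : V × V)
    (h : ¬ (e.1 ∈ R ∧ e.2 ∉ R)) : cut D W R ≤ cut (D.erase e) W R := by
  unfold cut
  apply card_le_card
  intro x hx
  rw [mem_cutSet] at hx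
  simp only [mem_cutSet, mem_erase]
  refine ⟨⟨?_, hx.1⟩, hx.2⟩
  rintro rfl
  exact h ⟨hx.2.1, hx.2.2.2⟩

lemma cut_mono {D D' : Finset (V × V)} (h : D ⊆ D') (W R : Finset V) :
    cut D W R ≤ cut D' W R := by
  unfold cut
  apply card_le_card
  intro x hx
  rw [mem_cutSet] at hx ⊢
  exact ⟨h hx.1, hx.2⟩

/-- One growth step of Lovasz's proof of the branching theorem. -/
lemma grow_step (E : Finset (V × V)) (W S : Finset V) (z : V) (K : ℕ)
    (hz : z ∈ S) (hSW : S ⊆ W) (hne : (W \ S).Nonempty)
    (hfull : ∀ R : Finset V, R ⊆ W \ S → R.Nonempty → K + 1 ≤ cut E W R)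
    (hcut : ∀ R : Finset V, R ⊆ W.erase z → R.Nonempty → K ≤ cut E W R) :
    ∃ u w, u ∈ W ∧ u ∉ S ∧ w ∈ S ∧ (u, w) ∈ E ∧
      ∀ R : Finset V, R ⊆ W.erase z → R.Nonempty → K ≤ cut (E.erase (u, w)) W R := by
  classical
  by_cases hcrit : ∃ R : Finset V, R ⊆ W.erase z ∧ cut E W R ≤ K ∧ (R \ S).Nonempty
  · -- minimal critical set
    have hex : ((W.erase z).powerset.filter
        (fun R => cut E W R ≤ K ∧ (R \ S).Nonempty)).Nonempty := by
      obtain ⟨R, h1, h2, h3⟩ := hcrit
      exact ⟨R, by simp only [mem_filter, mem_powerset]; exact ⟨h1, h2, h3⟩⟩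
    obtain ⟨R, hR, hmin⟩ := exists_min_image _ Finset.card hex
    simp only [mem_filter, mem_powerset] at hR hmin
    obtain ⟨hRW, hRK, hRS⟩ := hR
    have h1 : K + 1 ≤ cut E W (R \ S) := by
      apply hfull _ _ hRS
      intro x hx
      rw [mem_sdiff] at hx ⊢
      exact ⟨(mem_erase.1 (hRW hx.1)).2, hx.2⟩
    have h2 : ∃ e ∈ cutSet E W (R \ S), e ∉ cutSet E W R := by
      by_contra hcon
      push Not at hcon
      have : cut E W (R \ S) ≤ cut E W R := card_le_card hcon
      omega
    obtain ⟨⟨u, w⟩, he1, he2⟩ := h2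
    rw [mem_cutSet] at he1 he2
    simp only [mem_sdiff] at he1 he2
    obtain ⟨heE, ⟨huR, huS⟩, hwW, hw⟩ := he1
    have hwR : w ∈ R := by
      by_contra h
      exact he2 ⟨heE, huR, hwW, h⟩
    have hwS : w ∈ S := by
      by_contra h
      exact hw ⟨hwR, h⟩
    refine ⟨u, w, (mem_erase.1 (hRW huR)).2, huS, hwS, heE, ?_⟩
    intro R' hR' hR'ne
    by_cases hc : u ∈ R' ∧ w ∉ R'
    · have hgt : K + 1 ≤ cut E W R' := by
        by_contra hle
        have hs := cut_submod E W R R'
        have hU : K ≤ cut E W (R ∪ R') :=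
          hcut _ (union_subset hRW hR') ⟨u, mem_union_left _ huR⟩
        have hI : cut E W (R ∩ R') ≤ K := by omega
        have hm := hmin (R ∩ R') ⟨(inter_subset_left).trans hRW, hI,
          ⟨u, by simp [huR, huS, hc.1]⟩⟩
        have hlt : (R ∩ R').card < R.card := by
          apply card_lt_card
          refine ⟨inter_subset_left, fun h => hc.2 ?_⟩
          exact (mem_inter.1 (h hwR)).2
        omega
      have := cut_erase_le E W R' (u, w)
      omega
    · exact (hcut R' hR' hR'ne).trans (cut_erase_of_not E W R' (u, w) hc)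
  · push Not at hcrit
    have h1 : K + 1 ≤ cut E W (W \ S) := hfull _ subset_rfl hne
    have h2 : (cutSet E W (W \ S)).Nonempty := by
      rw [← card_pos]
      unfold cut at h1
      omega
    obtain ⟨⟨u, w⟩, he⟩ := h2
    rw [mem_cutSet] at he
    simp only [mem_sdiff] at he
    obtain ⟨heE, ⟨huW, huS⟩, hwW, hw⟩ := he
    have hwS : w ∈ S := by
      by_contra h
      exact hw ⟨hwW, h⟩
    refine ⟨u, w, huW, huS, hwS, heE, ?_⟩
    intro R' hR' hR'ne
    by_cases hc : u ∈ R' ∧ w ∉ R'
    · have hgt : K + 1 ≤ cut E W R' := by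
        by_contra hle
        have := hcrit R' hR' (by omega)
        have hu : u ∈ R' \ S := by simp [hc.1, huS]
        rw [this] at hu
        simp at hu
      have := cut_erase_le E W R' (u, w)
      omega
    · exact (hcut R' hR' hR'ne).trans (cut_erase_of_not E W R' (u, w) hc)

/-- arcs left after deleting the arcs `(v, p v)`, `v ∈ T` -/
def del (D : Finset (V × V)) (T : Finset V) (p : V → V) : Finset (V × V) :=
  D.filter (fun e => ¬ (e.1 ∈ T ∧ e.2 = p e.1))

lemma mem_del {D : Finset (V × V)} {T : Finset V} {p : V → V} {e : V × V} :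
    e ∈ del D T p ↔ e ∈ D ∧ ¬ (e.1 ∈ T ∧ e.2 = p e.1) := by
  simp [del]

lemma grow (D : Finset (V × V)) (W : Finset V) (z : V) (K : ℕ) (hzW : z ∈ W)
    (hcut : ∀ R : Finset V, R ⊆ W.erase z → R.Nonempty → K + 1 ≤ cut D W R) (n : ℕ)
    (hn : n + 1 ≤ W.card) :
    ∃ (S : Finset V) (p : V → V) (r : V → ℕ), S ⊆ W ∧ z ∈ S ∧ S.card = n + 1 ∧
      (∀ v ∈ S.erase z, (v, p v) ∈ D ∧ p v ∈ S ∧ r (p v) < r v) ∧
      ∀ R : Finset V, R ⊆ W.erase z → R.Nonempty → K ≤ cut (del D (S.erase z) p) W R := by
  induction n with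
  | zero =>
    refine ⟨{z}, id, fun _ => 0, by simpa using hzW, by simp, by simp, by simp, ?_⟩
    intro R hR hne
    have h1 := hcut R hR hne
    have h2 : cut D W R ≤ cut (del D (({z} : Finset V).erase z) id) W R := by
      apply cut_mono
      intro e he
      simp [mem_del, he]
    omega
  | succ n ih =>
    obtain ⟨S, p, r, hSW, hzS, hcard, hp, hK⟩ := ih (by omega)
    have hne : (W \ S).Nonempty := by
      rw [← card_pos, card_sdiff_of_subset hSW]
      omega
    obtain ⟨u, w, huW, huS, hwS, huw, hnew⟩ := grow_step (del D (S.erase z) p) W S z K hzS hSW hne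
      (by
        intro R hR hRne
        have h1 := hcut R (by
          intro x hx
          have := mem_sdiff.1 (hR hx)
          exact mem_erase.2 ⟨fun h => this.2 (h ▸ hzS), this.1⟩) hRne
        refine h1.trans (card_le_card ?_)
        intro e he
        rw [mem_cutSet] at he ⊢
        refine ⟨mem_del.2 ⟨he.1, fun h => ?_⟩, he.2⟩
        exact (mem_sdiff.1 (hR he.2.1)).2 (mem_erase.1 h.1).2) hK
    have huz : u ≠ z := fun h => huS (h ▸ hzS)
    have huw' : u ≠ w := fun h => huS (h ▸ hwS)
    refine ⟨insert u S, Function.update p u w, Function.update r u (r w + 1),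
      insert_subset huW hSW, mem_insert_of_mem hzS, by rw [card_insert_of_notMem huS, hcard], ?_, ?_⟩
    · intro v hv
      rw [mem_erase, mem_insert] at hv
      rcases hv with ⟨hvz, rfl | hvS⟩
      · simp only [Function.update_self]
        refine ⟨(mem_del.1 huw).1, mem_insert_of_mem hwS, ?_⟩
        rw [Function.update_of_ne huw'.symm]
        omega
      · have hvu : v ≠ u := fun h => huS (h ▸ hvS)
        obtain ⟨h1, h2, h3⟩ := hp v (mem_erase.2 ⟨hvz, hvS⟩)
        have hpu : p v ≠ u := fun h => huS (h ▸ h2)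
        rw [Function.update_of_ne hvu, Function.update_of_ne hvu, Function.update_of_ne hpu]
        exact ⟨h1, mem_insert_of_mem h2, h3⟩
    · intro R hR hRne
      refine (hnew R hR hRne).trans (cut_mono ?_ W R)
      intro e he
      rw [mem_erase, mem_del] at he
      rw [mem_del]
      refine ⟨he.2.1, ?_⟩
      rintro ⟨h1, h2⟩
      by_cases heu : e.1 = u
      · apply he.1
        rw [heu, Function.update_self] at h2
        exact Prod.ext heu h2
      · rw [Function.update_of_ne heu] at h2
        apply he.2.2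
        refine ⟨?_, h2⟩
        rw [mem_erase, mem_insert] at h1
        exact mem_erase.2 ⟨h1.1, h1.2.resolve_left heu⟩

/-- A spanning in-arborescence whose deletion lowers the cut condition by one. -/
lemma arb (D : Finset (V × V)) (W : Finset V) (z : V) (K : ℕ) (hzW : z ∈ W)
    (hcut : ∀ R : Finset V, R ⊆ W.erase z → R.Nonempty → K + 1 ≤ cut D W R) :
    ∃ (p : V → V) (r : V → ℕ),
      (∀ v ∈ W.erase z, (v, p v) ∈ D ∧ p v ∈ W ∧ r (p v) < r v) ∧
      ∀ R : Finset V, R ⊆ W.erase z → R.Nonempty → K ≤ cut (del D (W.erase z) p) W R := by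
  have hpos : 0 < W.card := card_pos.2 ⟨z, hzW⟩
  obtain ⟨S, p, r, hSW, _, hcard, hp, hK⟩ := grow D W z K hzW hcut (W.card - 1) (by omega)
  have : S = W := eq_of_subset_of_card_le hSW (by omega)
  subst this
  exact ⟨p, r, hp, hK⟩

/-- Edmonds' branching theorem, in the form needed here. -/
lemma arbs (W : Finset V) (z : V) (hzW : z ∈ W) (K : ℕ) : ∀ (D : Finset (V × V)),
    (∀ R : Finset V, R ⊆ W.erase z → R.Nonempty → K ≤ cut D W R) →
    ∃ (p : ℕ → V → V) (r : ℕ → V → ℕ),
      (∀ i < K, ∀ v ∈ W.erase z, (v, p i v) ∈ D ∧ p i v ∈ W ∧ r i (p i v) < r i v) ∧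
      (∀ i < K, ∀ j < K, i ≠ j → ∀ v ∈ W.erase z, p i v ≠ p j v) := by
  induction K with
  | zero =>
    intro D _
    exact ⟨fun _ => id, fun _ _ => 0, by simp, by simp⟩
  | succ K ih =>
    intro D hcut
    obtain ⟨q, s, hq, hK⟩ := arb D W z K hzW hcut
    obtain ⟨p, r, hp, hpp⟩ := ih _ hK
    refine ⟨fun i => if i = K then q else p i, fun i => if i = K then s else r i, ?_, ?_⟩
    · intro i hi v hv
      by_cases h : i = K
      · simp only [h, if_true]
        exact hq v hv
      · simp only [h, if_false]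
        obtain ⟨h1, h2, h3⟩ := hp i (by omega) v hv
        exact ⟨(mem_del.1 h1).1, h2, h3⟩
    · intro i hi j hj hij v hv
      by_cases h : i = K
      · have h' : j ≠ K := fun h' => hij (h.trans h'.symm)
        simp only [h, h', if_true, if_false]
        obtain ⟨h1, _, _⟩ := hp j (by omega) v hv
        intro heq
        exact (mem_del.1 h1).2 ⟨hv, heq.symm⟩
      · by_cases h' : j = K
        · simp only [h, h', if_true, if_false]
          obtain ⟨h1, _, _⟩ := hp i (by omega) v hv
          intro heq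
          exact (mem_del.1 h1).2 ⟨hv, heq⟩
        · simp only [h, h', if_false]
          exact hpp i (by omega) j (by omega) hij v hv

/-- the path from `v` to the root along an arborescence -/
lemma arb_path (W : Finset V) (z : V) (p : V → V) (r : V → ℕ)
    (hp : ∀ v ∈ W.erase z, p v ∈ W ∧ r (p v) < r v) (n : ℕ) :
    ∀ v ∈ W, r v < n → ∃ L : List V, L.head? = some v ∧ L.getLast? = some z ∧ L.Nodup ∧
      (∀ a b : V, (a, b) ∈ L.zip L.tail → a ∈ W.erase z ∧ b = p a) ∧ ∀ x ∈ L, r x ≤ r v := by
  induction n with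
  | zero => intro v _ h; omega
  | succ n ih =>
    intro v hv hr
    by_cases hvz : v = z
    · subst hvz
      exact ⟨[v], by simp, by simp, by simp, by simp, by simp⟩
    · have hv' : v ∈ W.erase z := mem_erase.2 ⟨hvz, hv⟩
      obtain ⟨h1, h2⟩ := hp v hv'
      obtain ⟨L, hL1, hL2, hL3, hL4, hL5⟩ := ih (p v) h1 (by omega)
      cases L with
      | nil => simp at hL1
      | cons a L =>
        simp only [List.head?_cons, Option.some.injEq] at hL1
        subst hL1
        refine ⟨v :: p v :: L, by simp, ?_, ?_, ?_, ?_⟩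
        · rw [List.getLast?_cons_cons]; exact hL2
        · rw [List.nodup_cons]
          refine ⟨fun h => ?_, hL3⟩
          have := hL5 v h
          omega
        · intro a b hab
          simp only [List.tail_cons, List.zip_cons_cons, List.mem_cons, Prod.mk.injEq] at hab
          rcases hab with ⟨rfl, rfl⟩ | hab
          · exact ⟨hv', rfl⟩
          · exact hL4 a b (by simpa using hab)
        · intro x hx
          rw [List.mem_cons] at hx
          rcases hx with rfl | hx
          · exact le_rfl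
          · have := hL5 x hx
            omega

end Pool.Agent.MP_b9875a_co.H99
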