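import Pool.Agent.MP_b9875a_co.H99.Spec2

set_option autoImplicit false

namespace Pool.Agent.MP_b9875a_co.H99.LN

open Finset

section basic

variable {V α : Type} [DecidableEq V]

@[simp] lemma cnt_empty (f : α → V) (v : V) : cnt ∅ f v = 0 := by simp [cnt]

lemma cnt_le_card (T : Finset α) (f : α → V) (v : V) : cnt T f v ≤ T.card := card_filter_le _ _

lemma cnt_mono {T T' : Finset α} (h : T ⊆ T') (f : α → V) (v : V) : cnt T f v ≤ cnt T' f v :=
  card_le_card (filter_subset_filter _ h)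

lemma cnt_pos {T : Finset α} {f : α → V} {v : V} : 0 < cnt T f v ↔ ∃ a ∈ T, f a = v := by
  unfold cnt
  rw [card_pos, filter_nonempty_iff]

lemma cnt_eq_zero {T : Finset α} {f : α → V} {v : V} : cnt T f v = 0 ↔ ∀ a ∈ T, f a ≠ v := by
  unfold cnt
  rw [card_eq_zero, filter_eq_empty_iff]

lemma cnt_congr {T : Finset α} {f g : α → V} (h : ∀ a ∈ T, f a = g a) (v : V) :
    cnt T f v = cnt T g v := by
  unfold cnt
  rw [filter_congr (fun a ha => by rw [h a ha])]

lemma sum_cnt (T : Finset α) (f : α → V) (X : Finset V) :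
    ∑ v ∈ X, cnt T f v = (T.filter (fun a => f a ∈ X)).card := by
  unfold cnt
  rw [card_eq_sum_card_fiberwise (f := f) (s := T.filter (fun a => f a ∈ X)) (t := X)
    (fun a ha => (mem_filter.1 ha).2)]
  apply sum_congr rfl
  intro v hv
  rw [filter_filter]
  congr 1
  apply filter_congr
  intro a _
  constructor
  · intro h; exact ⟨h ▸ hv, h⟩
  · intro h; exact h.2

lemma exists_of_cnt_lt [DecidableEq α] {T T' : Finset α} {f : α → V} {v : V}
    (h : cnt T' f v < cnt T f v) : ∃ a ∈ T, a ∉ T' ∧ f a = v := by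
  by_contra hc
  push Not at hc
  refine absurd h (not_lt.2 (card_le_card (fun a ha => ?_)))
  rw [mem_filter] at ha ⊢
  by_contra hn
  exact hc a ha.1 (fun e => hn ⟨e, ha.2⟩) ha.2

lemma cnt_insert [DecidableEq α] {T : Finset α} {a : α} (h : a ∉ T) (f : α → V) (v : V) :
    cnt (insert a T) f v = cnt T f v + if f a = v then 1 else 0 := by
  unfold cnt
  rw [filter_insert]
  split_ifs with e
  · rw [card_insert_of_notMem (fun x => h (mem_filter.1 x).1)]
  · rfl

lemma cnt_erase [DecidableEq α] {T : Finset α} {a : α} (h : a ∈ T) (f : α → V) (v : V) :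
    cnt (T.erase a) f v + (if f a = v then 1 else 0) = cnt T f v := by
  rw [← cnt_insert (notMem_erase a T), insert_erase h]

lemma cnt_union [DecidableEq α] {T T' : Finset α} (h : Disjoint T T') (f : α → V) (v : V) :
    cnt (T ∪ T') f v = cnt T f v + cnt T' f v := by
  unfold cnt
  rw [filter_union, card_union_of_disjoint (disjoint_filter_filter h)]

lemma cnt_union_le [DecidableEq α] (T T' : Finset α) (f : α → V) (v : V) :
    cnt (T ∪ T') f v ≤ cnt T f v + cnt T' f v := by
  unfold cnt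
  rw [filter_union]
  exact card_union_le _ _

lemma cnt_sdiff [DecidableEq α] {T B : Finset α} (h : B ⊆ T) (f : α → V) (v : V) :
    cnt (T \ B) f v + cnt B f v = cnt T f v := by
  rw [← cnt_union sdiff_disjoint, sdiff_union_of_subset h]

lemma cnt_update_of_notMem [DecidableEq α] {T : Finset α} {a : α} (h : a ∉ T) (f : α → V)
    (w v : V) : cnt T (Function.update f a w) v = cnt T f v :=
  cnt_congr (fun b hb => Function.update_of_ne (fun e : b = a => h (e ▸ hb)) _ _) v

lemma cnt_update [DecidableEq α] {T : Finset α} {a : α} (h : a ∈ T) (f : α → V) (w v : V) :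
    cnt T (Function.update f a w) v + (if f a = v then 1 else 0) =
      cnt T f v + if w = v then 1 else 0 := by
  rw [← cnt_erase h (Function.update f a w), ← cnt_erase h f,
    cnt_update_of_notMem (notMem_erase a T), Function.update_self]
  omega

variable (tl hd : α → V)

lemma ex_anti (D : Finset α) (v : V) {X Y : Finset V} (h : X ⊆ Y) :
    ex tl hd D v Y ≤ ex tl hd D v X :=
  card_le_card (fun a ha => by
    rw [mem_filter] at ha ⊢
    exact ⟨ha.1, ha.2.1, fun e => ha.2.2 (h e)⟩)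

lemma ex_mono {D D' : Finset α} (h : D ⊆ D') (v : V) (X : Finset V) :
    ex tl hd D v X ≤ ex tl hd D' v X := card_le_card (filter_subset_filter _ h)

lemma ex_le_cnt (D : Finset α) (v : V) (X : Finset V) : ex tl hd D v X ≤ cnt D tl v :=
  card_le_card (fun a ha => by
    rw [mem_filter] at ha ⊢
    exact ⟨ha.1, ha.2.1⟩)

lemma ex_mod (D : Finset α) (v : V) (X Y : Finset V) :
    ex tl hd D v (X ∩ Y) + ex tl hd D v (X ∪ Y) = ex tl hd D v X + ex tl hd D v Y := by
  unfold ex
  simp only [card_filter, ← sum_add_distrib]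
  apply sum_congr rfl
  intro a _
  by_cases h0 : tl a = v <;> by_cases h1 : hd a ∈ X <;> by_cases h2 : hd a ∈ Y <;>
    simp [h0, h1, h2]

lemma ex_inter_le (D : Finset α) (v : V) (X Y : Finset V) :
    ex tl hd D v (X ∩ Y) ≤ ex tl hd D v X + ex tl hd D v Y := by
  have := ex_mod tl hd D v X Y
  omega

lemma ex_eq_zero {D : Finset α} {S : Finset V} (h : ∀ a ∈ D, hd a ∈ S) (v : V) :
    ex tl hd D v S = 0 := by
  unfold ex
  rw [card_eq_zero, filter_eq_empty_iff]
  intro a ha e
  exact e.2 (h a ha)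

lemma ex_insert [DecidableEq α] {D : Finset α} {a : α} (h : a ∉ D) (v : V) (X : Finset V) :
    ex tl hd (insert a D) v X = ex tl hd D v X + if tl a = v ∧ hd a ∉ X then 1 else 0 := by
  unfold ex
  rw [filter_insert]
  split_ifs with e
  · rw [card_insert_of_notMem (fun x => h (mem_filter.1 x).1)]
  · rfl

lemma ex_erase [DecidableEq α] {D : Finset α} {a : α} (h : a ∈ D) (v : V) (X : Finset V) :
    ex tl hd (D.erase a) v X + (if tl a = v ∧ hd a ∉ X then 1 else 0) = ex tl hd D v X := by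
  rw [← ex_insert tl hd (notMem_erase a D), insert_erase h]

lemma ex_congr {hd' : α → V} {D : Finset α} (h : ∀ a ∈ D, hd a = hd' a) (v : V) (X : Finset V) :
    ex tl hd D v X = ex tl hd' D v X := by
  unfold ex
  rw [filter_congr (fun a ha => by rw [h a ha])]

lemma mval_mono {c c' : V → ℕ} {D D' : Finset α} {X : Finset V} (hc : ∀ v ∈ X, c v ≤ c' v)
    (hD : D ⊆ D') : mval c tl hd D X ≤ mval c' tl hd D' X :=
  sum_le_sum (fun v hv => min_le_min (hc v hv) (ex_mono tl hd hD v X))

lemma mval_congr {c : V → ℕ} {hd' : α → V} {D : Finset α} (h : ∀ a ∈ D, hd a = hd' a)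
    (X : Finset V) : mval c tl hd D X = mval c tl hd' D X :=
  sum_congr rfl (fun v _ => by rw [ex_congr tl hd h])

lemma mval_eq_zero (c : V → ℕ) {D : Finset α} {S : Finset V} (h : ∀ a ∈ D, hd a ∈ S) :
    mval c tl hd D S = 0 :=
  sum_eq_zero (fun v _ => by rw [ex_eq_zero tl hd h]; simp)

lemma mval_eq (c : V → ℕ) (D : Finset α) {X T : Finset V} (h : X ⊆ T) :
    mval c tl hd D X = ∑ v ∈ T, if v ∈ X then min (c v) (ex tl hd D v X) else 0 := by
  unfold mval
  rw [← sum_filter, filter_mem_eq_inter, inter_eq_right.2 h]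

lemma mval_aux (c : V → ℕ) (D : Finset α) (X Y : Finset V) (v : V) :
    (if v ∈ X ∩ Y then min (c v) (ex tl hd D v (X ∩ Y)) else 0) +
      (if v ∈ X ∪ Y then min (c v) (ex tl hd D v (X ∪ Y)) else 0) ≤
    (if v ∈ X then min (c v) (ex tl hd D v X) else 0) +
      (if v ∈ Y then min (c v) (ex tl hd D v Y) else 0) := by
  have h1 := ex_mod tl hd D v X Y
  have h2 := ex_anti tl hd D v (subset_union_left (s₁ := X) (s₂ := Y))
  have h3 := ex_anti tl hd D v (subset_union_right (s₁ := X) (s₂ := Y))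
  by_cases a : v ∈ X <;> by_cases b : v ∈ Y <;> simp [a, b] <;> omega

lemma mval_submod (c : V → ℕ) (D : Finset α) (X Y : Finset V) :
    mval c tl hd D (X ∩ Y) + mval c tl hd D (X ∪ Y) ≤ mval c tl hd D X + mval c tl hd D Y := by
  rw [mval_eq tl hd c D (T := X ∪ Y) (inter_subset_union),
    mval_eq tl hd c D (Subset.refl (X ∪ Y)),
    mval_eq tl hd c D (T := X ∪ Y) subset_union_left,
    mval_eq tl hd c D (T := X ∪ Y) subset_union_right,
    ← sum_add_distrib, ← sum_add_distrib]
  exact sum_le_sum (fun v _ => mval_aux tl hd c D X Y v)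

lemma mval_submod_strict (c : V → ℕ) (D : Finset α) (X Y : Finset V) (v : V)
    (hX : v ∈ X) (hY : v ∈ Y) (h1 : ex tl hd D v X ≤ c v) (h2 : ex tl hd D v Y ≤ c v)
    (h3 : c v < ex tl hd D v (X ∩ Y)) :
    mval c tl hd D (X ∩ Y) + mval c tl hd D (X ∪ Y) < mval c tl hd D X + mval c tl hd D Y := by
  rw [mval_eq tl hd c D (T := X ∪ Y) (inter_subset_union),
    mval_eq tl hd c D (Subset.refl (X ∪ Y)),
    mval_eq tl hd c D (T := X ∪ Y) subset_union_left,
    mval_eq tl hd c D (T := X ∪ Y) subset_union_right,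
    ← sum_add_distrib, ← sum_add_distrib]
  refine sum_lt_sum (fun v _ => mval_aux tl hd c D X Y v) ⟨v, mem_union_left _ hX, ?_⟩
  have h4 := ex_mod tl hd D v X Y
  have h5 := ex_anti tl hd D v (subset_union_left (s₁ := X) (s₂ := Y))
  simp only [mem_inter, mem_union, hX, hY, and_self, or_self, if_true]
  omega

/-- the demand outside a set is modular -/
lemma sum_sdiff_mod (S X Y : Finset V) (f : V → ℕ) :
    ∑ v ∈ S \ (X ∩ Y), f v + ∑ v ∈ S \ (X ∪ Y), f v = ∑ v ∈ S \ X, f v + ∑ v ∈ S \ Y, f v := by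
  have h1 : S \ (X ∩ Y) = (S \ X) ∪ (S \ Y) := by
    ext a; simp only [mem_sdiff, mem_inter, mem_union]; tauto
  have h2 : S \ (X ∪ Y) = (S \ X) ∩ (S \ Y) := by
    ext a; simp only [mem_sdiff, mem_inter, mem_union]; tauto
  rw [h1, h2, sum_union_inter]

lemma sum_sdiff_split {S Z Y : Finset V} (h1 : Y ⊆ Z) (h2 : Z ⊆ S) (f : V → ℕ) :
    ∑ v ∈ S \ Y, f v = ∑ v ∈ S \ Z, f v + ∑ v ∈ Z \ Y, f v := by
  rw [← sum_union (disjoint_left.2 (fun a ha hb => (mem_sdiff.1 ha).2 (mem_sdiff.1 hb).1))]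
  congr 1
  ext a
  simp only [mem_sdiff, mem_union]
  have := @h1 a
  have := @h2 a
  tauto

variable {tl hd}

lemma Adm.mono {S : Finset V} {θ : ℕ} {dem dem' c c' : V → ℕ} {D D' : Finset α}
    (h : Adm S θ dem c tl hd D) (hd' : ∀ v ∈ S, dem' v ≤ dem v) (hc : ∀ v ∈ S, c v ≤ c' v)
    (hD : D ⊆ D') : Adm S θ dem' c' tl hd D' := fun X hX hθ =>
  (sum_le_sum (fun v hv => hd' v (mem_sdiff.1 hv).1)).trans
    ((h X hX hθ).trans (mval_mono tl hd (fun v hv => hc v (hX hv)) hD))

/-- arcs from `v` with bounded multiplicities leave small sets -/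
lemma cnt_le_ex (D : Finset α) (v : V) (X : Finset V) (M : ℕ)
    (h : ∀ y, (D.filter (fun a => tl a = v ∧ hd a = y)).card ≤ M) :
    cnt D tl v ≤ ex tl hd D v X + M * X.card := by
  classical
  have h1 : D.filter (fun a => tl a = v) ⊆ D.filter (fun a => tl a = v ∧ hd a ∉ X) ∪
      X.biUnion (fun y => D.filter (fun a => tl a = v ∧ hd a = y)) := by
    intro a ha
    rw [mem_filter] at ha
    by_cases e : hd a ∈ X
    · exact mem_union_right _ (mem_biUnion.2 ⟨_, e, mem_filter.2 ⟨ha.1, ha.2, rfl⟩⟩)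
    · exact mem_union_left _ (mem_filter.2 ⟨ha.1, ha.2, e⟩)
  have h2 := (card_le_card h1).trans (card_union_le _ _)
  have h3 := card_biUnion_le_card_mul X (fun y => D.filter (fun a => tl a = v ∧ hd a = y)) M
    (fun y _ => h y)
  unfold cnt ex
  rw [mul_comm]
  omega

omit [DecidableEq V] in
lemma rtg_mono {r p : V → V → Prop} (h : ∀ a b, r a b → p a b) {x y : V}
    (hx : Relation.ReflTransGen r x y) : Relation.ReflTransGen p x y := by
  induction hx with
  | refl => exact Relation.ReflTransGen.refl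
  | tail _ hb ih => exact ih.tail (h _ _ hb)

omit [DecidableEq V] in
lemma NR.mono {P Q : α → Prop} (h : ∀ a, P a → Q a) {x y : V} (hx : NR tl hd P x y) :
    NR tl hd Q x y :=
  rtg_mono (fun _ _ ⟨e, h1, h2⟩ => ⟨e, h e h1, h2⟩) hx

/-- a function below `f` with a prescribed sum -/
lemma exists_sum_eq (Z : Finset V) (f : V → ℕ) :
    ∀ n, n ≤ ∑ v ∈ Z, f v → ∃ g : V → ℕ, (∀ v, g v ≤ f v) ∧ ∑ v ∈ Z, g v = n := by
  induction Z using Finset.induction_on with
  | empty =>
    intro n hn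
    rw [sum_empty] at hn
    exact ⟨fun _ => 0, fun _ => Nat.zero_le _, by rw [sum_empty]; omega⟩
  | insert a Z ha ih =>
    intro n hn
    rw [sum_insert ha] at hn
    obtain ⟨g, h1, h2⟩ := ih (n - f a) (by omega)
    refine ⟨Function.update g a (min n (f a)), fun v => ?_, ?_⟩
    · by_cases e : v = a
      · subst e; simp
      · rw [Function.update_of_ne e]; exact h1 v
    · rw [sum_insert ha, Function.update_self,
        sum_congr rfl (fun v hv => Function.update_of_ne (fun e : v = a => ha (e ▸ hv)) _ _), h2]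
      omega

end basic

section state

variable {V : Type}

lemma Sim.refl (m : ℕ) (σ : St V) : Sim m σ m σ := fun _ h => h

lemma Sim.trans {m m' m'' : ℕ} {σ σ' σ'' : St V} (h : Sim m σ m' σ') (h' : Sim m' σ' m'' σ'') :
    Sim m σ m'' σ'' := fun E a => h' E (h E a)

/-- relabelling of obligations -/
lemma sim_of_rel {m m' : ℕ} {σ σ' : St V} (ρ : Ob V → Ob V)
    (h : ∀ o x y, Req m' σ' o x y →
      Relation.ReflTransGen (fun a b => ∃ o0, ρ o0 = o ∧ Req m σ o0 a b) x y) :
    Sim m σ m' σ' := by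
  rintro E ⟨own, ho⟩
  refine ⟨fun a b => ρ (own a b), fun o x y hr => ?_⟩
  have h1 := h o x y hr
  clear hr
  induction h1 with
  | refl => exact Relation.ReflTransGen.refl
  | tail _ hb ih =>
    obtain ⟨o0, e, hq⟩ := hb
    refine ih.trans (rtg_mono ?_ (ho o0 _ _ hq))
    rintro a b ⟨h1, h2⟩
    exact ⟨h1, (congrArg ρ h2).trans e⟩

/-- no relabelling: every new obligation is old or trivial -/
lemma sim_of_sub {m m' : ℕ} {σ σ' : St V}
    (h : ∀ o x y, Req m' σ' o x y → x = y ∨ Req m σ o x y) : Sim m σ m' σ' := by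
  refine sim_of_rel id (fun o x y hr => ?_)
  rcases h o x y hr with rfl | e
  · exact Relation.ReflTransGen.refl
  · exact Relation.ReflTransGen.single ⟨o, rfl, e⟩

variable [DecidableEq V]

lemma Good.need_le {k m s : ℕ} {σ : St V} (h : Good k m s σ) : σ.Need.card ≤ k := by
  have h1 : σ.Need ⊆ range m := fun i hi => mem_range.2 (by have := h.ndr i hi; omega)
  have h2 := card_le_card h1
  rw [card_range] at h2
  exact h2.trans h.mk1

lemma Fl.B_le {σ : St V} (h : Fl σ) : σ.B.card ≤ σ.Need.card :=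
  card_le_card_of_injOn Prod.fst (fun τ hτ => h.lab τ hτ) (fun τ hτ τ' hτ' e => h.inj τ hτ τ' hτ' e)

/-- alive vertices have many free arcs leaving any small set -/
lemma Good.rich {k m s : ℕ} {σ : St V} (h : Good k m s σ) (hk : 1 ≤ k) {v : V} (hv : v ∈ σ.S)
    (hc : 1 ≤ σ.c v) (X : Finset V) (hX : X.card < 2 * k + 1) :
    6801 * k < ex Prod.fst σ.hd σ.D v X := by
  have h1 := cnt_le_ex (tl := Prod.fst) (hd := σ.hd) σ.D v X 100 (fun y =>
    (card_le_card (filter_subset_filter _ subset_union_left)).trans (h.mult v y))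
  have h2 := h.i1 v hv hc
  have h3 := h.fl.cout v
  have h4 := h.acc1 v
  have h5 := h.und v hv hc
  have h6 := cnt_le_card σ.Cn σ.og v
  have h7 := h.fl.nd
  omega

/-- few dead vertices -/
lemma Good.dead_lt {k m s : ℕ} {σ : St V} (h : Good k m s σ) (hk : 1 ≤ k) :
    (σ.S.filter (fun v => σ.c v = 0)).card < 2 * k + 1 := by
  have h1 : (σ.S.filter (fun v => σ.c v = 0)).card • (100 * k) ≤
      ∑ v ∈ σ.S.filter (fun v => σ.c v = 0), σ.mu v :=
    card_nsmul_le_sum _ _ _ (fun v hv => h.dead v (mem_filter.1 hv).1 (mem_filter.1 hv).2)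
  have h2 : ∑ v ∈ σ.S.filter (fun v => σ.c v = 0), σ.mu v ≤ ∑ v ∈ σ.S, σ.mu v :=
    sum_le_sum_of_subset (filter_subset _ _)
  have h3 := h.smu
  have h4 : 102 * k * m ≤ 102 * k * k := Nat.mul_le_mul_left _ h.mk1
  rw [smul_eq_mul] at h1
  by_contra hc
  have h5 : (2 * k + 1) * (100 * k) ≤ (σ.S.filter (fun v => σ.c v = 0)).card * (100 * k) :=
    Nat.mul_le_mul_right _ (by omega)
  nlinarith

lemma Good.be_le {k m s : ℕ} {σ : St V} (h : Good k m s σ) {v : V} (hv : v ∈ σ.S)
    (hc : 1 ≤ σ.c v) : σ.be v ≤ 2000 * k :=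
  (single_le_sum (f := σ.be) (fun _ _ => Nat.zero_le _)
    (mem_filter.2 ⟨hv, hc⟩ : v ∈ σ.S.filter (fun v => 1 ≤ σ.c v))).trans h.sbe

end state

end Pool.Agent.MP_b9875a_co.H99.LN
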