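import Mathlib

set_option autoImplicit false

namespace Pool.Agent.MP_b9875a_co.H99.PL

open Finset

variable {V : Type} [DecidableEq V]

/-- capped cut value -/
def vl (c : V → ℕ) (f : V → Finset V) (X : Finset V) : ℕ := ∑ v ∈ X, min (c v) (f v \ X).card

lemma card_sd_mod (F X Y : Finset V) :
    (F \ (X ∩ Y)).card + (F \ (X ∪ Y)).card = (F \ X).card + (F \ Y).card := by
  have h1 : F \ (X ∩ Y) = (F \ X) ∪ (F \ Y) := by
    ext a; simp only [mem_sdiff, mem_inter, mem_union]; tauto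
  have h2 : F \ (X ∪ Y) = (F \ X) ∩ (F \ Y) := by
    ext a; simp only [mem_sdiff, mem_inter, mem_union]; tauto
  rw [h1, h2, card_union_add_card_inter]

lemma card_sd_anti (F : Finset V) {X Y : Finset V} (h : X ⊆ Y) :
    (F \ Y).card ≤ (F \ X).card :=
  card_le_card (sdiff_subset_sdiff (Subset.refl _) h)

lemma vl_eq (c : V → ℕ) (f : V → Finset V) {X T : Finset V} (h : X ⊆ T) :
    vl c f X = ∑ v ∈ T, if v ∈ X then min (c v) (f v \ X).card else 0 := by
  unfold vl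
  rw [← sum_filter, filter_mem_eq_inter, inter_eq_right.2 h]

lemma vl_aux (c : V → ℕ) (f : V → Finset V) (X Y : Finset V) (v : V) :
    (if v ∈ X ∩ Y then min (c v) (f v \ (X ∩ Y)).card else 0) +
      (if v ∈ X ∪ Y then min (c v) (f v \ (X ∪ Y)).card else 0) ≤
    (if v ∈ X then min (c v) (f v \ X).card else 0) +
      (if v ∈ Y then min (c v) (f v \ Y).card else 0) := by
  have h1 := card_sd_mod (f v) X Y
  have h2 := card_sd_anti (f v) (subset_union_left (s₁ := X) (s₂ := Y))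
  have h3 := card_sd_anti (f v) (subset_union_right (s₁ := X) (s₂ := Y))
  by_cases a : v ∈ X <;> by_cases b : v ∈ Y <;> simp [a, b] <;> omega

lemma vl_submod (c : V → ℕ) (f : V → Finset V) (X Y : Finset V) :
    vl c f (X ∩ Y) + vl c f (X ∪ Y) ≤ vl c f X + vl c f Y := by
  rw [vl_eq c f (T := X ∪ Y) (inter_subset_union), vl_eq c f (Subset.refl (X ∪ Y)),
    vl_eq c f (T := X ∪ Y) subset_union_left, vl_eq c f (T := X ∪ Y) subset_union_right,
    ← sum_add_distrib, ← sum_add_distrib]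
  exact sum_le_sum (fun v _ => vl_aux c f X Y v)

lemma vl_submod_strict (c : V → ℕ) (f : V → Finset V) (X Y : Finset V) (v : V)
    (hX : v ∈ X) (hY : v ∈ Y) (h1 : (f v \ X).card ≤ c v) (h2 : (f v \ Y).card ≤ c v)
    (h3 : c v < (f v \ (X ∩ Y)).card) :
    vl c f (X ∩ Y) + vl c f (X ∪ Y) < vl c f X + vl c f Y := by
  rw [vl_eq c f (T := X ∪ Y) (inter_subset_union), vl_eq c f (Subset.refl (X ∪ Y)),
    vl_eq c f (T := X ∪ Y) subset_union_left, vl_eq c f (T := X ∪ Y) subset_union_right,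
    ← sum_add_distrib, ← sum_add_distrib]
  refine sum_lt_sum (fun v _ => vl_aux c f X Y v) ⟨v, mem_union_left _ hX, ?_⟩
  have h4 := card_sd_mod (f v) X Y
  have h5 := card_sd_anti (f v) (subset_union_left (s₁ := X) (s₂ := Y))
  simp only [mem_inter, mem_union, hX, hY, and_self, or_self, if_true]
  omega

/-- swap at `v`: the head `r` is removed and the head `s` is added -/
def Sw (f f' : V → Finset V) (v r s : V) : Prop :=
  (∀ u, u ≠ v → f' u = f u) ∧ r ∈ f v ∧ s ∉ f v ∧ f' v = insert s ((f v).erase r)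

lemma Sw.card_sd {f f' : V → Finset V} {v r s : V} (h : Sw f f' v r s) (Z : Finset V) :
    (f' v \ Z).card + (if r ∈ Z then 0 else 1) = (f v \ Z).card + (if s ∈ Z then 0 else 1) := by
  obtain ⟨_, hr, hs, he⟩ := h
  have h1 : ((f v).erase r \ Z).card + (if r ∈ Z then 0 else 1) = (f v \ Z).card := by
    by_cases a : r ∈ Z
    · have : (f v).erase r \ Z = f v \ Z := by
        ext x
        simp only [mem_sdiff, mem_erase]
        constructor
        · tauto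
        · rintro ⟨p, q⟩
          exact ⟨⟨fun e => q (e ▸ a), p⟩, q⟩
      simp [a, this]
    · have : (f v).erase r \ Z = (f v \ Z).erase r := by
        ext x
        simp only [mem_sdiff, mem_erase]
        tauto
      rw [this, if_neg a, card_erase_add_one (mem_sdiff.2 ⟨hr, a⟩)]
  have h2 : (insert s ((f v).erase r) \ Z).card =
      ((f v).erase r \ Z).card + (if s ∈ Z then 0 else 1) := by
    by_cases a : s ∈ Z
    · rw [insert_sdiff_of_mem _ a, if_pos a, add_zero]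
    · rw [insert_sdiff_of_notMem _ a, if_neg a, card_insert_of_notMem]
      simp only [mem_sdiff, mem_erase]
      tauto
  rw [he, h2]
  omega

lemma Sw.card_sd_le {f f' : V → Finset V} {v r s : V} (h : Sw f f' v r s) (Z : Finset V) (u : V) :
    (f u \ Z).card ≤ (f' u \ Z).card + 1 := by
  by_cases a : u = v
  · subst a
    have := h.card_sd Z
    split_ifs at this <;> omega
  · rw [h.1 u a]; omega

lemma Sw.vl_eq' {f f' : V → Finset V} {v r s : V} (h : Sw f f' v r s) (c : V → ℕ) (Z : Finset V)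
    (hv : v ∈ Z) :
    vl c f' Z + min (c v) (f v \ Z).card = vl c f Z + min (c v) (f' v \ Z).card := by
  unfold vl
  rw [← add_sum_erase _ _ hv, ← add_sum_erase Z _ hv]
  have : ∑ x ∈ Z.erase v, min (c x) (f' x \ Z).card =
      ∑ x ∈ Z.erase v, min (c x) (f x \ Z).card := by
    apply sum_congr rfl
    intro x hx
    rw [h.1 x (ne_of_mem_erase hx)]
  rw [this]
  omega

lemma Sw.vl_not {f f' : V → Finset V} {v r s : V} (h : Sw f f' v r s) (c : V → ℕ) (Z : Finset V)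
    (hv : v ∉ Z) : vl c f' Z = vl c f Z := by
  unfold vl
  apply sum_congr rfl
  intro x hx
  rw [h.1 x (fun e => hv (e ▸ hx))]

lemma Sw.vl_le {f f' : V → Finset V} {v r s : V} (h : Sw f f' v r s) (c : V → ℕ) (Z : Finset V) :
    vl c f Z ≤ vl c f' Z + 1 := by
  by_cases hv : v ∈ Z
  · have h1 := h.vl_eq' c Z hv
    have h2 := h.card_sd Z
    split_ifs at h2 <;> omega
  · rw [h.vl_not c Z hv]; omega

lemma Sw.vl_lt {f f' : V → Finset V} {v r s : V} (h : Sw f f' v r s) (c : V → ℕ) (Z : Finset V)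
    (hlt : vl c f' Z < vl c f Z) : v ∈ Z ∧ r ∉ Z ∧ s ∈ Z ∧ (f v \ Z).card ≤ c v := by
  by_cases hv : v ∈ Z
  · have h1 := h.vl_eq' c Z hv
    have h2 := h.card_sd Z
    by_cases a : r ∈ Z <;> by_cases b : s ∈ Z <;> simp only [a, b, if_true, if_false] at h2 <;>
      first
        | (exfalso; omega)
        | exact ⟨hv, a, b, by omega⟩
  · rw [h.vl_not c Z hv] at hlt; omega

lemma Sw.vl_gt {f f' : V → Finset V} {v r s : V} (h : Sw f f' v r s) (c : V → ℕ) (Z : Finset V)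
    (hv : v ∈ Z) (hr : r ∈ Z) (hs : s ∉ Z) (hc : (f v \ Z).card < c v) :
    vl c f Z < vl c f' Z := by
  have h1 := h.vl_eq' c Z hv
  have h2 := h.card_sd Z
  simp only [hr, hs, if_true, if_false] at h2
  omega

lemma Sw.same {f f' : V → Finset V} {v r s : V} (h : Sw f f' v r s) (Z : Finset V)
    (hr : r ∈ Z) (hs : s ∈ Z) (u : V) : (f' u \ Z).card = (f u \ Z).card := by
  by_cases a : u = v
  · subst a
    have := h.card_sd Z
    simpa [hr, hs] using this
  · rw [h.1 u a]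

lemma Sw.vl_same {f f' : V → Finset V} {v r s : V} (h : Sw f f' v r s) (c : V → ℕ) (Z : Finset V)
    (hr : r ∈ Z) (hs : s ∈ Z) : vl c f' Z = vl c f Z := by
  unfold vl
  exact sum_congr rfl (fun x _ => by rw [h.same Z hr hs x])

/-- the data of one colour -/
structure Col (V : Type) where
  S : Finset V
  B : Finset V
  c : V → ℕ
  p : Finset V → ℕ
  dl : ℕ
  th : ℕ

namespace Col

variable (K : Col V)

/-- large sets -/
def Lg (X : Finset V) : Prop := X ⊆ K.S ∧ K.th ≤ (X ∩ K.B).card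

/-- all large sets are covered -/
def Adm (f : V → Finset V) : Prop := ∀ X, K.Lg X → K.p X ≤ vl K.c f X + K.dl

/-- tight sets -/
def Tt (f : V → Finset V) (X : Finset V) : Prop := K.Lg X ∧ vl K.c f X + K.dl ≤ K.p X

/-- many heads at every vertex of positive capacity -/
def Rich (f : V → Finset V) : Prop :=
  ∀ v ∈ K.S, 1 ≤ K.c v → 2 * K.c v + 1 + K.th ≤ (f v ∩ K.B).card

/-- supermodular demand -/
def Sup : Prop := ∀ X Y, X ⊆ K.S → Y ⊆ K.S → K.p X + K.p Y ≤ K.p (X ∩ Y) + K.p (X ∪ Y)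

/-- tight sets that are sensitive at `v` -/
def Sens (f : V → Finset V) (v : V) (Z : Finset V) : Prop :=
  K.Tt f Z ∧ v ∈ Z ∧ (f v \ Z).card ≤ K.c v

/-- blockers -/
def Blk (f : V → Finset V) (v : V) (P : Finset V) (h : V) (Z : Finset V) : Prop :=
  K.Sens f v Z ∧ Z ⊆ P ∧ h ∉ Z

variable {K}

lemma Lg.union {X Y : Finset V} (hX : K.Lg X) (hY : Y ⊆ K.S) : K.Lg (X ∪ Y) :=
  ⟨union_subset hX.1 hY,
    hX.2.trans (card_le_card (inter_subset_inter_right subset_union_left))⟩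

lemma lg_inter {f : V → Finset V} (hR : K.Rich f) {v : V} (hv : v ∈ K.S) (hc : 1 ≤ K.c v)
    {X Y : Finset V} (hX : X ⊆ K.S) (h : (f v \ X).card + (f v \ Y).card ≤ 2 * K.c v + 1) :
    K.Lg (X ∩ Y) := by
  refine ⟨inter_subset_left.trans hX, ?_⟩
  have h1 := hR v hv hc
  have h2 : f v ∩ K.B ⊆ (X ∩ Y ∩ K.B) ∪ ((f v \ X) ∪ (f v \ Y)) := by
    intro a ha
    simp only [mem_sdiff, mem_inter, mem_union] at ha ⊢
    tauto
  have h3 := (card_le_card h2).trans (card_union_le _ _)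
  have h4 := card_union_le (f v \ X) (f v \ Y)
  omega

lemma uncross {f : V → Finset V} (hS : K.Sup) (hA : K.Adm f) {X Y : Finset V}
    (hX : K.Tt f X) (hY : K.Tt f Y) (hL : K.Lg (X ∩ Y)) :
    K.Tt f (X ∩ Y) ∧ K.Tt f (X ∪ Y) := by
  have hU := hX.1.union hY.1.1
  have h1 := hA _ hL
  have h2 := hA _ hU
  have h3 := hS X Y hX.1.1 hY.1.1
  have h4 := vl_submod K.c f X Y
  have h5 := hX.2
  have h6 := hY.2
  exact ⟨⟨hL, by omega⟩, ⟨hU, by omega⟩⟩

lemma sens_inter {f : V → Finset V} (hS : K.Sup) (hA : K.Adm f) (hR : K.Rich f) {v : V}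
    (hc : 1 ≤ K.c v) {X Y : Finset V} (hX : K.Sens f v X) (hY : K.Sens f v Y) :
    K.Sens f v (X ∩ Y) := by
  have hL : K.Lg (X ∩ Y) := lg_inter hR (hX.1.1.1 hX.2.1) hc hX.1.1.1 (by
    have := hX.2.2; have := hY.2.2; omega)
  refine ⟨(uncross hS hA hX.1 hY.1 hL).1, mem_inter.2 ⟨hX.2.1, hY.2.1⟩, ?_⟩
  by_contra hlt
  have h0 := vl_submod_strict K.c f X Y v hX.2.1 hY.2.1 hX.2.2 hY.2.2 (by omega)
  have h1 := hA _ hL
  have h2 := hA _ (hX.1.1.union hY.1.1.1)
  have h3 := hS X Y hX.1.1.1 hY.1.1.1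
  have h5 := hX.1.2
  have h6 := hY.1.2
  omega

lemma sens_union {f : V → Finset V} (hS : K.Sup) (hA : K.Adm f) (hR : K.Rich f) {v : V}
    (hc : 1 ≤ K.c v) {X Y : Finset V} (hX : K.Sens f v X) (hY : K.Sens f v Y) :
    K.Sens f v (X ∪ Y) := by
  have hL : K.Lg (X ∩ Y) := lg_inter hR (hX.1.1.1 hX.2.1) hc hX.1.1.1 (by
    have := hX.2.2; have := hY.2.2; omega)
  exact ⟨(uncross hS hA hX.1 hY.1 hL).2, mem_union_left _ hX.2.1,
    (card_sd_anti _ subset_union_left).trans hX.2.2⟩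

lemma exists_min {f : V → Finset V} (hS : K.Sup) (hA : K.Adm f) (hR : K.Rich f) {v : V}
    (hc : 1 ≤ K.c v) {Z0 : Finset V} (h0 : K.Sens f v Z0) :
    ∃ R, K.Sens f v R ∧ ∀ Z, K.Sens f v Z → R ⊆ Z := by
  classical
  obtain ⟨R, hR1, hR2⟩ := exists_min_image (K.S.powerset.filter (fun Z => K.Sens f v Z)) card
    ⟨Z0, mem_filter.2 ⟨mem_powerset.2 h0.1.1.1, h0⟩⟩
  have hRs := (mem_filter.1 hR1).2
  refine ⟨R, hRs, fun Z hZ => ?_⟩
  have hI := sens_inter hS hA hR hc hRs hZ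
  have h1 := hR2 _ (mem_filter.2 ⟨mem_powerset.2 hI.1.1.1, hI⟩)
  have h2 : R ∩ Z = R := eq_of_subset_of_card_le inter_subset_left h1
  exact inter_eq_left.1 h2

lemma exists_max {f : V → Finset V} (hS : K.Sup) (hA : K.Adm f) (hR : K.Rich f) {v : V}
    (hc : 1 ≤ K.c v) {P : Finset V} {h : V} {Z0 : Finset V} (h0 : K.Blk f v P h Z0) :
    ∃ U, K.Blk f v P h U ∧ ∀ Z, K.Blk f v P h Z → Z ⊆ U := by
  classical
  obtain ⟨R, hR1, hR2⟩ := exists_max_image (K.S.powerset.filter (fun Z => K.Blk f v P h Z)) card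
    ⟨Z0, mem_filter.2 ⟨mem_powerset.2 h0.1.1.1.1, h0⟩⟩
  have hRs := (mem_filter.1 hR1).2
  refine ⟨R, hRs, fun Z hZ => ?_⟩
  have hI : K.Blk f v P h (R ∪ Z) :=
    ⟨sens_union hS hA hR hc hRs.1 hZ.1, union_subset hRs.2.1 hZ.2.1,
      fun a => (mem_union.1 a).elim hRs.2.2 hZ.2.2⟩
  have h1 := hR2 _ (mem_filter.2 ⟨mem_powerset.2 hI.1.1.1.1, hI⟩)
  have h2 : R = R ∪ Z := eq_of_subset_of_card_le subset_union_left h1
  exact union_eq_left.1 h2.symm

lemma adm_step {f f' : V → Finset V} {v r s : V} (hA : K.Adm f) (h : Sw f f' v r s)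
    (hb : ∀ Z, K.Sens f v Z → r ∈ Z ∨ s ∉ Z) : K.Adm f' := by
  intro X hX
  by_contra hlt
  have h1 := hA X hX
  have h2 := h.vl_le K.c X
  obtain ⟨a, b, c, d⟩ := h.vl_lt K.c X (by omega)
  rcases hb X ⟨⟨hX, by omega⟩, a, d⟩ with e | e
  · exact b e
  · exact e c

lemma tt_same {f f' : V → Finset V} {v r s : V} (h : Sw f f' v r s) {Z : Finset V}
    (hr : r ∈ Z) (hs : s ∈ Z) : K.Tt f' Z ↔ K.Tt f Z := by
  unfold Tt
  rw [h.vl_same K.c Z hr hs]

/-- a freeing step creates no new tight set -/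
lemma tt_before {f f' : V → Finset V} {v r s : V} (hS : K.Sup) (hA : K.Adm f) (hR : K.Rich f)
    (h : Sw f f' v r s) {C Z : Finset V} (hC : K.Tt f C) (hv : v ∈ C)
    (hsoft : (f v \ C).card < K.c v) (hr : ∀ Z, K.Sens f v Z → r ∈ Z)
    (hZ : K.Tt f' Z) (hU : s ∈ Z → ¬ K.Tt f (Z ∪ C)) : K.Tt f Z := by
  by_contra hn
  have h0 : ¬ vl K.c f Z + K.dl ≤ K.p Z := fun a => hn ⟨hZ.1, a⟩
  have h1 := hZ.2
  have h2 := h.vl_le K.c Z
  obtain ⟨a, b, c, d⟩ := h.vl_lt K.c Z (by omega)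
  have hL : K.Lg (Z ∩ C) := lg_inter hR (hC.1.1 hv) (by omega) hZ.1.1 (by omega)
  have hU1 := hZ.1.union hC.1.1
  have h3 : ¬ vl K.c f (Z ∪ C) + K.dl ≤ K.p (Z ∪ C) := fun e => hU c ⟨hU1, e⟩
  have h4 := hA _ hL
  have h5 := hS Z C hZ.1.1 hC.1.1
  have h6 := vl_submod K.c f Z C
  have h7 := hC.2
  have h8 : (f v \ (Z ∩ C)).card ≤ K.c v := by
    by_contra hlt
    have := vl_submod_strict K.c f Z C v a hv d (by omega) (by omega)
    omega
  exact b (mem_inter.1 (hr _ ⟨⟨hL, by omega⟩, mem_inter.2 ⟨a, hv⟩, h8⟩)).1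

/-- an inner step keeps the largest blocker -/
lemma blk_inner {f f' : V → Finset V} {v r s : V} (hS : K.Sup) (hA : K.Adm f') (hR : K.Rich f')
    (h : Sw f f' v r s) {v0 hd : V} (hc : 1 ≤ K.c v0) {P C : Finset V} (hr : r ∈ C) (hs : s ∈ C)
    (hC : K.Blk f v0 P hd C) (hmax : ∀ Z, K.Blk f v0 P hd Z → Z ⊆ C) :
    K.Blk f' v0 P hd C ∧ ∀ Z, K.Blk f' v0 P hd Z → Z ⊆ C := by
  have hC' : K.Blk f' v0 P hd C :=
    ⟨⟨(tt_same h hr hs).2 hC.1.1, hC.1.2.1, by rw [h.same C hr hs]; exact hC.1.2.2⟩, hC.2⟩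
  refine ⟨hC', fun Z hZ => ?_⟩
  have h1 := sens_union hS hA hR hc hZ.1 hC'.1
  have h2 : K.Blk f v0 P hd (Z ∪ C) :=
    ⟨⟨(tt_same h (mem_union_right _ hr) (mem_union_right _ hs)).1 h1.1, h1.2.1,
      (card_sd_anti _ subset_union_right).trans hC.1.2.2⟩, union_subset hZ.2.1 hC.2.1,
      fun a => (mem_union.1 a).elim hZ.2.2 hC.2.2⟩
  exact subset_union_left.trans (hmax _ h2)

/-- a freeing step shrinks the largest blocker -/
lemma blk_free {f f' : V → Finset V} {v r s : V} (hS : K.Sup) (hA : K.Adm f) (hR : K.Rich f)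
    (h : Sw f f' v r s) {v0 hd : V} (hc : 1 ≤ K.c v0) {P C : Finset V} (hv : v ∈ C)
    (hsoft : (f v \ C).card < K.c v) (hrC : r ∈ C) (hs : s ∉ C)
    (hr : ∀ Z, K.Sens f v Z → r ∈ Z)
    (hC : K.Blk f v0 P hd C) (hmax : ∀ Z, K.Blk f v0 P hd Z → Z ⊆ C) :
    ∀ Z, K.Blk f' v0 P hd Z → Z.card < C.card := by
  intro Z hZ
  have key : K.Tt f (Z ∪ C) → Z ⊆ C := fun e =>
    subset_union_left.trans (hmax _ ⟨⟨e, mem_union_right _ hC.1.2.1,
      (card_sd_anti _ subset_union_right).trans hC.1.2.2⟩, union_subset hZ.2.1 hC.2.1,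
      fun a => (mem_union.1 a).elim hZ.2.2 hC.2.2⟩)
  have hZt : K.Tt f Z := tt_before hS hA hR h hC.1.1 hv hsoft hr hZ.1.1
    (fun a e => hs (key e a))
  have hL : K.Lg (Z ∩ C) := lg_inter hR (hC.1.1.1.1 hC.1.2.1) hc hZt.1.1 (by
    have h1 := h.card_sd_le Z v0
    have h2 := hZ.1.2.2
    have h3 := hC.1.2.2
    omega)
  have hsub := key (uncross hS hA hZt hC.1.1 hL).2
  refine card_lt_card ⟨hsub, fun e => ?_⟩
  have hE : Z = C := Subset.antisymm hsub e
  have h1 := h.vl_gt K.c C hv hrC hs hsoft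
  have h2 := hA C hC.1.1.1
  have h3 := hZ.1.1.2
  rw [hE] at h3
  omega

/-- an inner step creates new tight sets only inside `O` -/
lemma tt_inner {f f' : V → Finset V} {v r s : V} (hS : K.Sup) (hA : K.Adm f') (hR : K.Rich f')
    (h : Sw f f' v r s) {O : Finset V} (hv : v ∈ O) (hsoft : (f v \ O).card < K.c v)
    (hr : r ∈ O) (hs : s ∈ O) (hO : K.Tt f O) (hmax : ∀ Z, K.Tt f Z → O ⊆ Z → Z ⊆ O)
    {Z : Finset V} (hZ : K.Tt f' Z) : K.Tt f Z ∨ Z ⊆ O := by
  by_cases hn : K.Tt f Z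
  · exact Or.inl hn
  right
  have h0 : ¬ vl K.c f Z + K.dl ≤ K.p Z := fun a => hn ⟨hZ.1, a⟩
  have h1 := hZ.2
  obtain ⟨a, b, c, d⟩ := h.vl_lt K.c Z (by omega)
  have h2 := h.card_sd Z
  simp only [b, c, if_true, if_false] at h2
  have h3 := h.same O hr hs v
  have hL : K.Lg (Z ∩ O) := lg_inter hR (hO.1.1 hv) (by omega) hZ.1.1 (by omega)
  have h4 := (uncross hS hA hZ ((tt_same h hr hs).2 hO) hL).2
  exact subset_union_left.trans (hmax _
    ((tt_same h (mem_union_right _ hr) (mem_union_right _ hs)).1 h4) subset_union_right)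

end Col

end Pool.Agent.MP_b9875a_co.H99.PL
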