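import Pool.Agent.MP_b9875a_co.H99.Arb

set_option autoImplicit false

namespace Pool.Agent.MP_b9875a_co.H99

open Finset

variable {V : Type} [DecidableEq V]

/-- number of arcs of `D` from `v` into `R` -/
def outd (D : Finset (V × V)) (R : Finset V) (v : V) : ℕ :=
  (D.filter (fun e => e.1 = v ∧ e.2 ∈ R)).card

/-- total deficiency of `R` with respect to the target out-degree `d` -/
def defi (D : Finset (V × V)) (d : ℕ) (R : Finset V) : ℕ := ∑ v ∈ R, (d - outd D R v)

lemma cut_eq_sum (D : Finset (V × V)) (W Q : Finset V) :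
    cut D W Q = ∑ v ∈ Q, (D.filter (fun e => e.1 = v ∧ e.2 ∈ W ∧ e.2 ∉ Q)).card := by
  unfold cut
  rw [card_eq_sum_card_fiberwise (f := Prod.fst) (s := cutSet D W Q) (t := Q)]
  · apply sum_congr rfl
    intro v hv
    congr 1
    ext e
    simp only [mem_filter, mem_cutSet]
    constructor
    · rintro ⟨⟨h1, _, h3, h4⟩, h5⟩
      exact ⟨h1, h5, h3, h4⟩
    · rintro ⟨h1, h2, h3, h4⟩
      exact ⟨⟨h1, h2 ▸ hv, h3, h4⟩, h2⟩
  · intro e he
    exact (mem_cutSet.1 (mem_coe.1 he)).2.1

lemma defi_le (D : Finset (V × V)) (d : ℕ) (W Q : Finset V) :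
    defi D d Q ≤ ∑ v ∈ Q, (d - outd D W v) + cut D W Q := by
  rw [cut_eq_sum, ← sum_add_distrib]
  apply sum_le_sum
  intro v _
  have : outd D W v ≤ outd D Q v +
      (D.filter (fun e => e.1 = v ∧ e.2 ∈ W ∧ e.2 ∉ Q)).card := by
    unfold outd
    refine le_trans (card_le_card ?_) (card_union_le _ _)
    intro e he
    simp only [mem_filter, mem_union] at he ⊢
    by_cases h : e.2 ∈ Q
    · exact Or.inl ⟨he.1, he.2.1, h⟩
    · exact Or.inr ⟨he.1, he.2.1, he.2.2, h⟩
  omega

/-- The cover lemma. -/
lemma cover (D : Finset (V × V)) (d τ K : ℕ) (W : Finset V) (hW : W.Nonempty)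
    (hτ : 2 * K ≤ τ) (hdef : defi D d W < τ)
    (hmin : ∀ Q : Finset V, Q ⊆ W → Q ≠ W → Q.Nonempty → τ ≤ defi D d Q) :
    ∃ z ∈ W, ∀ R : Finset V, R ⊆ W.erase z → R.Nonempty → K ≤ cut D W R := by
  classical
  by_contra hcon
  push Not at hcon
  choose! R hR1 hR2 hR3 using hcon
  have hex : (W.powerset.filter (fun Z => ∀ v ∈ W, ∃ z ∈ Z, v ∉ R z)).Nonempty := by
    refine ⟨W, ?_⟩
    simp only [mem_filter, mem_powerset]
    refine ⟨subset_rfl, fun v hv => ⟨v, hv, fun h => ?_⟩⟩
    have := hR1 v hv h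
    simp at this
  obtain ⟨Z, hZ, hZmin⟩ := exists_min_image _ Finset.card hex
  simp only [mem_filter, mem_powerset] at hZ hZmin
  obtain ⟨hZW, hcov⟩ := hZ
  -- private parts
  set Q : V → Finset V := fun z => W.filter (fun v => v ∉ R z ∧ ∀ y ∈ Z, y ≠ z → v ∈ R y)
    with hQ
  have hQmem : ∀ z v, v ∈ Q z ↔ v ∈ W ∧ v ∉ R z ∧ ∀ y ∈ Z, y ≠ z → v ∈ R y := by
    intro z v
    simp [hQ]
  have hQne : ∀ z ∈ Z, (Q z).Nonempty := by
    intro z hz
    by_contra hemp
    have hc : ∀ v ∈ W, ∃ y ∈ Z.erase z, v ∉ R y := by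
      intro v hv
      by_contra hno
      push Not at hno
      obtain ⟨y, hy, hvy⟩ := hcov v hv
      by_cases hyz : y = z
      · subst hyz
        apply hemp
        refine ⟨v, (hQmem y v).2 ⟨hv, hvy, fun x hx hxy => hno x (mem_erase.2 ⟨hxy, hx⟩)⟩⟩
      · exact hvy (hno y (mem_erase.2 ⟨hyz, hy⟩))
    have := hZmin (Z.erase z) ⟨(erase_subset _ _).trans hZW, hc⟩
    have h2 := card_erase_lt_of_mem hz
    omega
  have hQτ : ∀ z ∈ Z, τ ≤ defi D d (Q z) := by
    intro z hz
    apply hmin _ (filter_subset _ _) _ (hQne z hz)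
    intro heq
    obtain ⟨v, hv⟩ := hR2 z (hZW hz)
    have hvW : v ∈ W := (mem_erase.1 (hR1 z (hZW hz) hv)).2
    rw [← heq] at hvW
    exact ((hQmem z v).1 hvW).2.1 hv
  have hdisj : ∀ z ∈ Z, ∀ y ∈ Z, z ≠ y → Disjoint (Q z) (Q y) := by
    intro z hz y hy hzy
    rw [disjoint_left]
    intro v h1 h2
    exact ((hQmem z v).1 h1).2.1 (((hQmem y v).1 h2).2.2 z hz hzy)
  have hm : 2 ≤ Z.card := by
    by_contra hlt
    obtain ⟨v, hv⟩ := hW
    obtain ⟨z, hz, _⟩ := hcov v hv
    obtain ⟨x, hx⟩ := hR2 z (hZW hz)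
    have hxW : x ∈ W := (mem_erase.1 (hR1 z (hZW hz) hx)).2
    obtain ⟨y, hy, hxy⟩ := hcov x hxW
    have : y = z := by
      by_contra hne
      have : ({y, z} : Finset V) ⊆ Z := by
        intro t ht
        simp only [mem_insert, mem_singleton] at ht
        rcases ht with rfl | rfl <;> assumption
      have h2 := card_le_card this
      rw [card_pair hne] at h2
      omega
    subst this
    exact hxy hx
  have h1 : ∑ z ∈ Z, ∑ v ∈ Q z, (d - outd D W v) ≤ defi D d W := by
    rw [← sum_biUnion (fun z hz y hy hzy => hdisj z hz y hy hzy)]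
    apply sum_le_sum_of_subset
    intro v hv
    obtain ⟨z, _, hz⟩ := mem_biUnion.1 hv
    exact ((hQmem z v).1 hz).1
  have h2 : ∑ z ∈ Z, cut D W (Q z) ≤ ∑ z ∈ Z, cut D W (R z) := by
    unfold cut
    rw [← card_biUnion]
    · refine le_trans (card_le_card ?_) card_biUnion_le
      intro e he
      obtain ⟨z, hz, hez⟩ := mem_biUnion.1 he
      rw [mem_cutSet] at hez
      obtain ⟨heD, he1, he2, he3⟩ := hez
      have : ∃ y ∈ Z, y ≠ z ∧ e.2 ∉ R y := by
        by_contra hno
        push Not at hno
        obtain ⟨y, hy, hy2⟩ := hcov _ he2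
        by_cases hyz : y = z
        · subst hyz
          exact he3 ((hQmem y _).2 ⟨he2, hy2, hno⟩)
        · exact hy2 (hno y hy hyz)
      obtain ⟨y, hy, hyz, hy2⟩ := this
      exact mem_biUnion.2 ⟨y, hy, mem_cutSet.2 ⟨heD, ((hQmem z _).1 he1).2.2 y hy hyz, he2, hy2⟩⟩
    · intro z hz y hy hzy
      rw [Function.onFun, disjoint_left]
      intro e h1 h2
      exact disjoint_left.1 (hdisj z hz y hy hzy) (mem_cutSet.1 h1).2.1 (mem_cutSet.1 h2).2.1
  have h3 : ∑ z ∈ Z, (cut D W (R z) + 1) ≤ ∑ _z ∈ Z, K :=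
    sum_le_sum (fun z hz => hR3 z (hZW hz))
  have h4 : ∑ _z ∈ Z, τ ≤ ∑ z ∈ Z, (∑ v ∈ Q z, (d - outd D W v) + cut D W (Q z)) :=
    sum_le_sum (fun z hz => (hQτ z hz).trans (defi_le D d W (Q z)))
  rw [sum_add_distrib] at h3 h4
  simp only [sum_const, smul_eq_mul, mul_one] at h3 h4
  obtain ⟨m, hm'⟩ : ∃ m, Z.card = m + 2 := ⟨Z.card - 2, by omega⟩
  rw [hm'] at h3 h4
  have h5 : (m + 1) * (2 * K) ≤ (m + 1) * τ := Nat.mul_le_mul_left _ hτ
  nlinarith

/-- triangular numbers -/
def tri : ℕ → ℕ
  | 0 => 0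
  | j + 1 => tri j + j + 1

lemma two_tri (j : ℕ) : 2 * tri j = j * (j + 1) := by
  induction j with
  | zero => rfl
  | succ j ih => simp only [tri]; nlinarith

lemma main_ind (τ : ℕ) (j : ℕ) : ∀ (D : Finset (V × V)) (W : Finset V) (d : ℕ),
    (∀ v, (v, v) ∉ D) → W.Nonempty → 2 * j ≤ τ → τ + tri j ≤ d → defi D d W < τ →
    ∃ (f : ℕ → V) (P : ℕ → ℕ → List V), (∀ i < j, f i ∈ W) ∧
      (∀ i < j, ∀ i' < j, f i = f i' → i = i') ∧
      (∀ i i', i < i' → i' < j → (P i i').head? = some (f i) ∧ (P i i').getLast? = some (f i') ∧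
        (P i i').Nodup ∧ ∀ a b : V, (a, b) ∈ (P i i').zip (P i i').tail → (a, b) ∈ D) ∧
      (∀ i i' l l', i < i' → i' < j → l < l' → l' < j → (i, i') ≠ (l, l') →
        ∀ a b : V, (a, b) ∈ (P i i').zip (P i i').tail → (a, b) ∉ (P l l').zip (P l l').tail) := by
  induction j with
  | zero =>
    intro D W d _ hW _ _ _
    obtain ⟨v, _⟩ := hW
    exact ⟨fun _ => v, fun _ _ => [], by simp, by simp, by simp, by simp⟩
  | succ j ih =>
    intro D W d hloop hW hτ hd hdef
    classical
    have hex : (W.powerset.filter (fun Q => Q.Nonempty ∧ defi D d Q < τ)).Nonempty :=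
      ⟨W, by simp only [mem_filter, mem_powerset]; exact ⟨subset_rfl, hW, hdef⟩⟩
    obtain ⟨U, hU, hUmin⟩ := exists_min_image _ Finset.card hex
    simp only [mem_filter, mem_powerset] at hU hUmin
    obtain ⟨hUW, hUne, hUdef⟩ := hU
    obtain ⟨z, hzU, hcut⟩ := cover D d τ j U hUne (by omega) hUdef (by
      intro Q hQ hQne hQn
      by_contra hlt
      have := hUmin Q ⟨hQ.trans hUW, hQn, by omega⟩
      have h2 : Q.card < U.card := card_lt_card ⟨hQ, fun h => hQne (Subset.antisymm hQ h)⟩
      omega)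
    obtain ⟨p, r, hp, hpp⟩ := arbs U z hzU j D hcut
    simp only [tri] at hd
    have hne : (U.erase z).Nonempty := by
      by_contra hemp
      rw [not_nonempty_iff_eq_empty] at hemp
      have hUz : U = {z} := by
        rw [← insert_erase hzU, hemp]
        rfl
      have h0 : outd D U z = 0 := by
        unfold outd
        rw [card_eq_zero, filter_eq_empty_iff]
        rintro e he ⟨h1, h2⟩
        rw [hUz, mem_singleton] at h2
        apply hloop z
        have : e = (z, z) := Prod.ext h1 h2
        exact this ▸ he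
      have : defi D d U = d := by
        unfold defi
        conv_lhs => rw [hUz, sum_singleton, ← hUz, h0]
        rfl
      omega
    set D' : Finset (V × V) := D.filter (fun e => ¬ ∃ i < j, e.2 = p i e.1) with hD'
    have hdef' : defi D' (d - (j + 1)) (U.erase z) < τ := by
      refine lt_of_le_of_lt ?_ hUdef
      unfold defi
      refine le_trans (sum_le_sum ?_) (sum_le_sum_of_subset (erase_subset z U))
      intro v _
      have : outd D U v ≤ outd D' (U.erase z) v + (j + 1) := by
        unfold outd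
        have hsub : D.filter (fun e => e.1 = v ∧ e.2 ∈ U) ⊆
            D'.filter (fun e => e.1 = v ∧ e.2 ∈ U.erase z) ∪
              insert (v, z) ((range j).image (fun i => (v, p i v))) := by
          intro e he
          simp only [mem_filter] at he
          obtain ⟨he1, he2, he3⟩ := he
          simp only [hD', mem_union, mem_filter, mem_insert, mem_image, mem_range, mem_erase]
          by_cases h1 : e.2 = z
          · exact Or.inr (Or.inl (Prod.ext he2 h1))
          · by_cases h2 : ∃ i < j, e.2 = p i e.1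
            · obtain ⟨i, hi, h2⟩ := h2
              exact Or.inr (Or.inr ⟨i, hi, Prod.ext he2.symm (by rw [h2, he2])⟩)
            · exact Or.inl ⟨⟨he1, h2⟩, he2, h1, he3⟩
        refine (card_le_card hsub).trans ((card_union_le _ _).trans ?_)
        apply Nat.add_le_add_left
        refine (card_insert_le _ _).trans (Nat.add_le_add_right ?_ 1)
        exact card_image_le.trans (by simp)
      omega
    obtain ⟨f, P, hf, hinj, hP, hPP⟩ := ih D' (U.erase z) (d - (j + 1))
      (fun v h => hloop v (mem_filter.1 h).1) hne (by omega) (by omega) hdef'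
    have hL : ∀ i, i < j → ∃ L : List V, L.head? = some (f i) ∧ L.getLast? = some z ∧ L.Nodup ∧
        ∀ a b : V, (a, b) ∈ L.zip L.tail → a ∈ U.erase z ∧ b = p i a := by
      intro i hi
      obtain ⟨L, h1, h2, h3, h4, _⟩ := arb_path U z (p i) (r i)
        (fun v hv => (hp i hi v hv).2) (r i (f i) + 1) (f i) (mem_erase.1 (hf i hi)).2
        (Nat.lt_succ_self _)
      exact ⟨L, h1, h2, h3, h4⟩
    choose! L hL1 hL2 hL3 hL4 using hL
    refine ⟨fun i => if i = j then z else f i, fun i i' => if i' = j then L i else P i i',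
      ?_, ?_, ?_, ?_⟩
    · intro i hi
      by_cases h : i = j
      · simp only [h, if_true]; exact hUW hzU
      · simp only [h, if_false]; exact hUW (mem_erase.1 (hf i (by omega))).2
    · intro i hi i' hi' heq
      by_cases h : i = j
      · by_cases h' : i' = j
        · omega
        · simp only [h, h', if_true, if_false] at heq
          exact absurd heq.symm (mem_erase.1 (hf i' (by omega))).1
      · by_cases h' : i' = j
        · simp only [h, h', if_true, if_false] at heq
          exact absurd heq (mem_erase.1 (hf i (by omega))).1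
        · simp only [h, h', if_false] at heq
          exact hinj i (by omega) i' (by omega) heq
    · intro i i' hii hi'
      have h : i ≠ j := by omega
      by_cases h' : i' = j
      · simp only [h, h', if_true, if_false]
        have hi : i < j := by omega
        refine ⟨hL1 i hi, hL2 i hi, hL3 i hi, fun a b hab => ?_⟩
        obtain ⟨h1, h2⟩ := hL4 i hi a b hab
        rw [h2]
        exact (hp i hi a h1).1
      · simp only [h, h', if_false]
        obtain ⟨h1, h2, h3, h4⟩ := hP i i' hii (by omega)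
        exact ⟨h1, h2, h3, fun a b hab => (mem_filter.1 (h4 a b hab)).1⟩
    · intro i i' l l' hii hi' hll hl' hne' a b hab
      by_cases h' : i' = j
      · have hi : i < j := by omega
        by_cases h'' : l' = j
        · simp only [h', h'', if_true] at hab ⊢
          have hl : l < j := by omega
          intro hab'
          obtain ⟨h1, h2⟩ := hL4 i hi a b hab
          obtain ⟨_, h3⟩ := hL4 l hl a b hab'
          refine hpp i hi l hl ?_ a h1 (h2.symm.trans h3)
          rintro rfl
          exact hne' (by rw [h', h''])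
        · simp only [h', h'', if_true, if_false] at hab ⊢
          intro hab'
          obtain ⟨_, h2⟩ := hL4 i hi a b hab
          have := (hP l l' hll (by omega)).2.2.2 a b hab'
          exact (mem_filter.1 this).2 ⟨i, hi, h2⟩
      · by_cases h'' : l' = j
        · simp only [h', h'', if_true, if_false] at hab ⊢
          have hl : l < j := by omega
          intro hab'
          obtain ⟨_, h2⟩ := hL4 l hl a b hab'
          have := (hP i i' hii (by omega)).2.2.2 a b hab
          exact (mem_filter.1 this).2 ⟨l, hl, h2⟩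
        · simp only [h', h'', if_false] at hab ⊢
          exact hPP i i' l l' hii (by omega) hll (by omega) hne' a b hab

end Pool.Agent.MP_b9875a_co.H99
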