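import Pool.Agent.MP_b9875a_co.H99.Base2

set_option autoImplicit false

namespace Pool.Agent.MP_b9875a_co.H99.LN

open Finset

variable {V : Type} [DecidableEq V]

/-- the state after the end of a fan -/
def finSt (σ τ : St V) : St V :=
  { τ with
    c := fun v => σ.c v - σ.acc v
    mu := fun v => σ.mu v + cnt σ.Cn σ.og v
    u := fun v => σ.u v + cnt σ.Cn σ.og v }

theorem fin (helim : ElimStmt) : FinStmt := by
  intro V _ _ k m s σ hk hs h hUn
  have hnd := h.fl.nd
  have hnb := h.fl.nb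
  have hBl := h.fl.B_le
  rw [hUn, h.ar, card_empty] at hnd
  rw [h.ar, card_empty] at hnb
  have hdg : σ.dg = none := by
    cases e : σ.dg with
    | none => rfl
    | some x => rw [e] at hnb; simp only [dgn] at hnb; omega
  obtain ⟨τ, r, r2, du, hf, hsim, he⟩ := helim V m σ ∅ ∅ (Subset.refl _) h.fl
    (fun x y e => by rw [hdg] at e; cases e)
  have tH : τ.H = ∅ := eq_empty_of_forall_notMem (fun a ha => notMem_empty _ (he.Hin a ha).1)
  have tB : τ.B = ∅ := eq_empty_of_forall_notMem (fun a ha => notMem_empty _ (he.Bin a ha))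
  have tC : τ.Cn = ∅ := eq_empty_of_forall_notMem (fun a ha => notMem_empty _ (he.Cin a ha))
  have tU : τ.Un = ∅ := he.eUn.trans hUn
  have tN : τ.Need = ∅ := by
    have := hf.nd
    rw [tU, tC, he.ar] at this
    exact card_eq_zero.1 this
  have tdg : τ.dg = none := by
    cases e : τ.dg with
    | none => rfl
    | some x => exact absurd (he.dgin x.1 x.2 e).1 (notMem_empty _)
  have tacc : ∀ v, τ.acc v = 0 := fun v => by
    have := hf.cout v
    rw [tH, cnt_empty] at this
    omega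
  have tT : τ.T = σ.T \ σ.B := by rw [← he.fr, tB, sdiff_empty]
  have thd : ∀ a ∈ σ.D, τ.hd a = σ.hd a := fun a ha =>
    he.hdD a (disjoint_left.1 h.fl.dj ha)
  have tbs : ∀ t ∈ σ.T \ σ.B, τ.bs t = σ.bs t := fun t ht => he.bsf t (mem_sdiff.1 ht).2
  have hNk := h.need_le
  have hCn : ∀ v, cnt σ.Cn σ.og v ≤ σ.Need.card := fun v => by
    have := cnt_le_card σ.Cn σ.og v
    omega
  refine ⟨finSt σ τ, ?_, ?_, tN, tH⟩
  · refine
      { fl := ⟨hf.dj, hf.BT, hf.lab, hf.inj, hf.d1, hf.d2, hf.d3, hf.nd, hf.nb, hf.cin, hf.cout⟩,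
        ar := he.ar, arcD := ?_, arcH := ?_, bsS := ?_, ogU := ?_, ogC := ?_,
        dgS := ?_, acc1 := ?_, acc2 := ?_, cg := ?_, i1 := ?_, i2 := ?_,
        dead := ?_, tmu := ?_, umu := ?_, und := ?_, smu := ?_, sbe := ?_, mult := ?_,
        tok := ?_, tlab := ?_, ndr := ?_, adm := ?_, big := ?_, zmu := ?_, zinj := ?_,
        mk1 := h.mk1, sk := hs }
    · show ∀ a ∈ τ.D, a.1 ∈ τ.S ∧ τ.hd a ∈ τ.S
      rw [he.eD, he.eS]
      intro a ha
      rw [thd a ha]
      exact h.arcD a ha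
    · show ∀ a ∈ τ.H, _
      rw [tH]; simp
    · show ∀ t ∈ τ.T, τ.bs t ∈ τ.S
      rw [tT, he.eS]
      intro t ht
      rw [tbs t ht]
      exact h.bsS t (mem_sdiff.1 ht).1
    · show ∀ a ∈ τ.Un, _
      rw [tU]; simp
    · show ∀ a ∈ τ.Cn, _
      rw [tC]; simp
    · show ∀ x y, τ.dg = some (x, y) → _
      rw [tdg]; simp
    · intro v
      show τ.acc v ≤ _
      rw [tacc]; omega
    · intro v
      show τ.acc v ≤ _
      rw [tacc]; omega
    · intro v
      have := h.cg v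
      show σ.c v - σ.acc v ≤ _
      omega
    · show ∀ v ∈ τ.S, 1 ≤ σ.c v - σ.acc v → σ.c v - σ.acc v + 7300 * k ≤
        cnt τ.D Prod.fst v + cnt τ.H Prod.fst v + (σ.u v + cnt σ.Cn σ.og v)
      rw [he.eS, he.eD]
      intro v hv hc
      have h1 := h.i1 v hv (by omega)
      have h2 := h.fl.cout v
      omega
    · show ∀ v ∈ τ.S, 1 ≤ σ.c v - σ.acc v → 3400 * k ≤ σ.c v - σ.acc v +
        (σ.mu v + cnt σ.Cn σ.og v) + τ.be v + (s + 100)
      rw [he.eS, he.ebe]
      intro v hv hc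
      have h1 := h.i2 v hv (by omega)
      have h2 := h.acc1 v
      omega
    · show ∀ v ∈ τ.S, σ.c v - σ.acc v = 0 → 100 * k ≤ σ.mu v + cnt σ.Cn σ.og v
      rw [he.eS]
      intro v hv hc
      by_cases e : σ.c v = 0
      · have := h.dead v hv e
        omega
      · have h1 := h.i2 v hv (by omega)
        have h2 := h.acc1 v
        have h3 := h.be_le hv (by omega)
        omega
    · show ∀ v ∈ τ.S, cnt τ.T τ.bs v ≤ σ.mu v + cnt σ.Cn σ.og v
      rw [he.eS, tT]
      intro v hv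
      have h1 := h.tmu v hv
      have h2 := cnt_mono (sdiff_subset (s := σ.T) (t := σ.B)) σ.bs v
      rw [cnt_congr tbs]
      omega
    · show ∀ v ∈ τ.S, σ.u v + cnt σ.Cn σ.og v ≤ σ.mu v + cnt σ.Cn σ.og v
      rw [he.eS]
      intro v hv
      have := h.umu v hv
      omega
    · show ∀ v ∈ τ.S, 1 ≤ σ.c v - σ.acc v → σ.u v + cnt σ.Cn σ.og v + τ.Need.card ≤ _
      rw [he.eS, tN, card_empty]
      intro v hv hc
      have h1 := h.und v hv (by omega)
      have h2 := hCn v
      omega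
    · show ∑ v ∈ τ.S, (σ.mu v + cnt σ.Cn σ.og v) + τ.Un.card + τ.Need.card ≤ _
      rw [he.eS, tN, tU, card_empty, sum_add_distrib, sum_cnt]
      have h1 := h.smu
      have h2 := card_filter_le σ.Cn (fun a => σ.og a ∈ σ.S)
      omega
    · show ∑ v ∈ τ.S.filter (fun v => 1 ≤ σ.c v - σ.acc v), τ.be v ≤ _
      rw [he.eS, he.ebe]
      refine le_trans (sum_le_sum_of_subset (fun v hv => ?_)) h.sbe
      rw [mem_filter] at hv ⊢
      exact ⟨hv.1, by omega⟩
    · show ∀ x y, ((τ.D ∪ τ.H).filter (fun a => a.1 = x ∧ τ.hd a = y)).card ≤ 100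
      rw [tH, he.eD, union_empty]
      intro x y
      refine le_trans (card_le_card (fun a ha => ?_)) (h.mult x y)
      rw [mem_filter] at ha ⊢
      exact ⟨mem_union_left _ ha.1, ha.2.1, (thd a ha.1).symm.trans ha.2.2⟩
    · show ∀ i < m, 100 * k + (if i ∈ τ.Need then 1 else 0) ≤ cnt τ.T Prod.fst i + m
      intro i hi
      have h1 := h.tok i hi
      have h2 := he.tk i
      omega
    · exact fun t ht => h.tlab t (he.Ts ht)
    · show ∀ i ∈ τ.Need, _
      rw [tN]; simp
    · intro X hX hc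
      have hX' : X ⊆ σ.S := he.eS ▸ hX
      have h1 := h.adm X hX' hc
      have e1 : ∀ v, dem (finSt σ τ) v = dem σ v := fun v => by
        show cnt (τ.T \ τ.B) τ.bs v + dga τ.dg v = cnt (σ.T \ σ.B) σ.bs v + dga σ.dg v
        rw [he.fr, cnt_congr tbs, he.dga]
      have e2 : cap (finSt σ τ) = cap σ := funext (fun v => by
        show σ.c v - σ.acc v - τ.acc v = σ.c v - σ.acc v
        rw [tacc]; rfl)
      show ∑ v ∈ τ.S \ X, dem (finSt σ τ) v ≤ mval (cap (finSt σ τ)) Prod.fst τ.hd τ.D X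
      rw [sum_congr rfl (fun v _ => e1 v), e2, he.eS, he.eD, mval_congr Prod.fst τ.hd thd]
      exact h1
    · show _ ≤ τ.S.card
      rw [he.eS]; exact h.big
    · show ∀ i < m, τ.z i ∈ τ.S → 100 * k ≤ σ.mu (τ.z i) + _
      rw [he.ez, he.eS]
      intro i hi hz
      have := h.zmu i hi hz
      omega
    · show ∀ i < m, ∀ j < m, τ.z i = τ.z j → i = j
      rw [he.ez]; exact h.zinj
  · refine hsim.trans (sim_of_sub (fun o x y hr => Or.inr ?_))
    cases o <;> exact hr

end Pool.Agent.MP_b9875a_co.H99.LN
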