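import Pool.Agent.MP_b9875a_co.H99.Menger

set_option autoImplicit false

namespace Pool.Agent.MP_b9875a_co.H99

open Finset

variable {V : Type} [DecidableEq V]

/-- number of arcs from `v` to `W \ R` -/
def ex (D : Finset (V × V)) (W : Finset V) (v : V) (R : Finset V) : ℕ :=
  (D.filter (fun e => e.1 = v ∧ e.2 ∈ W ∧ e.2 ∉ R)).card

lemma cut_eq_sum_ex (D : Finset (V × V)) (W R : Finset V) :
    cut D W R = ∑ v ∈ R, ex D W v R := cut_eq_sum D W R

lemma ex_mod (D : Finset (V × V)) (W : Finset V) (v : V) (R R' : Finset V) :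
    ex D W v (R ∩ R') + ex D W v (R ∪ R') = ex D W v R + ex D W v R' := by
  unfold ex
  simp only [card_filter, ← sum_add_distrib]
  apply sum_congr rfl
  intro e _
  by_cases h1 : e.1 = v <;> by_cases h3 : e.2 ∈ R <;>
    by_cases h4 : e.2 ∈ R' <;> by_cases h5 : e.2 ∈ W <;> simp [h1, h3, h4, h5]

lemma ex_anti (D : Finset (V × V)) (W : Finset V) (v : V) {R R' : Finset V} (h : R ⊆ R') :
    ex D W v R' ≤ ex D W v R := by
  unfold ex
  apply card_le_card
  intro e he
  simp only [mem_filter] at he ⊢
  exact ⟨he.1, he.2.1, he.2.2.1, fun h' => he.2.2.2 (h h')⟩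

lemma ex_mono {D D' : Finset (V × V)} (h : D ⊆ D') (W : Finset V) (v : V) (R : Finset V) :
    ex D W v R ≤ ex D' W v R := by
  unfold ex
  exact card_le_card (filter_subset_filter _ h)

lemma ex_le_add (D : Finset (V × V)) (W : Finset V) (v : V) (R R' : Finset V) :
    ex D W v R ≤ ex D W v R' + (R' \ R).card := by
  unfold ex
  have : D.filter (fun e => e.1 = v ∧ e.2 ∈ W ∧ e.2 ∉ R) ⊆
      D.filter (fun e => e.1 = v ∧ e.2 ∈ W ∧ e.2 ∉ R') ∪ (R' \ R).image (fun w => (v, w)) := by
    intro e he
    simp only [mem_filter, mem_union, mem_image, mem_sdiff] at he ⊢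
    by_cases h : e.2 ∈ R'
    · exact Or.inr ⟨e.2, ⟨h, he.2.2.2⟩, Prod.ext he.2.1.symm rfl⟩
    · exact Or.inl ⟨he.1, he.2.1, he.2.2.1, h⟩
  exact (card_le_card this).trans ((card_union_le _ _).trans
    (Nat.add_le_add_left card_image_le _))

lemma outd_eq_ex (D : Finset (V × V)) (W : Finset V) (v : V) : outd D W v = ex D W v ∅ := by
  simp [outd, ex]

/-- contribution of one vertex to the capped cut -/
def cap (D : Finset (V × V)) (W I : Finset V) (m : ℕ) (R : Finset V) (v : V) : ℕ :=
  if v ∈ I then min m (ex D W v R) else ex D W v R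

/-- capped cut: vertices of `I` contribute at most `m` -/
def val (D : Finset (V × V)) (W I : Finset V) (m : ℕ) (R : Finset V) : ℕ :=
  ∑ v ∈ R, cap D W I m R v

lemma val_eq (D : Finset (V × V)) (W I : Finset V) (m : ℕ) {R T : Finset V} (h : R ⊆ T) :
    val D W I m R = ∑ v ∈ T, if v ∈ R then cap D W I m R v else 0 := by
  unfold val
  rw [← sum_filter]
  congr 1
  ext v
  simp only [mem_filter]
  exact ⟨fun hv => ⟨h hv, hv⟩, fun hv => hv.2⟩

lemma val_submod_aux (D : Finset (V × V)) (W I : Finset V) (m : ℕ) (R R' : Finset V) (v : V) :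
    ((if v ∈ R ∩ R' then cap D W I m (R ∩ R') v else 0) +
      (if v ∈ R ∪ R' then cap D W I m (R ∪ R') v else 0)) ≤
    ((if v ∈ R then cap D W I m R v else 0) + (if v ∈ R' then cap D W I m R' v else 0)) := by
  have h1 := ex_mod D W v R R'
  have h2 : ex D W v (R ∪ R') ≤ ex D W v R := ex_anti D W v subset_union_left
  have h3 : ex D W v (R ∪ R') ≤ ex D W v R' := ex_anti D W v subset_union_right
  unfold cap
  by_cases a : v ∈ R <;> by_cases b : v ∈ R' <;> by_cases c : v ∈ I <;>
    simp only [mem_inter, mem_union, a, b, c, if_true, if_false, and_self, or_self, and_true,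
      and_false, or_true, true_or, false_and, true_and] <;> omega

lemma val_submod (D : Finset (V × V)) (W I : Finset V) (m : ℕ) (R R' : Finset V) :
    val D W I m (R ∩ R') + val D W I m (R ∪ R') ≤ val D W I m R + val D W I m R' := by
  rw [val_eq D W I m (T := R ∪ R') (inter_subset_left.trans subset_union_left),
    val_eq D W I m (T := R ∪ R') subset_rfl, val_eq D W I m (T := R ∪ R') subset_union_left,
    val_eq D W I m (T := R ∪ R') subset_union_right, ← sum_add_distrib, ← sum_add_distrib]
  exact sum_le_sum (fun v _ => val_submod_aux D W I m R R' v)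

lemma val_submod_strict (D : Finset (V × V)) (W I : Finset V) (m : ℕ) (R R' : Finset V) (v : V)
    (hI : v ∈ I) (hR : v ∈ R) (hR' : v ∈ R') (h1 : ex D W v R ≤ m) (h2 : ex D W v R' ≤ m)
    (h3 : m < ex D W v (R ∩ R')) :
    val D W I m (R ∩ R') + val D W I m (R ∪ R') < val D W I m R + val D W I m R' := by
  rw [val_eq D W I m (T := R ∪ R') (inter_subset_left.trans subset_union_left),
    val_eq D W I m (T := R ∪ R') subset_rfl, val_eq D W I m (T := R ∪ R') subset_union_left,
    val_eq D W I m (T := R ∪ R') subset_union_right, ← sum_add_distrib, ← sum_add_distrib]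
  apply sum_lt_sum (fun v _ => val_submod_aux D W I m R R' v)
  refine ⟨v, mem_union_left _ hR, ?_⟩
  have h4 := ex_mod D W v R R'
  unfold cap
  simp only [mem_inter, mem_union, hI, hR, hR', if_true, and_self, or_self]
  omega

lemma val_anti (D : Finset (V × V)) (W : Finset V) {I I' : Finset V} (h : I' ⊆ I) (m : ℕ)
    (R : Finset V) : val D W I m R ≤ val D W I' m R := by
  apply sum_le_sum
  intro v _
  unfold cap
  by_cases a : v ∈ I'
  · simp [a, h a]
  · by_cases b : v ∈ I <;> simp [a, b]

lemma val_le_cut (D : Finset (V × V)) (W I : Finset V) (m : ℕ) (R : Finset V) :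
    val D W I m R ≤ cut D W R := by
  rw [cut_eq_sum_ex]
  apply sum_le_sum
  intro v _
  unfold cap
  by_cases a : v ∈ I <;> simp [a]

lemma focus_aux (D : Finset (V × V)) (W : Finset V) (z : V) (k m : ℕ) (hm : 1 ≤ m)
    (hkm : k ≤ m * m)
    (hcut : ∀ R : Finset V, R ⊆ W.erase z → R.Nonempty → k ≤ cut D W R) (n : ℕ) :
    ∀ (I S : Finset V), I.card = n → I ⊆ S → S ⊆ W.erase z →
      (∀ T : Finset V, T ⊆ W.erase z → val D W (W.erase z) m (S ∩ T) ≤ val D W I m T) →
      (∀ v ∈ S, ex D W v S ≤ m → v ∈ I) →
      (S.filter (fun v => m < ex D W v S)).card < m →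
      (S.filter (fun v => ex D W v S ≤ m)).Nonempty →
      ∃ J : Finset V, J ⊆ W.erase z ∧ J.Nonempty ∧ (∀ v ∈ J, ex D W v J ≤ 2 * m) ∧
        ∀ R : Finset V, R ⊆ W.erase z → m ≤ (R ∩ J).card → k ≤ val D W J m R := by
  induction n using Nat.strong_induction_on with
  | _ n ih =>
    intro I S hn hIS hSW hQ hint hhub hne
    by_cases hobs : ∃ T : Finset V, T ⊆ W.erase z ∧ m ≤ (T ∩ I).card ∧ val D W I m T < k
    · obtain ⟨T0, hT0W, hT0I, hT0⟩ := hobs
      have hex : ((W.erase z).powerset.filter (fun T => m ≤ (T ∩ I).card)).Nonempty :=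
        ⟨T0, by simp only [mem_filter, mem_powerset]; exact ⟨hT0W, hT0I⟩⟩
      obtain ⟨T, hT, hTmin⟩ := exists_min_image _ (val D W I m) hex
      simp only [mem_filter, mem_powerset] at hT hTmin
      obtain ⟨hTW, hTI⟩ := hT
      have hTk : val D W I m T < k := (hTmin T0 ⟨hT0W, hT0I⟩).trans_lt hT0
      have hSTk : val D W (W.erase z) m (S ∩ T) < k := (hQ T hTW).trans_lt hTk
      have hhub' : ((S ∩ T).filter (fun v => m < ex D W v (S ∩ T))).card < m := by
        have h1 : ∑ v ∈ (S ∩ T).filter (fun v => m < ex D W v (S ∩ T)), m ≤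
            val D W (W.erase z) m (S ∩ T) := by
          unfold val
          refine le_trans (sum_le_sum ?_) (sum_le_sum_of_subset (filter_subset _ _))
          intro v hv
          rw [mem_filter] at hv
          have : v ∈ W.erase z := hSW (mem_inter.1 hv.1).1
          unfold cap
          simp only [this, if_true]
          omega
        rw [sum_const, smul_eq_mul] at h1
        by_contra hcon
        have : m * m ≤ ((S ∩ T).filter (fun v => m < ex D W v (S ∩ T))).card * m :=
          Nat.mul_le_mul_right _ (by omega)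
        omega
      refine ih ((I ∩ T).filter (fun v => ex D W v T ≤ m)).card ?_ _ (S ∩ T) rfl ?_
        (inter_subset_left.trans hSW) ?_ ?_ hhub' ?_
      · rw [← hn]
        apply card_lt_card
        refine ⟨(filter_subset _ _).trans inter_subset_left, fun h => ?_⟩
        have hTne : T.Nonempty := by
          have : (T ∩ I).Nonempty := card_pos.1 (by omega)
          exact this.mono inter_subset_left
        have h1 := hcut T hTW hTne
        have h2 : cut D W T ≤ val D W I m T := by
          rw [cut_eq_sum_ex]
          apply sum_le_sum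
          intro v _
          unfold cap
          by_cases a : v ∈ I
          · have := (mem_filter.1 (h a)).2
            simp only [a, if_true]
            omega
          · simp [a]
        omega
      · intro v hv
        have := mem_inter.1 (mem_filter.1 hv).1
        exact mem_inter.2 ⟨hIS this.1, this.2⟩
      · intro T' hT'
        have h1 := hQ (T ∩ T') (inter_subset_left.trans hTW)
        have h2 := val_submod D W I m T T'
        have h3 := hTmin (T ∪ T') ⟨union_subset hTW hT', hTI.trans (card_le_card
          (inter_subset_inter subset_union_left subset_rfl))⟩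
        have h4 := val_anti D W (I := I) (I' := (I ∩ T).filter (fun v => ex D W v T ≤ m))
          ((filter_subset _ _).trans inter_subset_left) m T'
        rw [inter_assoc]
        omega
      · intro v hv hvm
        have h1 := ex_anti D W v (inter_subset_left : S ∩ T ⊆ S)
        have h2 := ex_anti D W v (inter_subset_right : S ∩ T ⊆ T)
        rw [mem_inter] at hv
        exact mem_filter.2 ⟨mem_inter.2 ⟨hint v hv.1 (by omega), hv.2⟩, by omega⟩
      · rw [← card_pos]
        have h1 := card_filter_add_card_filter_not (s := S ∩ T)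
          (fun v => ex D W v (S ∩ T) ≤ m)
        simp only [not_le] at h1
        have h2 : (T ∩ I).card ≤ (S ∩ T).card := card_le_card (by
          intro v hv
          rw [mem_inter] at hv ⊢
          exact ⟨hIS hv.2, hv.1⟩)
        omega
    · push Not at hobs
      have hJI : S.filter (fun v => ex D W v S ≤ m) ⊆ I := by
        intro v hv
        rw [mem_filter] at hv
        exact hint v hv.1 hv.2
      refine ⟨S.filter (fun v => ex D W v S ≤ m), (filter_subset _ _).trans hSW, hne, ?_, ?_⟩
      · intro v hv
        have h1 := ex_le_add D W v (S.filter (fun v => ex D W v S ≤ m)) S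
        have h2 : S \ S.filter (fun v => ex D W v S ≤ m) =
            S.filter (fun v => m < ex D W v S) := by
          ext x
          simp only [mem_sdiff, mem_filter, not_and, not_le]
          exact ⟨fun h => ⟨h.1, h.2 h.1⟩, fun h => ⟨h.1, fun _ => h.2⟩⟩
        rw [h2] at h1
        have := (mem_filter.1 hv).2
        omega
      · intro R hR hRJ
        exact (hobs R hR (hRJ.trans (card_le_card (inter_subset_inter subset_rfl hJI)))).trans
          (val_anti D W hJI m R)

/-- The focusing lemma. -/
lemma focus (D : Finset (V × V)) (W : Finset V) (z : V) (k m : ℕ) (hm : 1 ≤ m)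
    (hkm : k ≤ m * m) (hne : (W.erase z).Nonempty)
    (hcut : ∀ R : Finset V, R ⊆ W.erase z → R.Nonempty → k ≤ cut D W R) :
    ∃ J : Finset V, J ⊆ W.erase z ∧ J.Nonempty ∧ (∀ v ∈ J, ex D W v J ≤ 2 * m) ∧
      ∀ R : Finset V, R ⊆ W.erase z → m ≤ (R ∩ J).card → k ≤ val D W J m R := by
  have h1 : ∀ v, ex D W v (W.erase z) ≤ 1 := by
    intro v
    have h := ex_le_add D W v (W.erase z) W
    have h0 : ex D W v W = 0 := by
      unfold ex
      rw [card_eq_zero, filter_eq_empty_iff]
      rintro e _ ⟨_, h2, h3⟩
      exact h3 h2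
    have h2 : (W \ W.erase z).card ≤ 1 := by
      refine le_trans (card_le_card ?_) (card_singleton z).le
      intro x hx
      simp only [mem_sdiff, mem_erase, not_and] at hx
      rw [mem_singleton]
      by_contra hxz
      exact hx.2 hxz hx.1
    omega
  refine focus_aux D W z k m hm hkm hcut _ (W.erase z) (W.erase z) rfl subset_rfl subset_rfl
    ?_ (fun v hv _ => hv) ?_ ?_
  · intro T hT
    rw [inter_eq_right.2 hT]
  · rw [filter_eq_empty_iff.2, card_empty]
    · omega
    · intro v _
      have := h1 v
      omega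
  · rw [filter_true_of_mem]
    · exact hne
    · intro v _
      exact (h1 v).trans hm

end Pool.Agent.MP_b9875a_co.H99
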