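import Pool.Agent.MP_b9875a_co.H99.Col

set_option autoImplicit false

namespace Pool.Agent.MP_b9875a_co.H99.PL

open Finset

variable {V : Type} [DecidableEq V]

lemma Sw.keep {f f' : V → Finset V} {v r s : V} (h : Sw f f' v r s) {u x : V} (hx : x ∈ f u)
    (hr : x ≠ r) : x ∈ f' u := by
  by_cases a : u = v
  · subst a
    rw [h.2.2.2]
    exact mem_insert_of_mem (mem_erase.2 ⟨hr, hx⟩)
  · rw [h.1 u a]; exact hx

/-- data of the reservation lemma -/
structure Dat (V : Type) where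
  S : Finset V
  out : V → Finset V
  c : V → ℕ
  p0 : Finset V → ℕ
  p1 : Finset V → ℕ
  g : ℕ
  r : ℕ
  m : ℕ
  t0 : ℕ
  t1 : ℕ

namespace Dat

variable (D : Dat V)

/-- alive vertices -/
def A : Finset V := D.S.filter (fun v => 1 ≤ D.c v)

/-- reserved degree -/
def Dp : ℕ := 3 * D.m + D.t1 + 2

/-- the free colour -/
def K0 : Col V := ⟨D.S, D.S, D.c, D.p0, 0, D.t0⟩

/-- the reserved colour -/
def K1 (dl : ℕ) : Col V := ⟨D.S, D.A, fun v => if v ∈ D.A then D.m else 0, D.p1, dl, D.t1⟩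

/-- the free heads -/
def fr (η : V → Finset V) : V → Finset V := fun v => D.out v \ η v

/-- hypotheses of the reservation lemma -/
structure Hyp : Prop where
  out_sub : ∀ v, D.out v ⊆ D.S
  c_le : ∀ v ∈ D.S, D.c v ≤ D.g
  g_le : D.g ≤ D.r * D.m
  r_pos : 1 ≤ D.r
  m_pos : 1 ≤ D.m
  sup0 : D.K0.Sup
  sup1 : (D.K1 0).Sup
  anti0 : ∀ X Y, X ⊆ Y → Y ⊆ D.S → D.p0 Y ≤ D.p0 X
  anti1 : ∀ X Y, X ⊆ Y → Y ⊆ D.S → D.p1 Y ≤ D.p1 X
  tot : ∀ X, X ⊆ D.S → D.t0 ≤ X.card → D.p0 X + D.r * D.p1 X ≤ vl D.c D.out X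
  rich : ∀ v ∈ D.A, D.Dp + 2 * D.g + D.t0 + 1 ≤ (D.out v ∩ D.A).card
  p1_le : ∀ X, D.p1 X ≤ D.t1 * D.m

/-- the invariant -/
structure Inv (dl : ℕ) (η : V → Finset V) : Prop where
  sub : ∀ v, η v ⊆ D.out v
  le : ∀ v, (η v).card ≤ D.Dp
  ge : ∀ v ∈ D.A, D.Dp ≤ (η v).card
  dead : ∀ v, (η v \ D.A).card ≤ D.m + 1
  adm0 : D.K0.Adm (D.fr η)
  adm1 : (D.K1 dl).Adm η

/-- one swap -/
structure St (dl : ℕ) (O E : Finset V) (η η' : V → Finset V) (v y w : V) : Prop where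
  vO : v ∈ O
  vE : v ∈ E
  soft1 : (η v \ O).card < (D.K1 dl).c v
  soft0 : (D.fr η v \ E).card < D.K0.c v
  sw1 : Sw η η' v w y
  sw0 : Sw (D.fr η) (D.fr η') v y w
  yE : y ∈ E
  wO : w ∈ O
  y0 : ∀ Z, D.K0.Sens (D.fr η) v Z → y ∈ Z
  w1 : y ∈ O ∨ ∀ Z, (D.K1 dl).Sens η v Z → w ∈ Z
  inv : D.Inv dl η'

/-- inner swaps followed by one freeing swap -/
inductive Free (dl : ℕ) (O E : Finset V) : (V → Finset V) → (V → Finset V) → Prop
  | fin {η η' : V → Finset V} {v y w : V} :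
      D.St dl O E η η' v y w → (y ∉ O ∨ w ∉ E) → Free dl O E η η'
  | step {η η1 η' : V → Finset V} {v y w : V} :
      D.St dl O E η η1 v y w → y ∈ O → w ∈ E → Free dl O E η1 η' → Free dl O E η η'

variable {D}

omit [DecidableEq V] in
lemma mem_A {v : V} : v ∈ D.A ↔ v ∈ D.S ∧ 1 ≤ D.c v := mem_filter

lemma A_of_c1 {dl : ℕ} {v : V} (h : 1 ≤ (D.K1 dl).c v) : v ∈ D.A := by
  by_contra a
  simp [K1, a] at h

lemma c1_of_A {dl : ℕ} {v : V} (h : v ∈ D.A) : (D.K1 dl).c v = D.m := by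
  simp [K1, h]

lemma fr_card (H : D.Hyp) {η : V → Finset V} (hle : ∀ v, (η v).card ≤ D.Dp) {v : V}
    (hv : v ∈ D.A) : 2 * D.g + D.t0 + 1 ≤ (D.fr η v ∩ D.A).card := by
  have h1 := H.rich v hv
  have h2 : D.out v ∩ D.A ⊆ (D.fr η v ∩ D.A) ∪ η v := by
    intro a ha
    simp only [fr, mem_sdiff, mem_inter, mem_union] at ha ⊢
    tauto
  have h3 := (card_le_card h2).trans (card_union_le _ _)
  have h4 := hle v
  omega

lemma rich0' (H : D.Hyp) {η : V → Finset V} (hle : ∀ v, (η v).card ≤ D.Dp) :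
    D.K0.Rich (D.fr η) := by
  intro v hv hc
  have h1 := fr_card H hle (mem_A.2 ⟨hv, hc⟩)
  have h2 : D.fr η v ∩ D.A ⊆ D.fr η v ∩ D.K0.B :=
    inter_subset_inter_left (filter_subset _ _)
  have h3 := card_le_card h2
  have h4 := H.c_le v hv
  show 2 * D.c v + 1 + D.t0 ≤ _
  omega

lemma Inv.rich0 (H : D.Hyp) {dl : ℕ} {η : V → Finset V} (I : D.Inv dl η) :
    D.K0.Rich (D.fr η) := rich0' H I.le

lemma Inv.rich1 {dl : ℕ} {η : V → Finset V} (I : D.Inv dl η) : (D.K1 dl).Rich η := by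
  intro v _ hc
  have hA := A_of_c1 hc
  rw [c1_of_A hA]
  have h1 := I.ge v hA
  have h2 := I.dead v
  have h3 := card_sdiff_add_card_inter (η v) D.A
  show 2 * D.m + 1 + D.t1 ≤ (η v ∩ D.A).card
  unfold Dp at h1
  omega

lemma exists_sw {dl : ℕ} {η : V → Finset V} (I : D.Inv dl η) {v y w : V} (hy : y ∈ D.fr η v)
    (hw : w ∈ η v) (hd : w ∉ D.A ∨ y ∈ D.A ∨ (η v \ D.A).card ≤ D.m)
    (h0 : ∀ Z, D.K0.Sens (D.fr η) v Z → y ∈ Z)
    (h1 : ∀ Z, (D.K1 dl).Sens η v Z → w ∈ Z ∨ y ∉ Z) :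
    ∃ η', Sw η η' v w y ∧ Sw (D.fr η) (D.fr η') v y w ∧ D.Inv dl η' := by
  have hy' := mem_sdiff.1 hy
  set η' := Function.update η v (insert y ((η v).erase w)) with hη
  have e1 : η' v = insert y ((η v).erase w) := by simp [hη]
  have e2 : ∀ u, u ≠ v → η' u = η u := fun u hu => by simp [hη, hu]
  have s1 : Sw η η' v w y := ⟨e2, hw, hy'.2, e1⟩
  have s0 : Sw (D.fr η) (D.fr η') v y w := by
    refine ⟨fun u hu => by simp only [fr, e2 u hu], hy, fun a => (mem_sdiff.1 a).2 hw, ?_⟩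
    ext a
    have := I.sub v hw
    simp only [fr, e1, mem_sdiff, mem_insert, mem_erase]
    constructor
    · rintro ⟨p, q⟩
      by_cases b : a = w
      · exact Or.inl b
      · exact Or.inr ⟨fun e => q (Or.inl e), p, fun e => q (Or.inr ⟨b, e⟩)⟩
    · rintro (p | ⟨p, q, t⟩)
      · subst p
        refine ⟨this, ?_⟩
        rintro (e | e)
        · exact hy'.2 (e ▸ hw)
        · exact e.1 rfl
      · exact ⟨q, fun e => e.elim p (fun e => t e.2)⟩
  have hcard : ∀ u, (η' u).card = (η u).card := fun u => by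
    by_cases a : u = v
    · have := s1.card_sd ∅
      simpa [a] using this
    · rw [e2 u a]
  refine ⟨η', s1, s0, ⟨fun u => ?_, fun u => hcard u ▸ I.le u, fun u hu => hcard u ▸ I.ge u hu,
    fun u => ?_, Col.adm_step I.adm0 s0 (fun Z hZ => Or.inl (h0 Z hZ)),
    Col.adm_step I.adm1 s1 h1⟩⟩
  · by_cases a : u = v
    · rw [a, e1]
      exact insert_subset hy'.1 ((erase_subset _ _).trans (I.sub v))
    · rw [e2 u a]; exact I.sub u
  · by_cases a : u = v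
    · have h2 := s1.card_sd D.A
      have h3 := I.dead v
      rw [a]
      by_cases b : w ∈ D.A <;> by_cases c : y ∈ D.A <;>
        simp only [b, c, if_true, if_false, not_true, not_false_iff, true_or, or_true,
          false_or] at h2 hd <;> omega
    · rw [e2 u a]; exact I.dead u

/-- a swap that reserves a head outside `O` -/
lemma stepA (H : D.Hyp) {dl : ℕ} {η : V → Finset V} (I : D.Inv dl η) {O E : Finset V}
    (hO : (D.K1 dl).Tt η O) {v y : V} (vO : v ∈ O) (vE : v ∈ E)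
    (soft1 : (η v \ O).card < (D.K1 dl).c v) (soft0 : (D.fr η v \ E).card < D.K0.c v)
    (hy : y ∈ D.fr η v) (yE : y ∈ E) (yO : y ∉ O)
    (h0 : ∀ Z, D.K0.Sens (D.fr η) v Z → y ∈ Z) : ∃ η', D.Free dl O E η η' := by
  have hOs : (D.K1 dl).Sens η v O := ⟨hO, vO, soft1.le⟩
  obtain ⟨R, hR, hmin⟩ := Col.exists_min (K := D.K1 dl) H.sup1 I.adm1 I.rich1 (by omega) hOs
  have hA := A_of_c1 (D := D) (dl := dl) (v := v) (by omega)
  have hRc := hR.2.2
  rw [c1_of_A hA] at hRc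
  obtain ⟨w, hw, hwR, hd⟩ : ∃ w ∈ η v, w ∈ R ∧ (w ∉ D.A ∨ (η v \ D.A).card ≤ D.m) := by
    by_cases a : (η v \ D.A).card ≤ D.m
    · have h1 := I.ge v hA
      unfold Dp at h1
      obtain ⟨w, h2, h3⟩ := exists_mem_notMem_of_card_lt_card (s := η v \ R) (t := η v) (by omega)
      exact ⟨w, h2, by_contra fun b => h3 (mem_sdiff.2 ⟨h2, b⟩), Or.inr a⟩
    · obtain ⟨w, h2, h3⟩ := exists_mem_notMem_of_card_lt_card (s := η v \ R) (t := η v \ D.A)
        (by omega)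
      have h4 := mem_sdiff.1 h2
      exact ⟨w, h4.1, by_contra fun b => h3 (mem_sdiff.2 ⟨h4.1, b⟩), Or.inl h4.2⟩
  obtain ⟨η', s1, s0, I'⟩ := exists_sw I hy hw (by tauto) h0
    (fun Z hZ => Or.inl (hmin Z hZ hwR))
  exact ⟨η', Free.fin ⟨vO, vE, soft1, soft0, s1, s0, yE, hmin O hOs hwR, h0,
    Or.inr (fun Z hZ => hmin Z hZ hwR), I'⟩ (Or.inl yO)⟩

lemma count (H : D.Hyp) {dl : ℕ} (hdl : 1 ≤ dl) {η : V → Finset V}
    {O E : Finset V} (hO : (D.K1 dl).Tt η O) (hE : D.K0.Tt (D.fr η) E)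
    (hL : D.t0 ≤ (O ∩ E).card) :
    ∃ v, v ∈ O ∧ v ∈ E ∧ (η v \ O).card < (D.K1 dl).c v ∧ (D.fr η v \ E).card < D.K0.c v ∧
      ((∃ y ∈ D.fr η v, y ∈ E ∧ y ∉ O) ∨ ∃ w ∈ η v, w ∈ O ∧ w ∉ E) := by
  by_contra hn
  have hOS : O ⊆ D.S := hO.1.1
  have hES : E ⊆ D.S := hE.1.1
  have h1 := H.tot (O ∩ E) (inter_subset_left.trans hOS) hL
  have h2 := H.anti0 (O ∩ E) E inter_subset_right hES
  have h3 := H.anti1 (O ∩ E) O inter_subset_left hOS
  have h4 : vl (D.K1 dl).c η O + dl ≤ D.p1 O := hO.2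
  have h5 : vl D.c (D.fr η) E + 0 ≤ D.p0 E := hE.2
  have h6 : vl D.c D.out (O ∩ E) ≤ ∑ v ∈ O ∩ E, (min (D.c v) (D.fr η v \ E).card +
      D.r * min ((D.K1 dl).c v) (η v \ O).card) := by
    apply sum_le_sum
    intro v hv
    obtain ⟨vO, vE⟩ := mem_inter.1 hv
    by_cases a : (D.fr η v \ E).card < D.c v
    · have hA : v ∈ D.A := mem_A.2 ⟨hOS vO, by omega⟩
      by_cases b : (η v \ O).card < (D.K1 dl).c v
      · have hsub : D.out v \ (O ∩ E) ⊆ (D.fr η v \ E) ∪ (η v \ O) := by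
          intro x hx
          have hx' := mem_sdiff.1 hx
          by_cases e : x ∈ η v
          · refine mem_union_right _ (mem_sdiff.2 ⟨e, fun xO => hn ⟨v, vO, vE, b, a, Or.inr
              ⟨x, e, xO, fun xE => hx'.2 (mem_inter.2 ⟨xO, xE⟩)⟩⟩⟩)
          · have e' : x ∈ D.fr η v := mem_sdiff.2 ⟨hx'.1, e⟩
            refine mem_union_left _ (mem_sdiff.2 ⟨e', fun xE => hn ⟨v, vO, vE, b, a, Or.inl
              ⟨x, e', xE, fun xO => hx'.2 (mem_inter.2 ⟨xO, xE⟩)⟩⟩⟩)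
        have h7 := (card_le_card hsub).trans (card_union_le _ _)
        have h8 : min ((D.K1 dl).c v) (η v \ O).card ≤
            D.r * min ((D.K1 dl).c v) (η v \ O).card := Nat.le_mul_of_pos_left _ H.r_pos
        omega
      · have h7 : min ((D.K1 dl).c v) (η v \ O).card = D.m := by
          rw [c1_of_A hA] at b ⊢
          omega
        rw [h7]
        have := H.c_le v (hOS vO)
        have := H.g_le
        omega
    · omega
  rw [sum_add_distrib, ← mul_sum] at h6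
  have h7 : ∑ v ∈ O ∩ E, min (D.c v) (D.fr η v \ E).card ≤ vl D.c (D.fr η) E :=
    sum_le_sum_of_subset inter_subset_right
  have h8 : ∑ v ∈ O ∩ E, min ((D.K1 dl).c v) (η v \ O).card ≤ vl (D.K1 dl).c η O :=
    sum_le_sum_of_subset inter_subset_left
  have h9 := Nat.mul_le_mul_left D.r (show ∑ v ∈ O ∩ E, min ((D.K1 dl).c v) (η v \ O).card + 1 ≤
    D.p1 (O ∩ E) by omega)
  have := H.r_pos
  rw [mul_add] at h9
  omega

/-- the state kept by a parent call -/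
structure Par (D : Dat V) (dl : ℕ) (O E : Finset V) (v : V) (η : V → Finset V) : Prop where
  inv : D.Inv dl η
  tO : (D.K1 dl).Tt η O
  tE : D.K0.Tt (D.fr η) E
  vO : v ∈ O
  vE : v ∈ E
  soft1 : (η v \ O).card < (D.K1 dl).c v
  soft0 : (D.fr η v \ E).card < D.K0.c v

lemma Par.step {dl : ℕ} {O E : Finset V} {v0 : V} {η η' : V → Finset V}
    (P : Par D dl O E v0 η) {v y w : V} (s : D.St dl O E η η' v y w) (yO : y ∈ O) (wE : w ∈ E) :
    Par D dl O E v0 η' :=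
  ⟨s.inv, (Col.tt_same s.sw1 s.wO yO).2 P.tO, (Col.tt_same s.sw0 s.yE wE).2 P.tE, P.vO, P.vE,
    by rw [s.sw1.same O s.wO yO]; exact P.soft1, by rw [s.sw0.same E s.yE wE]; exact P.soft0⟩

lemma St.monoE {dl : ℕ} {O E U : Finset V} {η η' : V → Finset V} {v y w : V}
    (s : D.St dl O U η η' v y w) (h : U ⊆ E) : D.St dl O E η η' v y w :=
  ⟨s.vO, h s.vE, s.soft1, lt_of_le_of_lt (card_sd_anti _ h) s.soft0, s.sw1, s.sw0, h s.yE, s.wO,
    s.y0, s.w1, s.inv⟩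

lemma St.monoO {dl : ℕ} {O E U : Finset V} {η η' : V → Finset V} {v y w : V}
    (s : D.St dl U E η η' v y w) (h : U ⊆ O) : D.St dl O E η η' v y w :=
  ⟨h s.vO, s.vE, lt_of_le_of_lt (card_sd_anti _ h) s.soft1, s.soft0, s.sw1, s.sw0, s.yE, h s.wO,
    s.y0, s.w1.imp (fun a => h a) id, s.inv⟩

lemma liftA (H : D.Hyp) {dl : ℕ} {O E U : Finset V} {v0 y0 : V}
    (cont : ∀ η2, Par D dl O E v0 η2 → y0 ∈ D.fr η2 v0 →
      (∀ Z, D.K0.Blk (D.fr η2) v0 E y0 Z → Z.card < U.card) → ∃ η3, D.Free dl O E η2 η3)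
    {η η1 : V → Finset V} (F : D.Free dl O U η η1) :
    Par D dl O E v0 η → y0 ∈ D.fr η v0 → D.K0.Blk (D.fr η) v0 E y0 U →
      (∀ Z, D.K0.Blk (D.fr η) v0 E y0 Z → Z ⊆ U) → ∃ η3, D.Free dl O E η η3 := by
  induction F with
  | @fin η η' v y w s hf =>
    intro P hy hU hmax
    have s' := s.monoE hU.2.1
    by_cases a : y ∉ O ∨ w ∉ E
    · exact ⟨η', Free.fin s' a⟩
    · have yO : y ∈ O := by tauto
      have wE : w ∈ E := by tauto
      have wU : w ∉ U := by tauto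
      obtain ⟨η3, h3⟩ := cont η' (P.step s' yO wE)
        (s.sw0.keep hy (fun e => hU.2.2 (e ▸ s.yE)))
        (Col.blk_free H.sup0 P.inv.adm0 (P.inv.rich0 H) s.sw0 (by have := P.soft0; omega)
          s.vE s.soft0 s.yE wU s.y0 hU hmax)
      exact ⟨η3, Free.step s' yO wE h3⟩
  | @step η η1 η' v y w s yO wU _ ih =>
    intro P hy hU hmax
    have s' := s.monoE hU.2.1
    obtain ⟨b1, b2⟩ := Col.blk_inner H.sup0 s.inv.adm0 (s.inv.rich0 H) s.sw0
      (by have := P.soft0; omega) s.yE wU hU hmax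
    obtain ⟨η3, h3⟩ := ih (P.step s' yO (hU.2.1 wU))
      (s.sw0.keep hy (fun e => hU.2.2 (e ▸ s.yE))) b1 b2
    exact ⟨η3, Free.step s' yO (hU.2.1 wU) h3⟩

lemma liftB (H : D.Hyp) {dl : ℕ} {O E U : Finset V} {v0 w0 : V}
    (cont : ∀ η2, Par D dl O E v0 η2 → w0 ∈ η2 v0 →
      (∀ Z, (D.K1 dl).Blk η2 v0 O w0 Z → Z.card < U.card) → ∃ η3, D.Free dl O E η2 η3)
    {η η1 : V → Finset V} (F : D.Free dl U E η η1) :
    Par D dl O E v0 η → w0 ∈ η v0 → (D.K1 dl).Blk η v0 O w0 U →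
      (∀ Z, (D.K1 dl).Blk η v0 O w0 Z → Z ⊆ U) → ∃ η3, D.Free dl O E η η3 := by
  induction F with
  | @fin η η' v y w s hf =>
    intro P hy hU hmax
    have s' := s.monoO hU.2.1
    by_cases a : y ∉ O ∨ w ∉ E
    · exact ⟨η', Free.fin s' a⟩
    · have yO : y ∈ O := by tauto
      have wE : w ∈ E := by tauto
      have yU : y ∉ U := by tauto
      obtain ⟨η3, h3⟩ := cont η' (P.step s' yO wE)
        (s.sw1.keep hy (fun e => hU.2.2 (e ▸ s.wO)))
        (Col.blk_free (K := D.K1 dl) H.sup1 P.inv.adm1 P.inv.rich1 s.sw1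
          (by have := P.soft1; omega) s.vO s.soft1 s.wO yU (s.w1.resolve_left yU) hU hmax)
      exact ⟨η3, Free.step s' yO wE h3⟩
  | @step η η1 η' v y w s yU wE _ ih =>
    intro P hy hU hmax
    have s' := s.monoO hU.2.1
    obtain ⟨b1, b2⟩ := Col.blk_inner (K := D.K1 dl) H.sup1 s.inv.adm1 s.inv.rich1 s.sw1
      (by have := P.soft1; omega) s.wO yU hU hmax
    obtain ⟨η3, h3⟩ := ih (P.step s' (hU.2.1 yU) wE)
      (s.sw1.keep hy (fun e => hU.2.2 (e ▸ s.wO))) b1 b2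
    exact ⟨η3, Free.step s' (hU.2.1 yU) wE h3⟩

/-- either a direct swap exists or many free alive heads lie in the least sensitive set -/
lemma split (H : D.Hyp) {dl : ℕ} {O E : Finset V} {v : V} {η : V → Finset V}
    (P : Par D dl O E v η) : (∃ η', D.Free dl O E η η') ∨
      ∃ R, D.K0.Sens (D.fr η) v R ∧ (∀ Z, D.K0.Sens (D.fr η) v Z → R ⊆ Z) ∧
        D.fr η v ∩ R ⊆ O ∧ D.t0 + 1 ≤ (D.fr η v ∩ D.A ∩ R).card := by
  have hEs : D.K0.Sens (D.fr η) v E := ⟨P.tE, P.vE, P.soft0.le⟩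
  have hc := P.soft0
  obtain ⟨R, hR, hmin⟩ := Col.exists_min H.sup0 P.inv.adm0 (P.inv.rich0 H) (by omega) hEs
  by_cases a : D.fr η v ∩ R ⊆ O
  · refine Or.inr ⟨R, hR, hmin, a, ?_⟩
    have h1 := fr_card H P.inv.le (A_of_c1 (dl := dl) (v := v) (by have := P.soft1; omega))
    have h2 : D.fr η v ∩ D.A ⊆ (D.fr η v ∩ D.A ∩ R) ∪ (D.fr η v \ R) := by
      intro x hx
      simp only [mem_sdiff, mem_inter, mem_union] at hx ⊢
      tauto
    have h3 := (card_le_card h2).trans (card_union_le _ _)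
    have h4 : (D.fr η v \ R).card ≤ D.c v := hR.2.2
    have h5 := H.c_le v (P.tE.1.1 P.vE)
    omega
  · obtain ⟨y, hy, yO⟩ := not_subset.1 a
    have hy' := mem_inter.1 hy
    exact Or.inl (stepA H P.inv P.tO P.vO P.vE P.soft1 P.soft0 hy'.1 (hmin E hEs hy'.2) yO
      (fun Z hZ => hmin Z hZ hy'.2))

theorem free (H : D.Hyp) {dl : ℕ} (hdl : 1 ≤ dl) (n : ℕ) : ∀ (O E : Finset V) (η : V → Finset V),
    O.card + E.card < n → D.Inv dl η → (D.K1 dl).Tt η O → D.K0.Tt (D.fr η) E →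
    D.t0 ≤ (O ∩ E).card → ∃ η', D.Free dl O E η η' := by
  induction n with
  | zero => intro O E η h; omega
  | succ n ih =>
    intro O E η hn I hO hE hL
    obtain ⟨v, vO, vE, s1, s0, h⟩ := count H hdl hO hE hL
    have P : Par D dl O E v η := ⟨I, hO, hE, vO, vE, s1, s0⟩
    rcases h with ⟨y0, hy, yE, yO⟩ | ⟨w0, hw, wO, wE⟩
    · have key : ∀ k, ∀ η2, Par D dl O E v η2 → y0 ∈ D.fr η2 v →
          (∀ Z, D.K0.Blk (D.fr η2) v E y0 Z → Z.card < k) → ∃ η3, D.Free dl O E η2 η3 := by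
        intro k
        induction k using Nat.strong_induction_on with
        | _ k ihk =>
        intro η2 P2 hy2 hk
        rcases split H P2 with a | ⟨R, hR, hmin, hsub, hcard⟩
        · exact a
        have hEs : D.K0.Sens (D.fr η2) v E := ⟨P2.tE, P2.vE, P2.soft0.le⟩
        have hB : D.K0.Blk (D.fr η2) v E y0 R :=
          ⟨hR, hmin E hEs, fun a => yO (hsub (mem_inter.2 ⟨hy2, a⟩))⟩
        obtain ⟨U, hU, hmax⟩ := Col.exists_max H.sup0 P2.inv.adm0 (P2.inv.rich0 H)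
          (by have := P2.soft0; omega) hB
        have hlt : U.card < E.card := card_lt_card ⟨hU.2.1, fun a => hU.2.2 (a yE)⟩
        obtain ⟨η1, F⟩ := ih O U η2 (by omega) P2.inv P2.tO hU.1.1 (by
          refine le_trans (by omega) (hcard.trans (card_le_card ?_))
          intro x hx
          simp only [mem_inter] at hx
          exact mem_inter.2 ⟨hsub (mem_inter.2 ⟨hx.1.1, hx.2⟩), hmax R hB hx.2⟩)
        exact liftA H (ihk U.card (hk U hU)) F P2 hy2 hU hmax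
      exact key (E.card + 1) η P hy (fun Z hZ => Nat.lt_succ_of_le (card_le_card hZ.2.1))
    · have key : ∀ k, ∀ η2, Par D dl O E v η2 → w0 ∈ η2 v →
          (∀ Z, (D.K1 dl).Blk η2 v O w0 Z → Z.card < k) → ∃ η3, D.Free dl O E η2 η3 := by
        intro k
        induction k using Nat.strong_induction_on with
        | _ k ihk =>
        intro η2 P2 hw2 hk
        rcases split H P2 with a | ⟨R, hR, hmin, hsub, hcard⟩
        · exact a
        have hEs : D.K0.Sens (D.fr η2) v E := ⟨P2.tE, P2.vE, P2.soft0.le⟩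
        have hOs : (D.K1 dl).Sens η2 v O := ⟨P2.tO, P2.vO, P2.soft1.le⟩
        have hc1 : 1 ≤ (D.K1 dl).c v := by have := P2.soft1; omega
        by_cases a : ∃ y ∈ D.fr η2 v ∩ D.A ∩ R, ∀ Z, (D.K1 dl).Blk η2 v O w0 Z → y ∉ Z
        · obtain ⟨y, hy, hb⟩ := a
          simp only [mem_inter] at hy
          have yO := hsub (mem_inter.2 ⟨hy.1.1, hy.2⟩)
          obtain ⟨η', t1, t0, I'⟩ := exists_sw P2.inv hy.1.1 hw2 (Or.inr (Or.inl hy.1.2))
            (fun Z hZ => hmin Z hZ hy.2) (fun Z hZ => by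
              by_cases b : w0 ∈ Z
              · exact Or.inl b
              · refine Or.inr (fun e => hb (Z ∩ O) ⟨Col.sens_inter (K := D.K1 dl) H.sup1
                  P2.inv.adm1 P2.inv.rich1 hc1 hZ hOs, inter_subset_right,
                  fun t => b (mem_inter.1 t).1⟩ (mem_inter.2 ⟨e, yO⟩)))
          exact ⟨η', Free.fin ⟨P2.vO, P2.vE, P2.soft1, P2.soft0, t1, t0, hmin E hEs hy.2, wO,
            fun Z hZ => hmin Z hZ hy.2, Or.inl yO, I'⟩ (Or.inr wE)⟩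
        · push Not at a
          obtain ⟨y1, hy1⟩ := card_pos.1 (lt_of_lt_of_le (Nat.succ_pos _) hcard)
          obtain ⟨Z0, hZ0, _⟩ := a y1 hy1
          obtain ⟨U, hU, hmax⟩ := Col.exists_max (K := D.K1 dl) H.sup1 P2.inv.adm1 P2.inv.rich1
            hc1 hZ0
          have hlt : U.card < O.card := card_lt_card ⟨hU.2.1, fun a => hU.2.2 (a wO)⟩
          obtain ⟨η1, F⟩ := ih U E η2 (by omega) P2.inv hU.1.1 P2.tE (by
            refine le_trans (by omega) (hcard.trans (card_le_card ?_))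
            intro x hx
            obtain ⟨Z, hZ, hxZ⟩ := a x hx
            exact mem_inter.2 ⟨hmax Z hZ hxZ, hmin E hEs (mem_inter.1 hx).2⟩)
          exact liftB H (ihk U.card (hk U hU)) F P2 hw2 hU hmax
      exact key (O.card + 1) η P hw (fun Z hZ => Nat.lt_succ_of_le (card_le_card hZ.2.1))

end Dat

end Pool.Agent.MP_b9875a_co.H99.PL
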