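import Pool.Agent.MP_b9875a_co.H99.Base2
import Pool.Agent.MP_b9875a_co.H3.Fin

set_option autoImplicit false

namespace Pool.Agent.MP_b9875a_co.H99.LN

open Finset

/-- a whole fan -/
lemma fan (ht : TargetStmt) (he : EpochStmt) (hdv : DiveStmt) (hf : FinStmt)
    (V : Type) [Fintype V] [DecidableEq V] (k m s : ℕ) (hk : 1 ≤ k) (hs : s + 100 ≤ 100 * k) :
    ∀ (a b : ℕ) (σ : St V), meas σ ≤ a → σ.S.card ≤ b → Good k m s σ →
      ∃ σ' : St V, Good k m (s + 100) σ' ∧ Sim m σ m σ' ∧ σ'.Need = ∅ ∧ σ'.H = ∅ := by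
  intro a
  induction a using Nat.strong_induction_on with
  | _ a iha =>
    intro b
    induction b using Nat.strong_induction_on with
    | _ b ihb =>
      intro σ ha hb h
      rcases σ.Un.eq_empty_or_nonempty with hU | hU
      · exact hf V k m s σ hk hs h hU
      obtain ⟨G, Bs, ac, pi, po, pl, hT⟩ := ht V k m s σ hk h
      obtain ⟨σ1, h1, s1, e1, hc⟩ := he V k m s σ G Bs ac pi po pl h hU hT
      rcases hc with hc | ⟨hc, hsc, Z, z1, z2, z3, z4, z5⟩
      · obtain ⟨σ', g1, g2, g3⟩ := iha (meas σ1) (by omega) _ σ1 le_rfl le_rfl h1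
        exact ⟨σ', g1, s1.trans g2, g3⟩
      · obtain ⟨σ2, h2, s2, e2, _, n2, u2⟩ := hdv V k m s σ1 (cap σ1) Z 0 hk h1 hsc
          (fun v => by have := h1.acc2 v; unfold cap; omega) h1.adm z1 z3 z4
          (fun Y hY hc => h1.adm Y (hY.trans z1) hc)
          (fun v _ _ => by have := h1.acc2 v; unfold cap; omega)
          (fun v hv hc _ => by
            have a1 := h1.i2 v (z1 hv) hc
            have a2 := h1.be_le (z1 hv) hc
            have a3 := h1.acc1 v
            have a4 := h1.acc2 v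
            unfold cap
            omega)
          (le_trans (sum_le_sum_of_subset (fun v hv => by
            rw [mem_filter] at hv ⊢
            refine ⟨z1 hv.1, ?_⟩
            have := hv.2
            unfold cap at this
            omega)) h1.sbe) z5
        have c1 : Z.card < σ1.S.card := card_lt_card ⟨z1, fun e => z2 (Subset.antisymm z1 e)⟩
        have c2 : meas σ2 ≤ meas σ1 := add_le_add (card_le_card n2) (card_le_card u2)
        obtain ⟨σ', g1, g2, g3⟩ := ihb σ2.S.card (by rw [e2]; rw [e1] at c1; omega) σ2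
          (by omega) le_rfl h2
        exact ⟨σ', g1, s1.trans (s2.trans g2), g3⟩

/-- all rounds -/
lemma rounds (ht : TargetStmt) (he : EpochStmt) (hdv : DiveStmt) (hf : FinStmt) (hp : PrepStmt)
    (hst : StartStmt) (V : Type) [Fintype V] [DecidableEq V] (k : ℕ) (hk : 1 ≤ k) (σ0 : St V)
    (h0 : Good k 0 0 σ0) (n0 : σ0.Need = ∅) (H0 : σ0.H = ∅) :
    ∀ m ≤ k, ∃ σ : St V, Good k m (100 * m) σ ∧ Sim 0 σ0 m σ ∧ σ.Need = ∅ ∧ σ.H = ∅ := by
  intro m
  induction m with
  | zero => exact fun _ => ⟨σ0, h0, Sim.refl _ _, n0, H0⟩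
  | succ m ih =>
    intro hm
    obtain ⟨σ, h, s, n, H⟩ := ih (by omega)
    obtain ⟨σ1, z, h1, s1, n1, H1, z1, z2, z3, z4⟩ := hp V k m _ σ hk h n H
    obtain ⟨σ2, h2, s2⟩ := hst V k m _ σ1 z (by omega) h1 n1 H1 z1 z2 z3 z4
    obtain ⟨σ3, h3, s3, n3, H3⟩ := fan ht he hdv hf V k (m + 1) (100 * m) hk (by omega) _ _ σ2
      le_rfl le_rfl h2
    exact ⟨σ3, h3, s.trans (s1.trans (s2.trans s3)), n3, H3⟩

/-- the first state -/
def initSt {V : Type} [Fintype V] (k : ℕ) (D : Finset (V × V)) (v0 : V) : St V where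
  S := univ
  D := D
  H := ∅
  hd := Prod.snd
  c := fun _ => 3400 * k
  mu := fun _ => 0
  be := fun _ => 0
  acc := fun _ => 0
  u := fun _ => 0
  T := ∅
  B := ∅
  bs := fun _ => v0
  Un := ∅
  Cn := ∅
  Ar := ∅
  og := fun _ => v0
  dg := none
  Need := ∅
  z := fun _ => v0

lemma good_init {V : Type} [Fintype V] [DecidableEq V] (k : ℕ) (hk : 1 ≤ k) (D : Finset (V × V))
    (v0 : V) (hD : ∀ v, 10700 * k ≤ cnt D Prod.fst v) : Good k 0 0 (initSt k D v0) := by
  have hm : ∀ x y, (D.filter (fun a => a.1 = x ∧ a.2 = y)).card ≤ 1 := fun x y =>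
    card_le_one.2 (fun a ha b hb => by
      rw [mem_filter] at ha hb
      exact Prod.ext (ha.2.1.trans hb.2.1.symm) (ha.2.2.trans hb.2.2.symm))
  have hbig : 2 * k + 1 ≤ (univ : Finset V).card := by
    have h1 := cnt_le_ex (tl := Prod.fst) (hd := Prod.snd) D v0 univ 1 (hm v0)
    rw [ex_eq_zero Prod.fst Prod.snd (fun a _ => mem_univ _)] at h1
    have h2 := hD v0
    omega
  refine
    { fl := ⟨by simp [initSt], by simp [initSt], by simp [initSt], by simp [initSt],
        by simp [initSt], by simp [initSt], by simp [initSt], by simp [initSt],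
        by simp [initSt, dgn], by simp [initSt, dgb], by simp [initSt]⟩,
      ar := rfl, arcD := by simp [initSt], arcH := by simp [initSt], bsS := by simp [initSt],
      ogU := by simp [initSt], ogC := by simp [initSt], dgS := by simp [initSt],
      acc1 := by simp [initSt], acc2 := by simp [initSt], cg := by simp [initSt], i1 := ?_,
      i2 := by simp [initSt], dead := ?_, tmu := by simp [initSt], umu := by simp [initSt],
      und := by simp [initSt], smu := by simp [initSt], sbe := by simp [initSt], mult := ?_,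
      tok := by simp, tlab := by simp [initSt], ndr := by simp [initSt], adm := ?_, big := hbig,
      zmu := by simp, zinj := by simp, mk1 := by omega, sk := by omega }
  · intro v _ _
    have := hD v
    show 3400 * k + 7300 * k ≤ cnt D Prod.fst v + _ + _
    omega
  · intro v _ hc
    have : 3400 * k = 0 := hc
    omega
  · intro x y
    show ((D ∪ ∅).filter (fun a => a.1 = x ∧ a.2 = y)).card ≤ 100
    rw [union_empty]
    exact (hm x y).trans (by norm_num)
  · intro X _ _
    have : ∀ v, dem (initSt k D v0) v = 0 := fun v => by simp [dem, initSt, dga]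
    simp [this]

theorem glue (ht : TargetStmt) (he : EpochStmt) (hdv : DiveStmt) (hf : FinStmt) (hp : PrepStmt)
    (hst : StartStmt) :
    ∃ c : ℝ, 0 < c ∧ ∀ k : ℕ, 1 ≤ k → ∀ (V : Type) [Fintype V] [Nonempty V] (G : Digraph V),
      (∀ v, c * (k : ℝ) ≤ (({w | G.Adj v w} : Set V).ncard : ℝ)) →
      ∃ f : Fin k → V, Function.Injective f ∧ ∃ P : Fin k → Fin k → List V,
        (∀ i j : Fin k, i < j →
          (P i j).head? = some (f i) ∧ (P i j).getLast? = some (f j) ∧ (P i j).Nodup ∧
          ∀ a b : V, (a, b) ∈ (P i j).zip (P i j).tail → G.Adj a b) ∧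
        (∀ i j i' j' : Fin k, i < j → i' < j' → (i, j) ≠ (i', j') →
          ∀ a b : V, (a, b) ∈ (P i j).zip (P i j).tail →
            (a, b) ∉ (P i' j').zip (P i' j').tail) := by
  refine ⟨10700, by norm_num, ?_⟩
  intro k hk V _ hV G hdeg
  classical
  obtain ⟨v0⟩ := hV
  set D : Finset (V × V) := Finset.univ.filter (fun e => G.Adj e.1 e.2) with hD
  have hD1 : ∀ v, 10700 * k ≤ cnt D Prod.fst v := by
    intro v
    have h1 : ({w | G.Adj v w} : Set V).ncard ≤ (D.filter (fun e => e.1 = v)).card := by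
      rw [← Set.ncard_coe_finset]
      apply Set.ncard_le_ncard_of_injOn (fun w => (v, w))
      · intro w hw
        simpa [hD] using hw
      · intro a _ b _ h
        exact (Prod.ext_iff.1 h).2
    have h2 : 10700 * k ≤ ({w | G.Adj v w} : Set V).ncard := by
      exact_mod_cast hdeg v
    exact h2.trans h1
  obtain ⟨σ, h, hs, hn, _⟩ := rounds ht he hdv hf hp hst V k hk (initSt k D v0)
    (good_init k hk D v0 hD1) rfl rfl k le_rfl
  have hr0 : Rlz G.Adj 0 (initSt k D v0) := by
    refine ⟨fun a b => Ob.arc (a, b), fun o x y hr => ?_⟩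
    cases o with
    | arc a =>
      obtain ⟨h1, rfl, rfl⟩ := hr
      refine Relation.ReflTransGen.single ⟨?_, rfl⟩
      rcases h1 with e | e
      · exact (mem_filter.1 e).2
      · exact absurd e (notMem_empty _)
    | tok τ => exact absurd hr.1 (notMem_empty _)
    | peb p => rcases hr.1 with e | e | e <;> exact absurd e (notMem_empty _)
    | dang => cases hr
    | done j i => exact absurd hr.2.1 (Nat.not_lt_zero _)
  obtain ⟨own, ho⟩ := hs G.Adj hr0
  have hc : ∀ i j : Fin k, ∃ L : List V, i < j →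
      L.head? = some (σ.z (k - 1 - i)) ∧ L.getLast? = some (σ.z (k - 1 - j)) ∧ L.Nodup ∧
      ∀ e ∈ L.zip L.tail, G.Adj e.1 e.2 ∧ own e.1 e.2 = Ob.done (k - 1 - i) (k - 1 - j) := by
    intro i j
    by_cases hij : i < j
    · have a1 : (i : ℕ) < j := hij
      have a2 := j.2
      have h1 := ho (Ob.done (k - 1 - i) (k - 1 - j)) _ _
        ⟨by omega, by omega, Or.inr (by rw [hn]; simp), rfl, rfl⟩
      obtain ⟨L, q1, q2, q3, q4⟩ := H3.path (univ.filter (fun e : V × V =>
        G.Adj e.1 e.2 ∧ own e.1 e.2 = Ob.done (k - 1 - i) (k - 1 - j)))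
        (σ.z (k - 1 - i)) (σ.z (k - 1 - j))
        (rtg_mono (fun a b hab => mem_filter.2 ⟨mem_univ (a, b), hab⟩) h1)
      exact ⟨L, fun _ => ⟨q1, q2, q3, fun e he => (mem_filter.1 (q4 e he)).2⟩⟩
    · exact ⟨[], fun h => absurd h hij⟩
  choose Q hQ using hc
  refine ⟨fun i => σ.z (k - 1 - i), fun i j e => ?_, Q, ?_, ?_⟩
  · have a1 := i.2
    have a2 := j.2
    have := h.zinj _ (by omega) _ (by omega) e
    exact Fin.ext (by omega)
  · intro i j hij
    obtain ⟨q1, q2, q3, q4⟩ := hQ i j hij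
    exact ⟨q1, q2, q3, fun a b hab => (q4 _ hab).1⟩
  · intro i j i' j' hij hij' hne a b hab hab'
    have e1 := ((hQ i j hij).2.2.2 _ hab).2
    have e2 := ((hQ i' j' hij').2.2.2 _ hab').2
    have e3 := e1.symm.trans e2
    injection e3 with e4 e5
    have a1 := i.2
    have a2 := j.2
    have a3 := i'.2
    have a4 := j'.2
    exact hne (Prod.ext (Fin.ext (by simp only; omega)) (Fin.ext (by simp only; omega)))

end Pool.Agent.MP_b9875a_co.H99.LN
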