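import Pool.Agent.MP_b9875a_co.H99.Glue

set_option autoImplicit false

namespace Pool.Agent.MP_b9875a_co.H99.LN

open Finset

theorem glue2 (ht : TargetStmt) (he : EpochStmt) (hdv : DiveStmt) (hf : FinStmt) (hp : PrepStmt)
    (hst : StartStmt) :
    ∀ k : ℕ, 1 ≤ k → ∀ (V : Type) [Fintype V] [Nonempty V] (G : Digraph V),
      (∀ v, 10700 * k ≤ ({w | G.Adj v w} : Set V).ncard) →
      ∃ f : Fin k → V, Function.Injective f ∧ ∃ P : Fin k → Fin k → List V,
        (∀ i j : Fin k, i < j →
          (P i j).head? = some (f i) ∧ (P i j).getLast? = some (f j) ∧ (P i j).Nodup ∧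
          ∀ a b : V, (a, b) ∈ (P i j).zip (P i j).tail → G.Adj a b) ∧
        (∀ i j i' j' : Fin k, i < j → i' < j' → (i, j) ≠ (i', j') →
          ∀ a b : V, (a, b) ∈ (P i j).zip (P i j).tail →
            (a, b) ∉ (P i' j').zip (P i' j').tail) := by
  intro k hk V _ hV G hdeg
  classical
  obtain ⟨v0⟩ := hV
  set D : Finset (V × V) := Finset.univ.filter (fun e => G.Adj e.1 e.2) with hD
  have hD1 : ∀ v, 10700 * k ≤ cnt D Prod.fst v := by
    intro v
    have h1 : ({w | G.Adj v w} : Set V).ncard ≤ (D.filter (fun e => e.1 = v)).card := by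
      rw [← Set.ncard_coe_finset]
      apply Set.ncard_le_ncard_of_injOn (fun w => (v, w))
      · intro w hw
        simpa [hD] using hw
      · intro a _ b _ h
        exact (Prod.ext_iff.1 h).2
    exact (hdeg v).trans h1
  obtain ⟨σ, h, hs, hn, _⟩ := rounds ht he hdv hf hp hst V k hk (initSt k D v0)
    (good_init k hk D v0 hD1) rfl rfl k le_rfl
  have hr0 : Rlz G.Adj 0 (initSt k D v0) := by
    refine ⟨fun a b => Ob.arc (a, b), fun o x y hr => ?_⟩
    cases o with
    | arc a =>
      obtain ⟨h1, rfl, rfl⟩ := hr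
      refine Relation.ReflTransGen.single ⟨?_, rfl⟩
      rcases h1 with e | e
      · exact (mem_filter.1 e).2
      · exact absurd e (notMem_empty _)
    | tok τ => exact absurd hr.1 (notMem_empty _)
    | peb p => rcases hr.1 with e | e | e <;> exact absurd e (notMem_empty _)
    | dang => cases hr
    | done j i => exact absurd hr.2.1 (Nat.not_lt_zero _)
  obtain ⟨own, ho⟩ := hs G.Adj hr0
  have hc : ∀ i j : Fin k, ∃ L : List V, i < j →
      L.head? = some (σ.z (k - 1 - i)) ∧ L.getLast? = some (σ.z (k - 1 - j)) ∧ L.Nodup ∧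
      ∀ e ∈ L.zip L.tail, G.Adj e.1 e.2 ∧ own e.1 e.2 = Ob.done (k - 1 - i) (k - 1 - j) := by
    intro i j
    by_cases hij : i < j
    · have a1 : (i : ℕ) < j := hij
      have a2 := j.2
      have h1 := ho (Ob.done (k - 1 - i) (k - 1 - j)) _ _
        ⟨by omega, by omega, Or.inr (by rw [hn]; simp), rfl, rfl⟩
      obtain ⟨L, q1, q2, q3, q4⟩ := H3.path (univ.filter (fun e : V × V =>
        G.Adj e.1 e.2 ∧ own e.1 e.2 = Ob.done (k - 1 - i) (k - 1 - j)))
        (σ.z (k - 1 - i)) (σ.z (k - 1 - j))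
        (rtg_mono (fun a b hab => mem_filter.2 ⟨mem_univ (a, b), hab⟩) h1)
      exact ⟨L, fun _ => ⟨q1, q2, q3, fun e he => (mem_filter.1 (q4 e he)).2⟩⟩
    · exact ⟨[], fun h => absurd h hij⟩
  choose Q hQ using hc
  refine ⟨fun i => σ.z (k - 1 - i), fun i j e => ?_, Q, ?_, ?_⟩
  · have a1 := i.2
    have a2 := j.2
    have := h.zinj _ (by omega) _ (by omega) e
    exact Fin.ext (by omega)
  · intro i j hij
    obtain ⟨q1, q2, q3, q4⟩ := hQ i j hij
    exact ⟨q1, q2, q3, fun a b hab => (q4 _ hab).1⟩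
  · intro i j i' j' hij hij' hne a b hab hab'
    have e1 := ((hQ i j hij).2.2.2 _ hab).2
    have e2 := ((hQ i' j' hij').2.2.2 _ hab').2
    have e3 := e1.symm.trans e2
    injection e3 with e4 e5
    have a1 := i.2
    have a2 := j.2
    have a3 := i'.2
    have a4 := j'.2
    exact hne (Prod.ext (Fin.ext (by simp only; omega)) (Fin.ext (by simp only; omega)))

end Pool.Agent.MP_b9875a_co.H99.LN
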