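import Pool.Agent.MP_b9875a_co.H99.Sparse

set_option autoImplicit false

namespace Pool.Agent.MP_b9875a_co.H99

open Finset

variable {V : Type} [DecidableEq V]

lemma erase_nonempty_of_defi (D : Finset (V × V)) (U : Finset V) (z : V) (d : ℕ)
    (hloop : ∀ v, (v, v) ∉ D) (hzU : z ∈ U) (h : defi D d U < d) : (U.erase z).Nonempty := by
  by_contra hemp
  rw [not_nonempty_iff_eq_empty] at hemp
  have hUz : U = {z} := by
    rw [← insert_erase hzU, hemp]
    rfl
  have h0 : outd D U z = 0 := by
    unfold outd
    rw [card_eq_zero, filter_eq_empty_iff]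
    rintro e he ⟨h1, h2⟩
    rw [hUz, mem_singleton] at h2
    apply hloop z
    have : e = (z, z) := Prod.ext h1 h2
    exact this ▸ he
  have : defi D d U = d := by
    unfold defi
    conv_lhs => rw [hUz, sum_singleton, ← hUz, h0]
    rfl
  omega

lemma main_ind2 (k m : ℕ) (hm : 1 ≤ m) (hkm : k ≤ m * m) (j : ℕ) :
    ∀ (D : Finset (V × V)) (W : Finset V) (d : ℕ),
    (∀ v, (v, v) ∉ D) → W.Nonempty → j ≤ k → 2 * k + 5 * m + j * (7 * m) ≤ d →
    defi D d W < 2 * k →
    ∃ (f : ℕ → V) (P : ℕ → ℕ → List V), (∀ i < j, f i ∈ W) ∧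
      (∀ i < j, ∀ i' < j, f i = f i' → i = i') ∧
      (∀ i i', i < i' → i' < j → (P i i').head? = some (f i) ∧ (P i i').getLast? = some (f i') ∧
        (P i i').Nodup ∧ ∀ e ∈ arcsOf (P i i'), e ∈ D) ∧
      (∀ i i' l l', i < i' → i' < j → l < l' → l' < j → (i, i') ≠ (l, l') →
        ∀ e ∈ arcsOf (P i i'), e ∉ arcsOf (P l l')) := by
  induction j with
  | zero =>
    intro D W d _ hW _ _ _
    obtain ⟨v, _⟩ := hW
    exact ⟨fun _ => v, fun _ _ => [], by simp, by simp, by simp, by simp⟩
  | succ j ih =>
    intro D W d hloop hW hjk hd hdef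
    classical
    have hex : (W.powerset.filter (fun Q => Q.Nonempty ∧ defi D d Q < 2 * k)).Nonempty :=
      ⟨W, by simp only [mem_filter, mem_powerset]; exact ⟨subset_rfl, hW, hdef⟩⟩
    obtain ⟨U, hU, hUmin⟩ := exists_min_image _ Finset.card hex
    simp only [mem_filter, mem_powerset] at hU hUmin
    obtain ⟨hUW, hUne, hUdef⟩ := hU
    obtain ⟨z, hzU, hcut⟩ := cover D d (2 * k) k U hUne le_rfl hUdef (by
      intro Q hQ hQne hQn
      by_contra hlt
      have := hUmin Q ⟨hQ.trans hUW, hQn, by omega⟩
      have h2 : Q.card < U.card := card_lt_card ⟨hQ, fun h => hQne (Subset.antisymm hQ h)⟩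
      omega)
    have hd' : (j + 1) * (7 * m) = j * (7 * m) + 7 * m := by ring
    rw [hd'] at hd
    have hne := erase_nonempty_of_defi D U z d hloop hzU (by omega)
    obtain ⟨J, H, hJU, hJne, hHD, hJdeg, hlink⟩ := linker D U z k m hm hkm hne (by
      intro v hv
      rw [← outd_eq_ex]
      have : d - outd D U v ≤ defi D d U :=
        single_le_sum (f := fun v => d - outd D U v) (fun _ _ => Nat.zero_le _) hv
      omega) hcut
    have hdef' : defi (D \ H) (d - 7 * m) J < 2 * k := by
      refine lt_of_le_of_lt ?_ hUdef
      unfold defi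
      refine le_trans (sum_le_sum ?_) (sum_le_sum_of_subset (hJU.trans (erase_subset z U)))
      intro v hv
      have := hJdeg v hv
      omega
    obtain ⟨f, P, hf, hinj, hP, hPP⟩ := ih (D \ H) J (d - 7 * m)
      (fun v h => hloop v (mem_sdiff.1 h).1) hJne (by omega) (by omega) hdef'
    obtain ⟨L, hL, hLL⟩ := hlink j f (by omega) hf hinj
    refine ⟨fun i => if i = j then z else f i, fun i i' => if i' = j then L i else P i i',
      ?_, ?_, ?_, ?_⟩
    · intro i hi
      by_cases h : i = j
      · simp only [h, if_true]; exact hUW hzU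
      · simp only [h, if_false]; exact hUW (mem_erase.1 (hJU (hf i (by omega)))).2
    · intro i hi i' hi' heq
      by_cases h : i = j
      · by_cases h' : i' = j
        · omega
        · simp only [h, h', if_true, if_false] at heq
          exact absurd heq.symm (mem_erase.1 (hJU (hf i' (by omega)))).1
      · by_cases h' : i' = j
        · simp only [h, h', if_true, if_false] at heq
          exact absurd heq (mem_erase.1 (hJU (hf i (by omega)))).1
        · simp only [h, h', if_false] at heq
          exact hinj i (by omega) i' (by omega) heq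
    · intro i i' hii hi'
      have h : i ≠ j := by omega
      by_cases h' : i' = j
      · simp only [h, h', if_true, if_false]
        obtain ⟨h1, h2, h3, h4⟩ := hL i (by omega)
        exact ⟨h1, h2, h3, fun e he => hHD (h4 e he)⟩
      · simp only [h, h', if_false]
        obtain ⟨h1, h2, h3, h4⟩ := hP i i' hii (by omega)
        exact ⟨h1, h2, h3, fun e he => (mem_sdiff.1 (h4 e he)).1⟩
    · intro i i' l l' hii hi' hll hl' hne' e he
      by_cases h' : i' = j
      · have hi : i < j := by omega
        by_cases h'' : l' = j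
        · simp only [h', h'', if_true] at he ⊢
          refine hLL i hi l (by omega) ?_ e he
          rintro rfl
          exact hne' (by rw [h', h''])
        · simp only [h', h'', if_true, if_false] at he ⊢
          intro he'
          exact (mem_sdiff.1 ((hP l l' hll (by omega)).2.2.2 e he')).2 ((hL i hi).2.2.2 e he)
      · by_cases h'' : l' = j
        · simp only [h', h'', if_true, if_false] at he ⊢
          intro he'
          exact (mem_sdiff.1 ((hP i i' hii (by omega)).2.2.2 e he)).2
            ((hL l (by omega)).2.2.2 e he')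
        · simp only [h', h'', if_false] at he ⊢
          exact hPP i i' l l' hii (by omega) hll (by omega) hne' e he

end Pool.Agent.MP_b9875a_co.H99
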