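import Pool.Agent.MP_b9875a_co.H99.Cover

set_option autoImplicit false

namespace Pool.Agent.MP_b9875a_co.H99

open Finset

variable {V : Type} [DecidableEq V]

/-- arcs of a vertex list -/
def arcsOf (L : List V) : List (V × V) := L.zip L.tail

omit [DecidableEq V] in
lemma arcsOf_cons_cons (a b : V) (L : List V) :
    arcsOf (a :: b :: L) = (a, b) :: arcsOf (b :: L) := by
  simp [arcsOf]

lemma exists_suffix (v : V) : ∀ L : List V, v ∈ L → L.Nodup →
    ∃ L' : List V, L'.head? = some v ∧ L'.getLast? = L.getLast? ∧ L'.Nodup ∧
      ∀ e ∈ arcsOf L', e ∈ arcsOf L := by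
  intro L
  induction L with
  | nil => intro h; simp at h
  | cons a L ih =>
    intro hv hnd
    by_cases h : v = a
    · subst h
      exact ⟨v :: L, rfl, rfl, hnd, fun e he => he⟩
    · have hvL : v ∈ L := (List.mem_cons.1 hv).resolve_left h
      obtain ⟨L', h1, h2, h3, h4⟩ := ih hvL (List.nodup_cons.1 hnd).2
      cases L with
      | nil => simp at hvL
      | cons b L =>
        refine ⟨L', h1, ?_, h3, ?_⟩
        · rw [h2, List.getLast?_cons_cons]
        · intro e he
          rw [arcsOf_cons_cons]
          exact List.mem_cons_of_mem _ (h4 e he)

/-- number of indices whose start lies in `R` -/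
def dem (k : ℕ) (s : ℕ → V) (R : Finset V) : ℕ := ((range k).filter (fun i => s i ∈ R)).card

lemma dem_mod (k : ℕ) (s : ℕ → V) (R R' : Finset V) :
    dem k s (R ∩ R') + dem k s (R ∪ R') = dem k s R + dem k s R' := by
  unfold dem
  simp only [card_filter, ← sum_add_distrib]
  apply sum_congr rfl
  intro i _
  by_cases h1 : s i ∈ R <;> by_cases h2 : s i ∈ R' <;> simp [h1, h2]

lemma dem_update (k : ℕ) (s : ℕ → V) (i : ℕ) (hi : i < k) (w : V) (R : Finset V) :
    dem k (Function.update s i w) R + (if s i ∈ R then 1 else 0) =
      dem k s R + (if w ∈ R then 1 else 0) := by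
  unfold dem
  simp only [card_filter]
  rw [← add_sum_erase _ _ (mem_range.2 hi), ← add_sum_erase (range k) _ (mem_range.2 hi)]
  have : ∑ x ∈ (range k).erase i, (if Function.update s i w x ∈ R then 1 else 0) =
      ∑ x ∈ (range k).erase i, (if s x ∈ R then 1 else 0) := by
    apply sum_congr rfl
    intro x hx
    rw [Function.update_of_ne (mem_erase.1 hx).1]
  rw [this, Function.update_self]
  omega

/-- Menger's theorem for arc-disjoint paths from given starts to one sink. -/
lemma menger (W : Finset V) (z : V) (k : ℕ) (n : ℕ) : ∀ (D : Finset (V × V)) (s : ℕ → V),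
    D.card = n → (∀ i < k, s i ∈ W) →
    (∀ R : Finset V, R ⊆ W.erase z → dem k s R ≤ cut D W R) →
    ∃ P : ℕ → List V, (∀ i < k, (P i).head? = some (s i) ∧ (P i).getLast? = some z ∧
        (P i).Nodup ∧ ∀ e ∈ arcsOf (P i), e ∈ D) ∧
      ∀ i < k, ∀ j < k, i ≠ j → ∀ e ∈ arcsOf (P i), e ∉ arcsOf (P j) := by
  induction n using Nat.strong_induction_on with
  | _ n ih =>
    intro D s hn hs hcut
    classical
    by_cases hall : ∀ i < k, s i = z
    · refine ⟨fun _ => [z], ?_, ?_⟩
      · intro i hi
        simp [hall i hi, arcsOf]
      · intro i _ j _ _ e he
        simp [arcsOf] at he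
    · push Not at hall
      obtain ⟨i, hi, hiz⟩ := hall
      have hex : (((W.erase z).powerset.filter
          (fun R => s i ∉ R ∧ cut D W R ≤ dem k s R))).Nonempty := by
        refine ⟨∅, ?_⟩
        simp only [mem_filter, mem_powerset]
        refine ⟨empty_subset _, notMem_empty _, ?_⟩
        simp [cut, cutSet]
      obtain ⟨C, hC, hCmax⟩ := exists_max_image _ Finset.card hex
      simp only [mem_filter, mem_powerset] at hC hCmax
      obtain ⟨hCW, hiC, hCc⟩ := hC
      have hsub : ∀ R : Finset V, R ⊆ W.erase z → s i ∉ R → cut D W R ≤ dem k s R → R ⊆ C := by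
        intro R hR hiR hRc
        have h1 := cut_submod D W R C
        have h2 := dem_mod k s R C
        have h3 := hcut (R ∩ C) (inter_subset_left.trans hR)
        have h4 := hCmax (R ∪ C) ⟨union_subset hR hCW, by simp [hiR, hiC], by omega⟩
        have h5 : C = R ∪ C := eq_of_subset_of_card_le subset_union_right h4
        rw [h5]
        exact subset_union_left
      have hins : insert (s i) C ⊆ W.erase z :=
        insert_subset (mem_erase.2 ⟨hiz, hs i hi⟩) hCW
      have h1 := hcut _ hins
      have h2 : dem k s C < dem k s (insert (s i) C) := by
        unfold dem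
        apply card_lt_card
        refine ⟨fun x hx => ?_, fun h => ?_⟩
        · rw [mem_filter] at hx ⊢
          exact ⟨hx.1, mem_insert_of_mem hx.2⟩
        · have : i ∈ (range k).filter (fun x => s x ∈ insert (s i) C) := by simp [hi]
          exact hiC (mem_filter.1 (h this)).2
      have h3 : ∃ e ∈ cutSet D W (insert (s i) C), e ∉ cutSet D W C := by
        by_contra hcon
        push Not at hcon
        have : cut D W (insert (s i) C) ≤ cut D W C := card_le_card hcon
        omega
      obtain ⟨⟨u, w⟩, he1, he2⟩ := h3
      rw [mem_cutSet] at he1 he2
      simp only [mem_insert, not_or] at he1 he2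
      obtain ⟨heD, hu, hwW, hwi, hwC⟩ := he1
      have hui : u = s i := by
        rcases hu with h | h
        · exact h
        · exact absurd ⟨heD, h, hwW, hwC⟩ he2
      subst hui
      have hlt : (D.erase (s i, w)).card < n := by
        rw [← hn]; exact card_erase_lt_of_mem heD
      obtain ⟨P, hP, hPP⟩ := ih _ hlt (D.erase (s i, w)) (Function.update s i w) rfl
        (by
          intro j hj
          by_cases h : j = i
          · subst h; simpa using hwW
          · rw [Function.update_of_ne h]; exact hs j hj)
        (by
          intro R hR
          have a1 := dem_update k s i hi w R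
          have a2 := hcut R hR
          have a3 := cut_erase_le D W R (s i, w)
          by_cases b1 : s i ∈ R <;> by_cases b2 : w ∈ R
          · have := cut_erase_of_not D W R (s i, w) (by simp [b2])
            simp only [b1, b2, if_true] at a1
            omega
          · simp only [b1, b2, if_true, if_false] at a1
            omega
          · have := cut_erase_of_not D W R (s i, w) (by simp [b1])
            simp only [b1, b2, if_true, if_false] at a1
            have hnc : ¬ cut D W R ≤ dem k s R := fun h => hwC (hsub R hR b1 h b2)
            omega
          · have := cut_erase_of_not D W R (s i, w) (by simp [b1])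
            simp only [b1, b2, if_false] at a1
            omega)
      obtain ⟨q1, q2, q3, q4⟩ := hP i hi
      rw [Function.update_self] at q1
      have hQ : ∃ Q : List V, Q.head? = some (s i) ∧ Q.getLast? = some z ∧ Q.Nodup ∧
          ∀ e ∈ arcsOf Q, e = (s i, w) ∨ e ∈ arcsOf (P i) := by
        by_cases hm : s i ∈ P i
        · obtain ⟨Q, r1, r2, r3, r4⟩ := exists_suffix (s i) (P i) hm q3
          exact ⟨Q, r1, r2.trans q2, r3, fun e he => Or.inr (r4 e he)⟩
        · cases hPi : P i with
          | nil => simp [hPi] at q1
          | cons a L =>
            rw [hPi] at q1 q2 q3 hm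
            simp only [List.head?_cons, Option.some.injEq] at q1
            subst q1
            refine ⟨s i :: a :: L, rfl, by rw [List.getLast?_cons_cons]; exact q2,
              List.nodup_cons.2 ⟨hm, q3⟩, ?_⟩
            intro e he
            rw [arcsOf_cons_cons] at he
            exact List.mem_cons.1 he
      obtain ⟨Q, r1, r2, r3, r4⟩ := hQ
      have hne : ∀ j < k, (s i, w) ∉ arcsOf (P j) := by
        intro j hj h
        have := (hP j hj).2.2.2 _ h
        simp at this
      refine ⟨Function.update P i Q, ?_, ?_⟩
      · intro j hj
        by_cases h : j = i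
        · subst h
          rw [Function.update_self]
          refine ⟨r1, r2, r3, fun e he => ?_⟩
          rcases r4 e he with rfl | h
          · exact heD
          · exact (mem_erase.1 (q4 e h)).2
        · rw [Function.update_of_ne h]
          obtain ⟨t1, t2, t3, t4⟩ := hP j hj
          rw [Function.update_of_ne h] at t1
          exact ⟨t1, t2, t3, fun e he => (mem_erase.1 (t4 e he)).2⟩
      · intro a ha b hb hab e he
        by_cases h : a = i
        · subst h
          rw [Function.update_self] at he
          rw [Function.update_of_ne hab.symm]
          rcases r4 e he with rfl | h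
          · exact hne b hb
          · exact hPP a ha b hb hab e h
        · rw [Function.update_of_ne h] at he
          by_cases h' : b = i
          · subst h'
            rw [Function.update_self]
            intro he'
            rcases r4 e he' with rfl | h''
            · exact hne a ha he
            · exact hPP a ha b hb hab e he h''
          · rw [Function.update_of_ne h']
            exact hPP a ha b hb hab e he

end Pool.Agent.MP_b9875a_co.H99
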