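import Pool.Agent.MP_b9875a_co.H99.Add

set_option autoImplicit false

namespace Pool.Agent.MP_b9875a_co.H99.PL

open Finset

variable {V : Type} [DecidableEq V]

namespace Sta

variable {σ : Sta V} {N K L b n : ℕ}

lemma cut_lanes (t : σ.Tok) {H : Finset (V × V)} (hH : H ⊆ σ.D) {T1 : Finset (ℕ × ℕ)}
    (hT : T1 ⊆ σ.T) (U : Finset V) :
    cutA H U + (T1.filter (fun τ => σ.tl τ ∈ U ∧ σ.ds τ ∉ U)).card ≤
      cutA (H ∪ T1.biUnion σ.ln) U := by
  have h1 : ∀ τ, ∃ e, τ ∈ T1.filter (fun τ => σ.tl τ ∈ U ∧ σ.ds τ ∉ U) →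
      e ∈ σ.ln τ ∧ e.1 ∈ U ∧ e.2 ∉ U := by
    intro τ
    by_cases a : τ ∈ T1.filter (fun τ => σ.tl τ ∈ U ∧ σ.ds τ ∉ U)
    · have b := mem_filter.1 a
      obtain ⟨e, he⟩ := (t.rch τ (hT b.1)).cross U b.2.1 b.2.2
      exact ⟨e, fun _ => he⟩
    · exact ⟨(σ.tl τ, σ.tl τ), fun b => absurd b a⟩
  choose f hf using h1
  have h2 : (T1.filter (fun τ => σ.tl τ ∈ U ∧ σ.ds τ ∉ U)).card ≤ cutA (T1.biUnion σ.ln) U := by
    refine card_le_card_of_injOn f (fun τ hτ => ?_) (fun τ hτ τ' hτ' e => ?_)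
    · have a := mem_coe.1 hτ
      exact mem_coe.2 (mem_filter.2 ⟨mem_biUnion.2 ⟨τ, (mem_filter.1 a).1, (hf τ a).1⟩,
        (hf τ a).2⟩)
    · have a := mem_coe.1 hτ
      have a' := mem_coe.1 hτ'
      by_contra hne
      exact disjoint_left.1 (t.dd τ (hT (mem_filter.1 a).1) τ' (hT (mem_filter.1 a').1) hne)
        (hf τ a).1 (e ▸ (hf τ' a').1)
  have h3 : Disjoint H (T1.biUnion σ.ln) := (disjoint_biUnion_right _ _ _).2
    (fun τ hτ => ((t.dD τ (hT hτ)).mono_right hH).symm)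
  unfold cutA at h2 ⊢
  rw [filter_union, card_union_of_disjoint (disjoint_filter_filter h3)]
  omega

lemma reserve [Fintype V] (flow : FlowStmt) (hK : 1 ≤ K) (hL : 3 * N + 7 < 2 ^ L)
    (Y : Finset V) (a r m : ℕ) (G : σ.Good N K L (b + (3 * m + Y.card + 2)) n)
    (ha : 1 ≤ a) (ham : a ≤ m) (hr : 1 ≤ r) (hg : 8 * K * L ≤ r * m)
    (hY : ∀ y ∈ Y, r * a ≤ σ.pend y) :
    ∃ (H : Finset (V × V)) (σ' : Sta V), Linker H σ.alive Y a ∧ σ'.Good N K L b n ∧
      σ'.alive = σ.alive ∧ (∀ x, x ∉ Y → σ.pend x ≤ σ'.pend x) ∧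
      (∀ x, σ.pend x ≤ σ'.pend x + r * a) ∧ ∀ F, σ.Av F → H ⊆ F ∧ σ'.Av (F \ H) := by
  have h1 : ∀ y, ∃ C, C ⊆ σ.T.filter (fun τ => σ.ds τ = y) ∧
      C.card = if y ∈ Y then r * a else 0 := fun y =>
    exists_subset_card_eq (by
      split_ifs with e
      · exact hY y e
      · exact Nat.zero_le _)
  choose Ty hT1 hT2 using h1
  set T1 := Y.biUnion Ty with hT
  have hTs : T1 ⊆ σ.T := biUnion_subset.2 (fun y _ => (hT1 y).trans (filter_subset _ _))
  have hTd : ∀ y ∈ Y, ∀ y' ∈ Y, y ≠ y' → Disjoint (Ty y) (Ty y') := by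
    intro y _ y' _ hne
    rw [disjoint_left]
    intro τ p q
    exact hne ((mem_filter.1 (hT1 y p)).2.symm.trans (mem_filter.1 (hT1 y' q)).2)
  have hfil : ∀ (P : ℕ × ℕ → Prop) [DecidablePred P],
      (T1.filter P).card = ∑ y ∈ Y, ((Ty y).filter P).card := by
    intro P _
    rw [hT, filter_biUnion, card_biUnion]
    exact fun y hy y' hy' hne => disjoint_filter_filter (hTd y hy y' hy' hne)
  have hsplit : ∀ (P : ℕ × ℕ → Prop) [DecidablePred P],
      (σ.T.filter P).card = ((σ.T \ T1).filter P).card + (T1.filter P).card := by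
    intro P _
    rw [← card_union_of_disjoint (disjoint_filter_filter sdiff_disjoint), ← filter_union,
      sdiff_union_of_subset hTs]
  set D : Dat V := ⟨σ.S, σ.out, σ.c, fun X => ((σ.T \ T1).filter (fun τ => σ.tl τ ∉ X)).card,
    fun X => ∑ y ∈ Y, (a - ((Ty y).filter (fun τ => σ.tl τ ∈ X)).card), 8 * K * L, r, m, N + 1,
    Y.card⟩ with hD
  have hA : D.A = σ.alive := rfl
  have hyp : D.Hyp := by
    refine ⟨fun v => filter_subset _ _, fun v hv => ?_, hg, hr, ha.trans ham, fun X Z _ _ => ?_,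
      fun X Z _ _ => ?_, fun X Z h _ => ?_, fun X Z h _ => ?_, fun X h1 h2 => ?_,
      fun v hv => ?_, fun X => ?_⟩
    · have := G.tot v hv
      show σ.c v ≤ 8 * K * L
      omega
    · simp only [hD, Dat.K0, card_filter, ← sum_add_distrib]
      refine sum_le_sum (fun τ _ => ?_)
      by_cases p : σ.tl τ ∈ X <;> by_cases q : σ.tl τ ∈ Z <;> simp [p, q]
    · simp only [hD, Dat.K1, ← sum_add_distrib]
      refine sum_le_sum (fun y _ => ?_)
      have e1 : (Ty y).filter (fun τ => σ.tl τ ∈ X ∩ Z) =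
          (Ty y).filter (fun τ => σ.tl τ ∈ X) ∩ (Ty y).filter (fun τ => σ.tl τ ∈ Z) := by
        ext τ; simp only [mem_filter, mem_inter]; tauto
      have e2 : (Ty y).filter (fun τ => σ.tl τ ∈ X ∪ Z) =
          (Ty y).filter (fun τ => σ.tl τ ∈ X) ∪ (Ty y).filter (fun τ => σ.tl τ ∈ Z) := by
        ext τ; simp only [mem_filter, mem_union]; tauto
      have e3 := card_union_add_card_inter ((Ty y).filter (fun τ => σ.tl τ ∈ X))
        ((Ty y).filter (fun τ => σ.tl τ ∈ Z))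
      have e4 := card_le_card (inter_subset_left (s₁ := (Ty y).filter (fun τ => σ.tl τ ∈ X))
        (s₂ := (Ty y).filter (fun τ => σ.tl τ ∈ Z)))
      have e5 := card_le_card (inter_subset_right (s₁ := (Ty y).filter (fun τ => σ.tl τ ∈ X))
        (s₂ := (Ty y).filter (fun τ => σ.tl τ ∈ Z)))
      rw [e1, e2]
      omega
    · exact card_le_card (fun τ hτ => mem_filter.2
        ⟨(mem_filter.1 hτ).1, fun e => (mem_filter.1 hτ).2 (h e)⟩)
    · exact sum_le_sum (fun y _ => Nat.sub_le_sub_left (card_le_card (fun τ hτ => mem_filter.2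
        ⟨(mem_filter.1 hτ).1, h (mem_filter.1 hτ).2⟩)) _)
    · refine le_trans ?_ (G.adm X h1 h2)
      unfold ph
      rw [hsplit, hfil]
      refine Nat.add_le_add_left ?_ _
      show r * ∑ y ∈ Y, _ ≤ _
      rw [mul_sum]
      refine sum_le_sum (fun y hy => ?_)
      have e1 := card_filter_add_card_filter_not (s := Ty y) (fun τ => σ.tl τ ∈ X)
      rw [hT2, if_pos hy] at e1
      rw [Nat.mul_sub]
      have e2 := Nat.le_mul_of_pos_left ((Ty y).filter (fun τ => σ.tl τ ∈ X)).card hr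
      omega
    · have p := mem_filter.1 hv
      have e1 := G.deg v p.1 p.2
      have e2 := G.tot v p.1
      have e3 := G.dead_le hK (L_pos hL)
      have e4 := card_sdiff_add_card_inter (σ.out v) σ.alive
      have e5 : (σ.out v \ σ.alive).card ≤ (σ.S \ σ.alive).card :=
        card_le_card (sdiff_subset_sdiff (filter_subset _ _) (Subset.refl _))
      show 3 * m + Y.card + 2 + 2 * (8 * K * L) + (N + 1) + 1 ≤ (σ.out v ∩ σ.alive).card
      omega
    · show ∑ y ∈ Y, _ ≤ Y.card * m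
      rw [← smul_eq_mul]
      exact sum_le_card_nsmul _ _ _ (fun y _ => (Nat.sub_le _ _).trans ham)
  obtain ⟨η, I⟩ := Dat.res hyp
  set H := σ.D.filter (fun e => e.2 ∈ η e.1) with hH
  have hHD : H ⊆ σ.D := filter_subset _ _
  set σ' : Sta V := ⟨σ.S, σ.D \ H, σ.T \ T1, σ.tl, σ.ds, σ.ln, σ.c, σ.mu, σ.be⟩ with hσ
  have hout : σ'.out = D.fr η := by
    funext v
    ext w
    simp only [hσ, hD, hH, out, Dat.fr, mem_filter, mem_sdiff]
    tauto
  have hcut : ∀ U : Finset V, ∑ v ∈ U, (η v \ U).card ≤ cutA H U := fun U =>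
    sum_card_le _ _ _ (fun v w => (v, w)) (fun _ _ _ _ e => Prod.ext_iff.1 e) (fun v hv w hw =>
      mem_filter.2 ⟨mem_filter.2 ⟨(mem_filter.1 (I.sub v (mem_sdiff.1 hw).1)).2,
        (mem_sdiff.1 hw).1⟩, hv, (mem_sdiff.1 hw).2⟩)
  refine ⟨H ∪ T1.biUnion σ.ln, σ', fun ι T s c p1 p2 p3 p4 p5 => flow V ι _ T s c (fun U => ?_),
    ⟨⟨fun τ hτ => G.tok.tlS τ (mem_sdiff.1 hτ).1, fun τ hτ => G.tok.rch τ (mem_sdiff.1 hτ).1,
      fun τ hτ => (G.tok.dD τ (mem_sdiff.1 hτ).1).mono_right sdiff_subset,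
      fun τ hτ τ' hτ' => G.tok.dd τ (mem_sdiff.1 hτ).1 τ' (mem_sdiff.1 hτ').1⟩,
      fun τ hτ => G.nm τ (mem_sdiff.1 hτ).1, G.nN, G.tot, fun v hv => ?_, G.smu,
      fun v hv hc => ?_, fun R p q => ?_, G.big, G.sbe, G.psi, G.belt⟩, rfl, fun x hx => ?_,
    fun x => ?_, fun F hF => ⟨union_subset (hHD.trans hF.1)
      (biUnion_subset.2 (fun τ hτ => hF.2 τ (hTs hτ))), ?_, fun τ hτ => ?_⟩⟩
  · have c1 := cut_lanes G.tok hHD hTs U
    have c2 := hcut U
    by_cases e : Y.card ≤ (U ∩ σ.alive).card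
    · have e1 : U ∩ σ.S ∩ σ.alive = U ∩ σ.alive := by
        have e0 : σ.alive ⊆ σ.S := filter_subset _ _
        rw [inter_assoc, inter_eq_right.2 e0]
      have e2 : ∑ y ∈ Y, (a - ((Ty y).filter (fun τ => σ.tl τ ∈ U ∩ σ.S)).card) ≤
          vl (D.K1 0).c η (U ∩ σ.S) + 0 :=
        I.adm1 (U ∩ σ.S) ⟨inter_subset_right, by
          show Y.card ≤ (U ∩ σ.S ∩ σ.alive).card
          rwa [e1]⟩
      have e3 : vl (D.K1 0).c η (U ∩ σ.S) ≤ ∑ v ∈ U, (η v \ U).card := by
        refine le_trans (sum_le_sum (fun v _ => (min_le_right _ _).trans (card_le_card ?_)))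
          (sum_le_sum_of_subset (inter_subset_left (s₂ := σ.S)))
        intro w hw
        have := mem_sdiff.1 hw
        exact mem_sdiff.2 ⟨this.1, fun e => this.2
          (mem_inter.2 ⟨e, hyp.out_sub v (I.sub v this.1)⟩)⟩
      have e4 : ∑ y ∈ Y, c y ≤ ∑ y ∈ Y, ((a - ((Ty y).filter (fun τ => σ.tl τ ∈ U ∩ σ.S)).card) +
          ((Ty y).filter (fun τ => σ.tl τ ∈ U ∧ σ.ds τ ∉ U)).card +
          if y ∈ U then c y else 0) := by
        refine sum_le_sum (fun y _ => ?_)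
        by_cases u : y ∈ U
        · rw [if_pos u]; omega
        · have f1 : (Ty y).filter (fun τ => σ.tl τ ∈ U ∩ σ.S) ⊆
              (Ty y).filter (fun τ => σ.tl τ ∈ U ∧ σ.ds τ ∉ U) := fun τ hτ => by
            have g := mem_filter.1 hτ
            exact mem_filter.2 ⟨g.1, (mem_inter.1 g.2).1,
              by rw [(mem_filter.1 (hT1 y g.1)).2]; exact u⟩
          have f2 := card_le_card f1
          have f3 := p3 y
          omega
      rw [sum_add_distrib, sum_add_distrib, ← hfil, ← sum_filter] at e4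
      have e5 : ∑ y ∈ Y.filter (fun y => y ∈ U), c y ≤ ∑ y ∈ U, c y :=
        sum_le_sum_of_subset (fun y hy => (mem_filter.1 hy).2)
      have e6 := card_filter_le T (fun i => s i ∈ U)
      omega
    · have e1 : (T.filter (fun i => s i ∈ U)).card ≤
          ∑ v ∈ U ∩ σ.alive, (T.filter (fun i => s i = v)).card := by
        rw [sum_card_fiberwise_eq_card_filter]
        exact card_le_card (fun i hi => mem_filter.2 ⟨(mem_filter.1 hi).1,
          mem_inter.2 ⟨(mem_filter.1 hi).2, p1 i (mem_filter.1 hi).1⟩⟩)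
      have e2 : ∑ v ∈ U ∩ σ.alive, (T.filter (fun i => s i = v)).card ≤
          ∑ v ∈ U ∩ σ.alive, (η v \ U).card := by
        refine sum_le_sum (fun v hv => (p2 v).trans ?_)
        have f1 : 3 * m + Y.card + 2 ≤ (η v).card := I.ge v (mem_inter.1 hv).2
        have f2 : (η v \ σ.alive).card ≤ m + 1 := I.dead v
        have f3 : η v ⊆ (η v \ U) ∪ ((η v \ σ.alive) ∪ (U ∩ σ.alive)) := fun w hw => by
          simp only [mem_union, mem_sdiff, mem_inter]
          tauto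
        have f4 := (card_le_card f3).trans (card_union_le _ _)
        have f5 := card_union_le (η v \ σ.alive) (U ∩ σ.alive)
        omega
      have e3 : ∑ v ∈ U ∩ σ.alive, (η v \ U).card ≤ ∑ v ∈ U, (η v \ U).card :=
        sum_le_sum_of_subset inter_subset_left
      omega
  · exact le_trans (card_le_card (filter_subset_filter _ sdiff_subset)) (G.fi v hv)
  · have e1 := G.deg v hv hc
    have e2 : (η v).card ≤ 3 * m + Y.card + 2 := I.le v
    have e3 := le_card_sdiff (η v) (σ.out v)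
    rw [hout]
    show _ ≤ (σ.out v \ η v).card + σ.mu v + σ.be v
    omega
  · unfold val
    rw [hout]
    exact I.adm0 R ⟨p, by
      show N + 1 ≤ (R ∩ σ.S).card
      rwa [inter_eq_left.2 p]⟩
  · unfold pend
    rw [hsplit, hfil, sum_eq_zero (fun y hy => ?_)]
    · rfl
    · rw [card_eq_zero, filter_eq_empty_iff]
      exact fun τ hτ e => hx (e ▸ (mem_filter.1 (hT1 y hτ)).2 ▸ hy)
  · unfold pend
    rw [hsplit]
    refine Nat.add_le_add_left ?_ _
    have e1 : T1.filter (fun τ => σ.ds τ = x) ⊆ Ty x := fun τ hτ => by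
      obtain ⟨y, _, hy⟩ := mem_biUnion.1 (mem_filter.1 hτ).1
      rw [← (mem_filter.1 hτ).2, (mem_filter.1 (hT1 y hy)).2]
      exact hy
    refine (card_le_card e1).trans ?_
    rw [hT2]
    split_ifs <;> omega
  · intro e he
    have p := mem_sdiff.1 he
    refine mem_sdiff.2 ⟨hF.1 p.1, fun q => (mem_union.1 q).elim p.2 (fun q => ?_)⟩
    obtain ⟨τ, hτ, t⟩ := mem_biUnion.1 q
    exact disjoint_left.1 (G.tok.dD τ (hTs hτ)) t p.1
  · intro e he
    have p := mem_sdiff.1 hτ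
    refine mem_sdiff.2 ⟨hF.2 τ p.1 he, fun q => (mem_union.1 q).elim (fun q => ?_) (fun q => ?_)⟩
    · exact disjoint_left.1 (G.tok.dD τ p.1) he (hHD q)
    · obtain ⟨τ', hτ', t⟩ := mem_biUnion.1 q
      exact disjoint_left.1 (G.tok.dd τ p.1 τ' (hTs hτ') (fun e => p.2 (e ▸ hτ'))) he t

end Sta

theorem ta (flow : FlowStmt) : TAStmt := by
  intro V _ _ _ D N K L d hK hL hdeg
  have hL1 := Sta.L_pos hL
  refine ⟨fun A F p b n => ∃ σ : Sta V, σ.Good N K L b n ∧ A = σ.alive ∧ σ.Av F ∧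
    ∀ x, p x ≤ σ.pend x, ?_, ?_, ?_⟩
  · set σ : Sta V := ⟨univ, D, ∅, fun _ => Classical.arbitrary V, fun _ => Classical.arbitrary V,
      fun _ => ∅, fun _ => 8 * K * L, fun _ => 0, fun _ => 0⟩ with hσ
    have hout : ∀ v, (D.filter (fun e => e.1 = v)).card ≤ (σ.out v).card := fun v => by
      refine card_le_card_of_injOn (fun e => e.2) (fun e he => ?_) (fun e he e' he' h => ?_)
      · have a := mem_filter.1 (mem_coe.1 he)
        exact mem_coe.2 (mem_filter.2 ⟨mem_univ _, by rw [← a.2]; exact a.1⟩)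
      · exact Prod.ext ((mem_filter.1 (mem_coe.1 he)).2.trans
          (mem_filter.1 (mem_coe.1 he')).2.symm) h
    refine ⟨σ.alive, σ, ⟨⟨by simp [hσ], by simp [hσ], by simp [hσ], by simp [hσ]⟩, by simp [hσ],
      Nat.zero_le _, fun v _ => rfl, fun v _ => by simp [hσ, Sta.fi], by simp [hσ],
      fun v _ _ => ?_, fun R _ _ => by simp [hσ, Sta.ph], ?_, by simp [hσ], by simp [hσ, fw],
      fun v _ => ?_⟩, rfl, ⟨Subset.refl _, by simp [hσ]⟩, fun _ => Nat.zero_le _⟩
    · have := hout v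
      have := hdeg v
      omega
    · have a := hout (Classical.arbitrary V)
      have b := hdeg (Classical.arbitrary V)
      have c : (σ.out (Classical.arbitrary V)).card ≤ σ.S.card := card_filter_le _ _
      omega
    · show 0 < 4 * K * L
      positivity
  · rintro A F p b n ⟨σ, G, rfl, hF, hp⟩ hn
    obtain ⟨z, hz, σ', t1, t2, t3, t4, t5⟩ := Sta.add flow hK hL hn _ σ le_rfl G
    exact ⟨z, hz, σ'.alive, F, σ'.pend, t2, Subset.refl _, t3, fun x => (hp x).trans (t4 x),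
      σ', t1, rfl, t5 F hF, fun _ => le_rfl⟩
  · rintro A F p b n Y a r m ⟨σ, G, rfl, hF, hp⟩ _ ha ham hr hg hY
    obtain ⟨H, σ', t1, t2, t3, t4, t5, t6⟩ := Sta.reserve flow hK hL Y a r m G ha ham hr hg
      (fun y hy => (hY y hy).trans (hp y))
    exact ⟨H, σ'.alive, F \ H, σ'.pend, (t6 F hF).1, t1, t3.le, Subset.refl _,
      fun x hx => (hp x).trans (t4 x hx), fun x => (hp x).trans (t5 x),
      σ', t2, rfl, (t6 F hF).2, fun _ => le_rfl⟩

end Pool.Agent.MP_b9875a_co.H99.PL
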