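import Pool.Agent.MP_b9875a_co.H99.Focus

set_option autoImplicit false

namespace Pool.Agent.MP_b9875a_co.H99

open Finset

variable {V : Type} [DecidableEq V]

lemma ex_erase_le (D : Finset (V × V)) (W : Finset V) (v : V) (R : Finset V) (e : V × V) :
    ex D W v R ≤ ex (D.erase e) W v R + 1 := by
  unfold ex
  have : D.filter (fun e => e.1 = v ∧ e.2 ∈ W ∧ e.2 ∉ R) ⊆
      insert e ((D.erase e).filter (fun e => e.1 = v ∧ e.2 ∈ W ∧ e.2 ∉ R)) := by
    intro x hx
    by_cases h : x = e
    · simp [h]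
    · simp only [mem_insert, mem_filter, mem_erase] at hx ⊢
      exact Or.inr ⟨⟨h, hx.1⟩, hx.2⟩
  exact (card_le_card this).trans (card_insert_le _ _)

lemma ex_erase_of_not (D : Finset (V × V)) (W : Finset V) (v : V) (R : Finset V) (e : V × V)
    (h : ¬ (e.1 = v ∧ e.2 ∉ R)) : ex D W v R ≤ ex (D.erase e) W v R := by
  unfold ex
  apply card_le_card
  intro x hx
  simp only [mem_filter, mem_erase] at hx ⊢
  refine ⟨⟨?_, hx.1⟩, hx.2⟩
  rintro rfl
  exact h ⟨hx.2.1, hx.2.2.2⟩

lemma val_erase_le (D : Finset (V × V)) (W I : Finset V) (m : ℕ) (R : Finset V) (v w : V) :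
    val D W I m R ≤ val (D.erase (v, w)) W I m R + 1 := by
  by_cases hv : v ∈ R
  · unfold val
    rw [← add_sum_erase _ _ hv, ← add_sum_erase R _ hv]
    have h1 : ∑ x ∈ R.erase v, cap D W I m R x ≤
        ∑ x ∈ R.erase v, cap (D.erase (v, w)) W I m R x := by
      apply sum_le_sum
      intro x hx
      have := ex_erase_of_not D W x R (v, w) (fun h => (mem_erase.1 hx).1 h.1.symm)
      unfold cap
      split_ifs <;> omega
    have h2 : cap D W I m R v ≤ cap (D.erase (v, w)) W I m R v + 1 := by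
      have := ex_erase_le D W v R (v, w)
      unfold cap
      split_ifs <;> omega
    omega
  · have : val D W I m R ≤ val (D.erase (v, w)) W I m R := by
      apply sum_le_sum
      intro x hx
      have := ex_erase_of_not D W x R (v, w) (fun h => hv (by rw [← h.1] at hx; exact hx))
      unfold cap
      split_ifs <;> omega
    omega

lemma val_erase_of_not (D : Finset (V × V)) (W I : Finset V) (m : ℕ) (R : Finset V) (v w : V)
    (hI : v ∈ I) (h : ¬ (v ∈ R ∧ w ∉ R ∧ ex D W v R ≤ m)) :
    val D W I m R ≤ val (D.erase (v, w)) W I m R := by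
  apply sum_le_sum
  intro x hx
  unfold cap
  by_cases hxv : x = v
  · subst hxv
    simp only [hI, if_true]
    by_cases hw : w ∈ R
    · have := ex_erase_of_not D W x R (x, w) (fun h => h.2 hw)
      omega
    · have h1 : ¬ ex D W x R ≤ m := fun h' => h ⟨hx, hw, h'⟩
      have := ex_erase_le D W x R (x, w)
      omega
  · have := ex_erase_of_not D W x R (v, w) (fun h => hxv h.1.symm)
    split_ifs <;> omega

lemma ex_empty_le (D : Finset (V × V)) (W : Finset V) (v : V) (R J : Finset V) :
    ex D W v ∅ ≤ ex D W v R + ex D W v J + (R ∩ J).card := by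
  have h1 := ex_le_add D W v ∅ (R ∩ J)
  have h2 := ex_mod D W v R J
  rw [sdiff_empty] at h1
  omega

/-- The sparsification lemma. -/
lemma sparse (D : Finset (V × V)) (W J : Finset V) (z : V) (k m : ℕ)
    (hdeg : ∀ v ∈ J, 5 * m ≤ ex D W v ∅) (hJ : ∀ v ∈ J, ex D W v J ≤ 2 * m)
    (hval : ∀ R : Finset V, R ⊆ W.erase z → m ≤ (R ∩ J).card → k ≤ val D W J m R) :
    ∃ H : Finset (V × V), H ⊆ D ∧ (∀ v ∈ J, ex H W v ∅ = 5 * m) ∧
      ∀ R : Finset V, R ⊆ W.erase z → m ≤ (R ∩ J).card → k ≤ val H W J m R := by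
  classical
  have hex : (D.powerset.filter (fun H => (∀ v ∈ J, 5 * m ≤ ex H W v ∅) ∧
      ∀ R : Finset V, R ⊆ W.erase z → m ≤ (R ∩ J).card → k ≤ val H W J m R)).Nonempty :=
    ⟨D, by simp only [mem_filter, mem_powerset]; exact ⟨subset_rfl, hdeg, hval⟩⟩
  obtain ⟨H, hH, hHmin⟩ := exists_min_image _ Finset.card hex
  simp only [mem_filter, mem_powerset] at hH hHmin
  obtain ⟨hHD, hHdeg, hHval⟩ := hH
  refine ⟨H, hHD, ?_, hHval⟩
  intro v hv
  by_contra hne
  have hgt : 5 * m < ex H W v ∅ := lt_of_le_of_ne (hHdeg v hv) (Ne.symm hne)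
  have hvJ : ex H W v J ≤ 2 * m := (ex_mono hHD W v J).trans (hJ v hv)
  -- find a deletable arc
  have key : ∃ w, (v, w) ∈ H ∧ ∀ R : Finset V, R ⊆ W.erase z → m ≤ (R ∩ J).card →
      v ∈ R → ex H W v R ≤ m → val H W J m R ≤ k → w ∈ R := by
    have harc : ∀ R : Finset V, ex H W v R ≤ m → ∃ w, (v, w) ∈ H ∧ w ∈ R := by
      intro R hR
      by_contra hcon
      push Not at hcon
      have : ex H W v ∅ ≤ ex H W v R := by
        unfold ex
        apply card_le_card
        intro e he
        simp only [mem_filter] at he ⊢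
        refine ⟨he.1, he.2.1, he.2.2.1, hcon e.2 ?_⟩
        rw [← he.2.1]
        exact he.1
      omega
    by_cases hcrit : ((W.erase z).powerset.filter (fun R => m ≤ (R ∩ J).card ∧
      v ∈ R ∧ ex H W v R ≤ m ∧ val H W J m R ≤ k)).Nonempty
    · obtain ⟨R, hR, hRmin⟩ := exists_min_image _ Finset.card hcrit
      simp only [mem_filter, mem_powerset] at hR hRmin
      obtain ⟨hRW, hRJ, hvR, hRm, hRk⟩ := hR
      obtain ⟨w, hw, hwR⟩ := harc R hRm
      refine ⟨w, hw, ?_⟩
      intro R' hR'W hR'J hvR' hR'm hR'k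
      have h1 := ex_mod H W v R R'
      have h2 := ex_empty_le H W v (R ∩ R') J
      have h3 := hHval (R ∩ R') (inter_subset_left.trans hRW) (by omega)
      have h4 := hHval (R ∪ R') (union_subset hRW hR'W) (hRJ.trans (card_le_card
        (inter_subset_inter subset_union_left subset_rfl)))
      have h5 := val_submod H W J m R R'
      have h6 : ex H W v (R ∩ R') ≤ m := by
        by_contra hcon
        have := val_submod_strict H W J m R R' v hv hvR hvR' hRm hR'm (by omega)
        omega
      have h7 := hRmin (R ∩ R') ⟨inter_subset_left.trans hRW, by omega,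
        mem_inter.2 ⟨hvR, hvR'⟩, h6, by omega⟩
      have h8 : R ∩ R' = R := eq_of_subset_of_card_le inter_subset_left h7
      rw [← h8] at hwR
      exact (mem_inter.1 hwR).2
    · obtain ⟨w, hw, _⟩ := harc W (by
        have : ex H W v W = 0 := by
          unfold ex
          rw [card_eq_zero, filter_eq_empty_iff]
          rintro e _ ⟨_, h2, h3⟩
          exact h3 h2
        omega)
      refine ⟨w, hw, ?_⟩
      intro R' hR'W hR'J hvR' hR'm hR'k
      exact absurd ⟨R', by
        simp only [mem_filter, mem_powerset]; exact ⟨hR'W, hR'J, hvR', hR'm, hR'k⟩⟩ hcrit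
  obtain ⟨w, hw, hkey⟩ := key
  have hmin := hHmin (H.erase (v, w)) ⟨(erase_subset _ _).trans hHD, ?_, ?_⟩
  · have := card_erase_lt_of_mem hw
    omega
  · intro x hx
    by_cases hxv : x = v
    · subst hxv
      have := ex_erase_le H W x ∅ (x, w)
      omega
    · exact (hHdeg x hx).trans (ex_erase_of_not H W x ∅ (v, w) (fun h => hxv h.1.symm))
  · intro R hRW hRJ
    have h1 := hHval R hRW hRJ
    by_cases hc : v ∈ R ∧ w ∉ R ∧ ex H W v R ≤ m
    · have h2 : ¬ val H W J m R ≤ k := fun h => hc.2.1 (hkey R hRW hRJ hc.1 hc.2.2 h)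
      have := val_erase_le H W J m R v w
      omega
    · exact h1.trans (val_erase_of_not H W J m R v w hv hc)

/-- A sparse linker: any at most `k` distinct vertices of `J` are linked to `z`. -/
lemma linker (D : Finset (V × V)) (W : Finset V) (z : V) (k m : ℕ) (hm : 1 ≤ m)
    (hkm : k ≤ m * m) (hne : (W.erase z).Nonempty) (hdeg : ∀ v ∈ W, 5 * m ≤ ex D W v ∅)
    (hcut : ∀ R : Finset V, R ⊆ W.erase z → R.Nonempty → k ≤ cut D W R) :
    ∃ (J : Finset V) (H : Finset (V × V)), J ⊆ W.erase z ∧ J.Nonempty ∧ H ⊆ D ∧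
      (∀ v ∈ J, outd D W v ≤ outd (D \ H) J v + 7 * m) ∧
      ∀ (j : ℕ) (f : ℕ → V), j ≤ k → (∀ i < j, f i ∈ J) →
        (∀ i < j, ∀ i' < j, f i = f i' → i = i') →
        ∃ P : ℕ → List V, (∀ i < j, (P i).head? = some (f i) ∧ (P i).getLast? = some z ∧
          (P i).Nodup ∧ ∀ e ∈ arcsOf (P i), e ∈ H) ∧
        ∀ i < j, ∀ i' < j, i ≠ i' → ∀ e ∈ arcsOf (P i), e ∉ arcsOf (P i') := by
  obtain ⟨J, hJW, hJne, hJ, hval⟩ := focus D W z k m hm hkm hne hcut
  obtain ⟨H, hHD, hHdeg, hHval⟩ := sparse D W J z k m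
    (fun v hv => hdeg v (mem_erase.1 (hJW hv)).2) hJ hval
  refine ⟨J, H, hJW, hJne, hHD, ?_, ?_⟩
  · intro v hv
    have h1 := hHdeg v hv
    have h2 := hJ v hv
    have : outd D W v ≤ outd (D \ H) J v + ex H W v ∅ + ex D W v J := by
      unfold outd ex
      refine le_trans (card_le_card ?_) ((card_union_le _ _).trans
        (Nat.add_le_add_right (card_union_le _ _) _))
      intro e he
      simp only [mem_filter, mem_union, mem_sdiff, notMem_empty, not_false_eq_true,
        and_true] at he ⊢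
      by_cases a : e.2 ∈ J
      · by_cases b : e ∈ H
        · exact Or.inl (Or.inr ⟨b, he.2⟩)
        · exact Or.inl (Or.inl ⟨⟨he.1, b⟩, he.2.1, a⟩)
      · exact Or.inr ⟨he.1, he.2.1, he.2.2, a⟩
    omega
  · intro j f hj hf hinj
    refine menger W z j _ H f rfl (fun i hi => (mem_erase.1 (hJW (hf i hi))).2) ?_
    intro R hR
    by_cases hRJ : m ≤ (R ∩ J).card
    · have h1 := hHval R hR hRJ
      have h2 := val_le_cut H W J m R
      have h3 : dem j f R ≤ j := (card_filter_le _ _).trans (by simp)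
      omega
    · have h1 : dem j f R ≤ (R ∩ J).card := by
        unfold dem
        apply card_le_card_of_injOn f
        · intro i hi
          simp only [coe_filter, mem_range, Set.mem_ofPred_eq] at hi
          simp only [coe_inter, Set.mem_inter_iff, mem_coe]
          exact ⟨hi.2, hf i hi.1⟩
        · intro a ha b hb hab
          simp only [coe_filter, mem_range, Set.mem_ofPred_eq] at ha hb
          exact hinj a ha.1 b hb.1 hab
      have h2 : (R ∩ J).card ≤ cut H W R := by
        rw [cut_eq_sum_ex, card_eq_sum_ones]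
        refine le_trans (sum_le_sum ?_) (sum_le_sum_of_subset inter_subset_left)
        intro v hv
        have hvJ := (mem_inter.1 hv).2
        have a1 := ex_empty_le H W v R J
        have a2 := hHdeg v hvJ
        have a3 := (ex_mono hHD W v J).trans (hJ v hvJ)
        omega
      omega

end Pool.Agent.MP_b9875a_co.H99
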