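import Mathlib

set_option autoImplicit false

namespace Pool.Agent.MP_b9875a_co.H99.PL

open Finset

section defs

variable {V : Type} [DecidableEq V]

/-- `b` can be reached from `a` along arcs of `A` -/
def Rch (A : Finset (V × V)) (a b : V) : Prop :=
  Relation.ReflTransGen (fun x y => (x, y) ∈ A) a b

/-- number of arcs of `A` that leave `U` -/
def cutA (A : Finset (V × V)) (U : Finset V) : ℕ :=
  (A.filter (fun e => e.1 ∈ U ∧ e.2 ∉ U)).card

/-- Tokens `i ∈ T` placed at `s i` are routed inside `H` by pairwise disjoint arc sets,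
with at most `c v` of them ending at `v`. -/
def Routed {ι : Type} (H : Finset (V × V)) (T : Finset ι) (s : ι → V) (c : V → ℕ) : Prop :=
  ∃ (e : ι → V) (P : ι → Finset (V × V)),
    (∀ i ∈ T, P i ⊆ H ∧ Rch (P i) (s i) (e i)) ∧
    (∀ i ∈ T, ∀ j ∈ T, i ≠ j → Disjoint (P i) (P j)) ∧
    ∀ v, (T.filter (fun i => e i = v)).card ≤ c v

/-- `H` links any tokens on `A` (at most `a` per vertex) to any demands on `Y` (at most `a` per
vertex) whose total is at least the number of tokens. -/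
def Linker (H : Finset (V × V)) (A Y : Finset V) (a : ℕ) : Prop :=
  ∀ (ι : Type) (T : Finset ι) (s : ι → V) (c : V → ℕ),
    (∀ i ∈ T, s i ∈ A) → (∀ v, (T.filter (fun i => s i = v)).card ≤ a) →
    (∀ y, c y ≤ a) → (∀ y, y ∉ Y → c y = 0) → T.card ≤ ∑ y ∈ Y, c y → Routed H T s c

/-- The abstract machine: `I A F p b n` means alive set `A`, available arcs `F`, pending tokens
`p`, budget `b`, and `n` nodes added so far. -/
def Mach (D : Finset (V × V)) (N K g d : ℕ) : Prop :=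
  ∃ I : Finset V → Finset (V × V) → (V → ℕ) → ℕ → ℕ → Prop,
    (∃ A, I A D (fun _ => 0) d 0) ∧
    (∀ A F p b n, I A F p (b + 1) n → n < N →
      ∃ z ∈ A, ∃ A' F' p', A' ⊆ A.erase z ∧ F' ⊆ F ∧ K ≤ p' z ∧ (∀ x, p x ≤ p' x) ∧
        I A' F' p' b (n + 1)) ∧
    (∀ A F p b n (Y : Finset V) (a r m : ℕ), I A F p (b + (3 * m + Y.card + 2)) n →
      Y.Nonempty → 1 ≤ a → a ≤ m → 1 ≤ r → g ≤ r * m → (∀ y ∈ Y, r * a ≤ p y) →
      ∃ H A' F' p', H ⊆ F ∧ Linker H A Y a ∧ A' ⊆ A ∧ F' ⊆ F \ H ∧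
        (∀ x, x ∉ Y → p x ≤ p' x) ∧ (∀ x, p x ≤ p' x + r * a) ∧ I A' F' p' b n)

end defs

/-- Menger's theorem with absorbers. -/
def FlowStmt : Prop :=
  ∀ (V : Type) [Fintype V] [DecidableEq V] (ι : Type) (A : Finset (V × V)) (T : Finset ι)
    (s : ι → V) (c : V → ℕ),
    (∀ U : Finset V, (T.filter (fun i => s i ∈ U)).card ≤ cutA A U + ∑ v ∈ U, c v) →
    Routed A T s c

/-- Random sign projection. -/
def ProjStmt : Prop :=
  ∀ (Y Q : Type) [Fintype Y] [Fintype Q] (l : ℕ) (x : Y → Q → ℝ),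
    Fintype.card Y ≤ 2 ^ l → Fintype.card Q ≤ 2 ^ l →
    ∃ r : Q → ℝ,
      (∑ y, ∑ q, x y q ^ 2) ≤ 2 * ∑ y, (∑ q, x y q * r q) ^ 2 ∧
      ∀ y y', (∑ q, (x y q - x y' q) * r q) ^ 2 ≤
        6 * ((l : ℝ) + 1) * ∑ q, (x y q - x y' q) ^ 2

/-- The machine builds a transitive tournament. -/
def NetStmt : Prop :=
  ∀ (V : Type) [Fintype V] [DecidableEq V] (D : Finset (V × V)) (l M N K g d : ℕ),
    Mach D N K g d →
    100 * (l + 1) ^ 4 * 2 ^ l ≤ N → 2000 * (l + 1) ^ 4 * 2 ^ l ≤ K →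
    400 * (l + 1) ^ 2 ≤ M → g ≤ M * 2 ^ l → 2000 * (l + 1) ^ 4 * M * 2 ^ l ≤ d →
    ∃ f : Fin (2 ^ l) → V, Function.Injective f ∧
      ∃ P : Fin (2 ^ l) → Fin (2 ^ l) → Finset (V × V),
        (∀ i j, i < j → P i j ⊆ D ∧ Rch (P i j) (f i) (f j)) ∧
        ∀ i j i' j', i < j → i' < j' → (i, j) ≠ (i', j') → Disjoint (P i j) (P i' j')

/-- Large minimum out-degree gives a machine. -/
def TAStmt : Prop :=
  ∀ (V : Type) [Fintype V] [DecidableEq V] [Nonempty V] (D : Finset (V × V)) (N K L d : ℕ),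
    1 ≤ K → 3 * N + 7 < 2 ^ L →
    (∀ v, d + 4 * (8 * K * L) + 4 * N + 4 ≤ (D.filter (fun e => e.1 = v)).card) →
    Mach D N K (8 * K * L) d

/-- The final statement. -/
def FinalStmt : Prop :=
  ∃ c : ℝ, 0 < c ∧ ∀ k : ℕ, 1 ≤ k → ∀ (V : Type) [Fintype V] [Nonempty V] (G : Digraph V),
    (∀ v, c * (k : ℝ) * (1 + Real.log k) ^ 9 ≤ (({w | G.Adj v w} : Set V).ncard : ℝ)) →
    ∃ f : Fin k → V, Function.Injective f ∧ ∃ P : Fin k → Fin k → List V,
      (∀ i j : Fin k, i < j →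
        (P i j).head? = some (f i) ∧ (P i j).getLast? = some (f j) ∧ (P i j).Nodup ∧
        ∀ a b : V, (a, b) ∈ (P i j).zip (P i j).tail → G.Adj a b) ∧
      (∀ i j i' j' : Fin k, i < j → i' < j' → (i, j) ≠ (i', j') →
        ∀ a b : V, (a, b) ∈ (P i j).zip (P i j).tail → (a, b) ∉ (P i' j').zip (P i' j').tail)

end Pool.Agent.MP_b9875a_co.H99.PL
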