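import Mathlib

set_option autoImplicit false

namespace Pool.Agent.MP_b9875a_co.H99.LN

open Finset

section basic

variable {V α : Type} [DecidableEq V]

/-- number of members of `T` that `f` sends to `v` -/
def cnt (T : Finset α) (f : α → V) (v : V) : ℕ := (T.filter (fun a => f a = v)).card

/-- number of arcs of `D` from `v` that leave `X` -/
def ex (tl hd : α → V) (D : Finset α) (v : V) (X : Finset V) : ℕ :=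
  (D.filter (fun a => tl a = v ∧ hd a ∉ X)).card

/-- capped cut value -/
def mval (c : V → ℕ) (tl hd : α → V) (D : Finset α) (X : Finset V) : ℕ :=
  ∑ v ∈ X, min (c v) (ex tl hd D v X)

/-- `y` can be reached from `x` along named arcs satisfying `P` -/
def NR (tl hd : α → V) (P : α → Prop) (x y : V) : Prop :=
  Relation.ReflTransGen (fun a b => ∃ e, P e ∧ tl e = a ∧ hd e = b) x y

/-- every large set has enough capped exits for the demand outside it -/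
def Adm (S : Finset V) (θ : ℕ) (dem c : V → ℕ) (tl hd : α → V) (D : Finset α) : Prop :=
  ∀ X, X ⊆ S → θ ≤ X.card → ∑ v ∈ S \ X, dem v ≤ mval c tl hd D X

end basic

/-- Menger's theorem with absorbers for named arcs. -/
def MengerStmt : Prop :=
  ∀ (N α ι : Type) [Fintype N] [DecidableEq N] [DecidableEq α] (tl hd : α → N) (A : Finset α)
    (T : Finset ι) (s : ι → N) (c : N → ℕ),
    (∀ U : Finset N, (T.filter (fun i => s i ∈ U)).card ≤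
      (A.filter (fun a => tl a ∈ U ∧ hd a ∉ U)).card + ∑ v ∈ U, c v) →
    ∃ (e : ι → N) (P : ι → Finset α),
      (∀ i ∈ T, P i ⊆ A ∧ NR tl hd (fun a => a ∈ P i) (s i) (e i) ∧
        ∀ v, cnt (P i) tl v + (if e i = v then 1 else 0) =
          cnt (P i) hd v + (if s i = v then 1 else 0)) ∧
      (∀ i ∈ T, ∀ j ∈ T, i ≠ j → Disjoint (P i) (P j)) ∧
      ∀ v, cnt T e v ≤ c v

/-- A cheapest flow with a given boundary has potentials. -/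
def PotStmt : Prop :=
  ∀ (N α : Type) [Fintype N] [DecidableEq N] [DecidableEq α] (tl hd : α → N) (A G0 : Finset α)
    (w : α → ℕ), G0 ⊆ A →
    ∃ G, G ⊆ A ∧ (∀ v, cnt G tl v + cnt G0 hd v = cnt G hd v + cnt G0 tl v) ∧
      ∃ π : N → ℕ, (∀ a ∈ G, π (tl a) + w a ≤ π (hd a)) ∧
        ∀ a ∈ A, a ∉ G → π (hd a) ≤ π (tl a) + w a

/-- Safe tree growth. -/
def ELStmt : Prop :=
  ∀ (N α : Type) [Fintype N] [DecidableEq N] [DecidableEq α] (tl hd : α → N) (D : Finset α)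
    (c : N → ℕ) (Lg : Finset N → Prop) (p : Finset N → ℕ) (U0 : Finset N) (o : N),
    Lg univ → (∀ X Y, X ⊆ Y → Lg X → Lg Y) →
    (∀ X Y, p X + p Y ≤ p (X ∩ Y) + p (X ∪ Y)) → (∀ X Y, X ⊆ Y → p Y ≤ p X) →
    (∀ x, (1 ≤ c x ∨ x = o) → ∀ Y, x ∈ Y → ¬ Lg Y → 2 * c x < ex tl hd D x Y) →
    (∀ X, Lg X → p X + (if Disjoint X U0 then 1 else 0) ≤ mval c tl hd D X) →
    ∃ F, F ⊆ D ∧ (∃ y ∈ U0, NR tl hd (fun a => a ∈ F) o y) ∧ (∀ v, cnt F tl v ≤ 1) ∧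
      ∀ X, Lg X → p X ≤ mval c tl hd (D \ F) X

/-- Pebbles are moved into `Al` (or onto their target token), the other tokens into `Z`. -/
def PDiveStmt : Prop :=
  ∀ (V α ι κ : Type) [Fintype V] [DecidableEq V] [DecidableEq α] [DecidableEq ι] [DecidableEq κ]
    (tl hd : α → V) (D : Finset α) (S Z Al : Finset V) (c : V → ℕ) (θ : ℕ)
    (T : Finset ι) (pos : ι → V) (Pb : Finset κ) (og : κ → V) (tg : κ → ι),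
    Al ⊆ Z → Z ⊆ S → θ ≤ Z.card → (∀ a ∈ D, tl a ∈ S ∧ hd a ∈ S) → (∀ i ∈ T, pos i ∈ S) →
    (∀ p ∈ Pb, og p ∈ S ∧ og p ∉ Al ∧ tg p ∈ T) →
    (∀ p ∈ Pb, ∀ p' ∈ Pb, tg p = tg p' → p = p') →
    (∀ v ∈ S, (1 ≤ c v ∨ ∃ p ∈ Pb, og p = v) → ∀ X, X ⊆ S → X.card < θ →
      2 * c v + Pb.card < ex tl hd D v X) →
    Adm S θ (cnt T pos) c tl hd D →
    ∃ (ow : α → Option (κ ⊕ ι)) (en : κ → V) (Hj : Finset κ) (np : ι → V),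
      Hj ⊆ Pb ∧
      (∀ p ∈ Pb, NR tl hd (fun a => a ∈ D ∧ (tl a ∉ Al ∨ hd a ∉ Z) ∧ ow a = some (Sum.inl p))
        (og p) (en p)) ∧
      (∀ p ∈ Hj, en p = pos (tg p)) ∧ (∀ p ∈ Pb, p ∉ Hj → en p ∈ Al) ∧
      (∀ i ∈ T, i ∉ Hj.image tg → np i ∈ Z ∧ (pos i ∈ Z → np i = pos i) ∧
        NR tl hd (fun a => a ∈ D ∧ (tl a ∉ Al ∨ hd a ∉ Z) ∧ ow a = some (Sum.inr i))
          (np i) (pos i)) ∧
      ∀ v ∈ Z, cnt (T.filter (fun i => i ∉ Hj.image tg ∧ pos i ∉ Z)) np v ≤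
        if v ∈ Al then ex tl hd D v Z else c v

/-- If no vertex can become a target, two cheap large sets are almost disjoint. -/
def TL2Stmt : Prop :=
  ∀ (V α : Type) [DecidableEq V] (tl hd : α → V) (D : Finset α) (S : Finset V)
    (c dem : V → ℕ) (θ K : ℕ), 1 ≤ K → (∀ a ∈ D, hd a ∈ S) →
    (∀ v ∈ S, c v = 0 ∨ 12 * K ≤ c v) → (S.filter (fun v => c v = 0)).card < θ → θ ≤ S.card →
    (∀ v ∈ S, 1 ≤ c v → ∀ X, X ⊆ S → X.card < θ → 24 * K ≤ ex tl hd D v X) →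
    Adm S θ dem (fun v => min (c v) K) tl hd D →
    (∀ z ∈ S, 1 ≤ c z → ∃ R, R ⊆ S ∧ θ ≤ R.card ∧ z ∉ R ∧
      mval c tl hd D R < ∑ v ∈ S \ R, dem v + K) →
    ∃ X Y, X ⊆ S ∧ Y ⊆ S ∧ θ ≤ X.card ∧ θ ≤ Y.card ∧ (X ∩ Y).card < θ ∧
      mval c tl hd D X ≤ ∑ v ∈ S \ X, dem v + 10 * K ∧
      mval c tl hd D Y ≤ ∑ v ∈ S \ Y, dem v + 10 * K

/-- Lowering the caps succeeds or meets a tight set. -/
def LowerStmt : Prop :=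
  ∀ (V α : Type) [DecidableEq V] (tl hd : α → V) (D : Finset α) (S : Finset V)
    (dem c ct : V → ℕ) (θ : ℕ), (∀ a ∈ D, hd a ∈ S) → (∀ v, ct v ≤ c v) →
    Adm S θ dem c tl hd D →
    Adm S θ dem ct tl hd D ∨ ∃ (c2 : V → ℕ) (Z : Finset V), (∀ v, ct v ≤ c2 v ∧ c2 v ≤ c v) ∧
      Adm S θ dem c2 tl hd D ∧ Z ⊆ S ∧ Z ≠ S ∧ θ ≤ Z.card ∧
      mval c2 tl hd D Z ≤ ∑ v ∈ S \ Z, dem v ∧
      ∀ v ∈ Z, ex tl hd D v Z < c2 v → c2 v = c v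

/-- obligations: each one owns a path of the host digraph -/
inductive Ob (V : Type) : Type
  | arc (a : V × V) : Ob V
  | tok (τ : ℕ × ℕ) : Ob V
  | peb (p : ℕ) : Ob V
  | dang : Ob V
  | done (j i : ℕ) : Ob V

/-- the state -/
structure St (V : Type) : Type where
  S : Finset V
  D : Finset (V × V)
  H : Finset (V × V)
  hd : V × V → V
  c : V → ℕ
  mu : V → ℕ
  be : V → ℕ
  acc : V → ℕ
  u : V → ℕ
  T : Finset (ℕ × ℕ)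
  B : Finset (ℕ × ℕ)
  bs : ℕ × ℕ → V
  Un : Finset ℕ
  Cn : Finset ℕ
  Ar : Finset ℕ
  og : ℕ → V
  dg : Option (V × V)
  Need : Finset ℕ
  z : ℕ → V

section state

variable {V : Type}

/-- `Req m σ o x y`: obligation `o` is active and asks for a path from `x` to `y` -/
def Req (m : ℕ) (σ : St V) : Ob V → V → V → Prop
  | Ob.arc a, x, y => (a ∈ σ.D ∨ a ∈ σ.H) ∧ x = a.1 ∧ y = σ.hd a
  | Ob.tok τ, x, y => τ ∈ σ.T ∧ x = σ.bs τ ∧ y = σ.z τ.1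
  | Ob.peb p, x, y => (p ∈ σ.Un ∨ p ∈ σ.Cn ∨ p ∈ σ.Ar) ∧ x = σ.z (m - 1) ∧ y = σ.og p
  | Ob.dang, x, y => σ.dg = some (x, y)
  | Ob.done j i, x, y => i < j ∧ j < m ∧ (j + 1 < m ∨ i ∉ σ.Need) ∧ x = σ.z j ∧ y = σ.z i

/-- all obligations are realised by arc-disjoint walks of `E` -/
def Rlz (E : V → V → Prop) (m : ℕ) (σ : St V) : Prop :=
  ∃ own : V → V → Ob V, ∀ o x y, Req m σ o x y →
    Relation.ReflTransGen (fun a b => E a b ∧ own a b = o) x y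

/-- every realisation of `σ` gives one of `σ'` -/
def Sim (m : ℕ) (σ : St V) (m' : ℕ) (σ' : St V) : Prop :=
  ∀ E : V → V → Prop, Rlz E m σ → Rlz E m' σ'

/-- number of dangling pairs -/
def dgn : Option (V × V) → ℕ
  | none => 0
  | some _ => 1

/-- the measure of a fan -/
def meas (σ : St V) : ℕ := σ.Need.card + σ.Un.card

/-- free capacity -/
def cap (σ : St V) (v : V) : ℕ := σ.c v - σ.acc v

variable [DecidableEq V]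

/-- indicator of the first dangling vertex -/
def dga : Option (V × V) → V → ℕ
  | none, _ => 0
  | some e, v => if e.1 = v then 1 else 0

/-- indicator of the second dangling vertex -/
def dgb : Option (V × V) → V → ℕ
  | none, _ => 0
  | some e, v => if e.2 = v then 1 else 0

/-- demand -/
def dem (σ : St V) (v : V) : ℕ := cnt (σ.T \ σ.B) σ.bs v + dga σ.dg v

/-- the flow invariant -/
structure Fl (σ : St V) : Prop where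
  dj : Disjoint σ.D σ.H
  BT : σ.B ⊆ σ.T
  lab : ∀ τ ∈ σ.B, τ.1 ∈ σ.Need
  inj : ∀ τ ∈ σ.B, ∀ τ' ∈ σ.B, τ.1 = τ'.1 → τ = τ'
  d1 : Disjoint σ.Un σ.Cn
  d2 : Disjoint σ.Un σ.Ar
  d3 : Disjoint σ.Cn σ.Ar
  nd : σ.Need.card = σ.Un.card + σ.Cn.card + σ.Ar.card
  nb : σ.B.card = σ.Cn.card + σ.Ar.card + dgn σ.dg
  cin : ∀ v, cnt σ.H σ.hd v + cnt σ.Ar σ.og v + dgb σ.dg v = cnt σ.B σ.bs v + σ.acc v
  cout : ∀ v, σ.acc v + cnt σ.Cn σ.og v = cnt σ.H Prod.fst v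

/-- the full invariant -/
structure Good (k m s : ℕ) (σ : St V) : Prop where
  fl : Fl σ
  ar : σ.Ar = ∅
  arcD : ∀ a ∈ σ.D, a.1 ∈ σ.S ∧ σ.hd a ∈ σ.S
  arcH : ∀ a ∈ σ.H, a.1 ∈ σ.S ∧ σ.hd a ∈ σ.S
  bsS : ∀ τ ∈ σ.T, σ.bs τ ∈ σ.S
  ogU : ∀ p ∈ σ.Un, σ.og p ∈ σ.S ∧ 1 ≤ σ.c (σ.og p)
  ogC : ∀ p ∈ σ.Cn, σ.og p ∈ σ.S ∧ 1 ≤ σ.c (σ.og p)
  dgS : ∀ x y, σ.dg = some (x, y) → x ∈ σ.S ∧ y ∈ σ.S
  acc1 : ∀ v, σ.acc v ≤ 100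
  acc2 : ∀ v, σ.acc v ≤ σ.c v
  cg : ∀ v, σ.c v ≤ 3400 * k
  i1 : ∀ v ∈ σ.S, 1 ≤ σ.c v →
    σ.c v + 7300 * k ≤ cnt σ.D Prod.fst v + cnt σ.H Prod.fst v + σ.u v
  i2 : ∀ v ∈ σ.S, 1 ≤ σ.c v → 3400 * k ≤ σ.c v + σ.mu v + σ.be v + s
  dead : ∀ v ∈ σ.S, σ.c v = 0 → 100 * k ≤ σ.mu v
  tmu : ∀ v ∈ σ.S, cnt σ.T σ.bs v ≤ σ.mu v
  umu : ∀ v ∈ σ.S, σ.u v ≤ σ.mu v
  und : ∀ v ∈ σ.S, 1 ≤ σ.c v → σ.u v + σ.Need.card ≤ 101 * k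
  smu : ∑ v ∈ σ.S, σ.mu v + σ.Un.card + σ.Need.card ≤ 102 * k * m
  sbe : ∑ v ∈ σ.S.filter (fun v => 1 ≤ σ.c v), σ.be v ≤ 2000 * k
  mult : ∀ x y, ((σ.D ∪ σ.H).filter (fun a => a.1 = x ∧ σ.hd a = y)).card ≤ 100
  tok : ∀ i < m, 100 * k + (if i ∈ σ.Need then 1 else 0) ≤ cnt σ.T Prod.fst i + m
  tlab : ∀ τ ∈ σ.T, τ.1 < m
  ndr : ∀ i ∈ σ.Need, i + 1 < m
  adm : Adm σ.S (2 * k + 1) (dem σ) (cap σ) Prod.fst σ.hd σ.D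
  big : 2 * k + 1 ≤ σ.S.card
  zmu : ∀ i < m, σ.z i ∈ σ.S → 100 * k ≤ σ.mu (σ.z i)
  zinj : ∀ i < m, ∀ j < m, σ.z i = σ.z j → i = j
  mk1 : m ≤ k
  sk : s ≤ 100 * k

/-- a releasable walk of at least two arcs of `H` from `x` to `y` -/
def Wk (σ : St V) (x y : V) : Prop :=
  ∃ Q, Q ⊆ σ.H ∧ 2 ≤ Q.card ∧ 1 ≤ cnt Q Prod.fst x ∧
    (∀ v, cnt Q Prod.fst v + (if y = v then 1 else 0) =
      cnt Q σ.hd v + (if x = v then 1 else 0)) ∧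
    ∀ v, cnt Q Prod.fst v ≤ σ.acc v + (if x = v then 1 else 0)

/-- a shortcut is available -/
def Sc (σ : St V) : Prop := ∃ f ∈ σ.D, Wk σ f.1 (σ.hd f)

/-- a target flow with potentials -/
structure Tg (σ : St V) (G : Finset (V × V)) (Bs : Finset (ℕ × ℕ)) (ac pi po : V → ℕ)
    (pl : ℕ → ℕ) : Prop where
  Gs : G ⊆ σ.D ∪ σ.H
  BsT : Bs ⊆ σ.T
  ac1 : ∀ v, ac v ≤ 100
  ac2 : ∀ v, ac v ≤ σ.c v
  tin : ∀ v, cnt G σ.hd v = cnt Bs σ.bs v + ac v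
  tout : ∀ v, ac v + cnt σ.Un σ.og v + cnt σ.Cn σ.og v = cnt G Prod.fst v
  lab : ∀ i ∈ σ.Need, ∃ τ ∈ Bs, τ.1 = i
  p1 : ∀ a ∈ G, po a.1 + 1 ≤ pi (σ.hd a)
  p2 : ∀ a ∈ σ.D ∪ σ.H, a ∉ G → pi (σ.hd a) ≤ po a.1 + 1
  p3 : ∀ v, 1 ≤ ac v → pi v ≤ po v
  p4 : ∀ v, ac v < 100 → ac v < σ.c v → po v ≤ pi v
  p5 : ∀ τ ∈ Bs, pi (σ.bs τ) ≤ pl τ.1
  p6 : ∀ τ ∈ σ.T, τ ∉ Bs → τ.1 ∈ σ.Need → pl τ.1 ≤ pi (σ.bs τ)

/-- a tight proper large set that contains the dangling demand -/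
def Blk (k : ℕ) (σ : St V) (Z : Finset V) : Prop :=
  Z ⊆ σ.S ∧ Z ≠ σ.S ∧ 2 * k + 1 ≤ Z.card ∧
    mval (cap σ) Prod.fst σ.hd σ.D Z ≤ ∑ v ∈ σ.S \ Z, dem σ v ∧
    ∀ x y, σ.dg = some (x, y) → x ∈ Z

/-- what the elimination of the outer part of the flow does -/
structure El (σ σ' : St V) (Z Al : Finset V) (r r2 du : V → ℕ) : Prop where
  eS : σ'.S = σ.S
  eD : σ'.D = σ.D
  ec : σ'.c = σ.c
  emu : σ'.mu = σ.mu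
  ebe : σ'.be = σ.be
  eu : σ'.u = σ.u
  eUn : σ'.Un = σ.Un
  ez : σ'.z = σ.z
  Hs : σ'.H ⊆ σ.H
  hdD : ∀ a, a ∉ σ.H → σ'.hd a = σ.hd a
  fr : σ'.T \ σ'.B = σ.T \ σ.B
  bsf : ∀ τ, τ ∉ σ.B → σ'.bs τ = σ.bs τ
  Ts : σ'.T ⊆ σ.T
  ogU : ∀ p ∈ σ.Un, σ'.og p = σ.og p
  ar : σ'.Ar = ∅
  Hin : ∀ a ∈ σ'.H, a.1 ∈ Al ∧ σ'.hd a ∈ Z
  Bin : ∀ τ ∈ σ'.B, σ'.bs τ ∈ Z
  Cin : ∀ p ∈ σ'.Cn, σ'.og p ∈ Al
  dga : ∀ v, dga σ'.dg v = dga σ.dg v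
  dgin : ∀ x y, σ'.dg = some (x, y) → x ∈ Z ∧ y ∈ Z
  accle : ∀ v, σ'.acc v + r v ≤ σ.acc v
  out : ∀ v ∈ Al, cnt σ.H Prod.fst v ≤ cnt σ'.H Prod.fst v + r v + du v
  rr : ∀ v, r v ≤ r2 v
  Bc : ∀ v ∈ Z, cnt σ'.B σ'.bs v ≤ cnt σ.B σ.bs v + r2 v
  sr : ∑ v ∈ Z, r2 v ≤ (σ.B.filter (fun τ => σ.bs τ ∉ Z)).card
  sd : ∑ v ∈ Z, du v + σ'.Need.card ≤ σ.Need.card
  Ns : σ'.Need ⊆ σ.Need
  tk : ∀ i, cnt σ.T Prod.fst i + (if i ∈ σ'.Need then 1 else 0) ≤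
    cnt σ'.T Prod.fst i + (if i ∈ σ.Need then 1 else 0)
  pv : ∀ e ∈ σ'.H, σ'.hd e = σ.hd e ∨ Wk σ e.1 (σ'.hd e)
  fin : ∀ e ∈ σ'.H, cnt σ'.Cn σ'.og e.1 = 0 ∨ cnt σ'.B σ'.bs (σ'.hd e) = 0

end state

/-- A target flow exists. -/
def TargetStmt : Prop :=
  ∀ (V : Type) [Fintype V] [DecidableEq V] (k m s : ℕ) (σ : St V), 1 ≤ k → Good k m s σ →
    ∃ G Bs ac pi po pl, Tg σ G Bs ac pi po pl

/-- Moving toward the target flow makes progress or is blocked by a tight set. -/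
def EpochStmt : Prop :=
  ∀ (V : Type) [Fintype V] [DecidableEq V] (k m s : ℕ) (σ : St V) (G : Finset (V × V))
    (Bs : Finset (ℕ × ℕ)) (ac pi po : V → ℕ) (pl : ℕ → ℕ), Good k m s σ → σ.Un.Nonempty →
    Tg σ G Bs ac pi po pl →
    ∃ σ' : St V, Good k m s σ' ∧ Sim m σ m σ' ∧ σ'.S = σ.S ∧
      (meas σ' < meas σ ∨ (meas σ' ≤ meas σ ∧ ¬ Sc σ' ∧ ∃ Z, Blk k σ' Z))

/-- The part of the flow outside `Z` and `Al` can be eliminated. -/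
def ElimStmt : Prop :=
  ∀ (V : Type) [Fintype V] [DecidableEq V] (m : ℕ) (σ : St V) (Z Al : Finset V),
    Al ⊆ Z → Fl σ → (∀ x y, σ.dg = some (x, y) → x ∈ Z) →
    ∃ (σ' : St V) (r r2 du : V → ℕ), Fl σ' ∧ Sim m σ m σ' ∧ El σ σ' Z Al r r2 du

/-- Dive into a set of slack at most `q`. -/
def DiveStmt : Prop :=
  ∀ (V : Type) [Fintype V] [DecidableEq V] (k m s : ℕ) (σ : St V) (c2 : V → ℕ) (Z : Finset V)
    (q : ℕ), 1 ≤ k → Good k m s σ → ¬ Sc σ → (∀ v, c2 v + σ.acc v ≤ σ.c v) →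
    Adm σ.S (2 * k + 1) (dem σ) c2 Prod.fst σ.hd σ.D → Z ⊆ σ.S → 2 * k + 1 ≤ Z.card →
    mval c2 Prod.fst σ.hd σ.D Z ≤ ∑ v ∈ σ.S \ Z, dem σ v + q →
    (∀ Y, Y ⊆ Z → 2 * k + 1 ≤ Y.card →
      ∑ v ∈ σ.S \ Y, dem σ v + q ≤ mval c2 Prod.fst σ.hd σ.D Y) →
    (∀ v ∈ Z, ex Prod.fst σ.hd σ.D v Z < c2 v → c2 v + σ.acc v = σ.c v) →
    (∀ v ∈ Z, 1 ≤ σ.c v → c2 v ≤ ex Prod.fst σ.hd σ.D v Z → 100 * k + q ≤ σ.mu v + c2 v) →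
    ∑ v ∈ Z.filter (fun v => ex Prod.fst σ.hd σ.D v Z < c2 v), σ.be v + q ≤ 2000 * k →
    (∀ x y, σ.dg = some (x, y) → x ∈ Z) →
    ∃ σ' : St V, Good k m s σ' ∧ Sim m σ m σ' ∧ σ'.S = Z ∧ σ'.H ⊆ σ.H ∧ σ'.Need ⊆ σ.Need ∧
      σ'.Un ⊆ σ.Un

/-- Preparation of a new node. -/
def PrepStmt : Prop :=
  ∀ (V : Type) [Fintype V] [DecidableEq V] (k m s : ℕ) (σ : St V), 1 ≤ k → Good k m s σ →
    σ.Need = ∅ → σ.H = ∅ →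
    ∃ (σ' : St V) (z : V), Good k m s σ' ∧ Sim m σ m σ' ∧ σ'.Need = ∅ ∧ σ'.H = ∅ ∧
      z ∈ σ'.S ∧ 1 ≤ σ'.c z ∧ (∀ v ∈ σ'.S, 1 ≤ σ'.c v → σ'.mu v < 100 * k) ∧
      ∀ X, X ⊆ σ'.S → 2 * k + 1 ≤ X.card → z ∉ X →
        ∑ v ∈ σ'.S \ X, dem σ' v + 100 * k ≤ mval (cap σ') Prod.fst σ'.hd σ'.D X

/-- Start of a fan. -/
def StartStmt : Prop :=
  ∀ (V : Type) [Fintype V] [DecidableEq V] (k m s : ℕ) (σ : St V) (z : V), m < k →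
    Good k m s σ → σ.Need = ∅ → σ.H = ∅ → z ∈ σ.S → 1 ≤ σ.c z →
    (∀ v ∈ σ.S, 1 ≤ σ.c v → σ.mu v < 100 * k) →
    (∀ X, X ⊆ σ.S → 2 * k + 1 ≤ X.card → z ∉ X →
      ∑ v ∈ σ.S \ X, dem σ v + 100 * k ≤ mval (cap σ) Prod.fst σ.hd σ.D X) →
    ∃ σ' : St V, Good k (m + 1) s σ' ∧ Sim m σ (m + 1) σ'

/-- End of a fan. -/
def FinStmt : Prop :=
  ∀ (V : Type) [Fintype V] [DecidableEq V] (k m s : ℕ) (σ : St V), 1 ≤ k → s + 100 ≤ 100 * k →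
    Good k m s σ → σ.Un = ∅ →
    ∃ σ' : St V, Good k m (s + 100) σ' ∧ Sim m σ m σ' ∧ σ'.Need = ∅ ∧ σ'.H = ∅

end Pool.Agent.MP_b9875a_co.H99.LN
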