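import Pool.Agent.MP_b9875a_co.H99.Base2

set_option autoImplicit false

namespace Pool.Agent.MP_b9875a_co.H99.LN

open Finset

variable {V : Type} [DecidableEq V]

/-- the new tokens -/
def newT (k m : ℕ) : Finset (ℕ × ℕ) := (range (100 * k)).image (fun j => (m, j))

lemma mem_newT {k m : ℕ} {τ : ℕ × ℕ} (h : τ ∈ newT k m) : τ.1 = m := by
  obtain ⟨j, _, rfl⟩ := mem_image.1 h
  rfl

lemma card_newT (k m : ℕ) : (newT k m).card = 100 * k := by
  unfold newT
  rw [card_image_of_injective _ (fun a b h => (Prod.ext_iff.1 h).2), card_range]

lemma cnt_const {α W : Type} [DecidableEq W] (T : Finset α) (f : α → W) (z : W)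
    (h : ∀ a ∈ T, f a = z) (v : W) : cnt T f v = if z = v then T.card else 0 := by
  split_ifs with e
  · unfold cnt
    rw [filter_true_of_mem (fun a ha => (h a ha).trans e)]
  · exact cnt_eq_zero.2 (fun a ha e' => e ((h a ha).symm.trans e'))

/-- the state after the start of a fan -/
def startSt (k m : ℕ) (σ : St V) (z : V) : St V :=
  { σ with
    mu := fun v => σ.mu v + if z = v then 100 * k else 0
    T := σ.T ∪ newT k m
    bs := fun τ => if τ.1 = m then z else σ.bs τ
    Un := range m
    og := fun _ => z
    Need := range m
    z := Function.update σ.z m z }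

theorem start : StartStmt := by
  intro V _ _ k m s σ z hmk h hN hH hz hcz hmu hadd
  have hnd := h.fl.nd
  have hnb := h.fl.nb
  have hBl := h.fl.B_le
  rw [hN, card_empty] at hnd hBl
  have hUn : σ.Un = ∅ := card_eq_zero.1 (by omega)
  have hCn : σ.Cn = ∅ := card_eq_zero.1 (by omega)
  have hB : σ.B = ∅ := card_eq_zero.1 (by omega)
  have hdg : σ.dg = none := by
    cases e : σ.dg with
    | none => rfl
    | some x => rw [e] at hnb; simp only [dgn] at hnb; omega
  have hAr := h.ar
  have hdj : Disjoint σ.T (newT k m) :=
    disjoint_left.2 (fun τ h1 h2 => by have := h.tlab τ h1; have := mem_newT h2; omega)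
  have hbs : ∀ τ ∈ σ.T, (startSt k m σ z).bs τ = σ.bs τ := fun τ hτ =>
    if_neg (by have := h.tlab τ hτ; omega)
  have hcnt : ∀ v, cnt (startSt k m σ z).T (startSt k m σ z).bs v =
      cnt σ.T σ.bs v + if z = v then 100 * k else 0 := by
    intro v
    show cnt (σ.T ∪ newT k m) _ v = _
    rw [cnt_union hdj, cnt_congr hbs,
      cnt_const (newT k m) (startSt k m σ z).bs z (fun τ hτ => if_pos (mem_newT hτ)), card_newT]
  have hdem : ∀ v, dem (startSt k m σ z) v = dem σ v + if z = v then 100 * k else 0 := by
    intro v
    have e1 : (startSt k m σ z).B = ∅ := hB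
    have e2 : (startSt k m σ z).dg = none := hdg
    unfold dem
    rw [e1, e2, hB, hdg, sdiff_empty, sdiff_empty, hcnt]
    simp [dga]
  have hzz : ∀ i < m, (startSt k m σ z).z i = σ.z i := fun i hi =>
    Function.update_of_ne (by omega) _ _
  have hzm : (startSt k m σ z).z m = z := Function.update_self _ _ _
  refine ⟨startSt k m σ z, ?_, ?_⟩
  · refine
      { fl := ?_, ar := hAr, arcD := h.arcD, arcH := h.arcH, bsS := ?_, ogU := ?_, ogC := ?_,
        dgS := h.dgS, acc1 := h.acc1, acc2 := h.acc2, cg := h.cg, i1 := h.i1, i2 := ?_,
        dead := ?_, tmu := ?_, umu := ?_, und := ?_, smu := ?_, sbe := h.sbe, mult := h.mult,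
        tok := ?_, tlab := ?_, ndr := ?_, adm := ?_, big := h.big, zmu := ?_, zinj := ?_,
        mk1 := hmk, sk := h.sk }
    · have e1 : (startSt k m σ z).B = ∅ := hB
      have e2 : (startSt k m σ z).Cn = ∅ := hCn
      have e3 : (startSt k m σ z).Ar = ∅ := hAr
      have e4 : (startSt k m σ z).dg = none := hdg
      have c1 := h.fl.cin
      have c2 := h.fl.cout
      rw [hB, hAr, hdg] at c1
      rw [hCn] at c2
      refine
        { dj := h.fl.dj, BT := by rw [e1]; exact empty_subset _, lab := by rw [e1]; simp,
          inj := by rw [e1]; simp, d1 := by rw [e2]; simp, d2 := by rw [e3]; simp,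
          d3 := by rw [e2]; simp, nd := by rw [e2, e3]; rfl, nb := by rw [e1, e2, e3, e4]; rfl,
          cin := ?_, cout := ?_ }
      · intro v
        rw [e1, e3, e4]
        have := c1 v
        simp only [cnt_empty] at this ⊢
        exact this
      · intro v
        rw [e2]
        have := c2 v
        simp only [cnt_empty] at this ⊢
        exact this
    · intro τ hτ
      rcases mem_union.1 hτ with e | e
      · rw [hbs τ e]; exact h.bsS τ e
      · have : (startSt k m σ z).bs τ = z := if_pos (mem_newT e)
        rw [this]; exact hz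
    · intro p _
      exact ⟨hz, hcz⟩
    · intro p _
      exact ⟨hz, hcz⟩
    · intro v hv hc
      have := h.i2 v hv hc
      show 3400 * k ≤ σ.c v + (σ.mu v + _) + σ.be v + s
      omega
    · intro v hv hc
      have := h.dead v hv hc
      show 100 * k ≤ σ.mu v + _
      omega
    · intro v hv
      have := h.tmu v hv
      rw [hcnt]
      show _ ≤ σ.mu v + _
      omega
    · intro v hv
      have := h.umu v hv
      show σ.u v ≤ σ.mu v + _
      omega
    · intro v hv hc
      have h1 := h.umu v hv
      have h2 := hmu v hv hc
      show σ.u v + (range m).card ≤ _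
      rw [card_range]
      omega
    · have h1 := h.smu
      show ∑ v ∈ σ.S, (σ.mu v + if z = v then 100 * k else 0) + (range m).card + (range m).card ≤ _
      rw [sum_add_distrib, sum_ite_eq, if_pos hz, card_range, mul_add]
      omega
    · intro i hi
      show 100 * k + (if i ∈ range m then 1 else 0) ≤ cnt (σ.T ∪ newT k m) Prod.fst i + (m + 1)
      rw [cnt_union hdj, cnt_const (newT k m) _ m (fun τ hτ => mem_newT hτ), card_newT]
      by_cases e : m = i
      · subst e
        simp only [mem_range, lt_irrefl, if_false, if_true]
        omega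
      · have := h.tok i (by omega)
        split_ifs at this ⊢ <;> omega
    · intro τ hτ
      rcases mem_union.1 hτ with e | e
      · have := h.tlab τ e; omega
      · have := mem_newT e; omega
    · intro i hi
      have := mem_range.1 hi
      omega
    · intro X hX hc
      show ∑ v ∈ σ.S \ X, dem (startSt k m σ z) v ≤ mval (cap σ) Prod.fst σ.hd σ.D X
      rw [sum_congr rfl (fun v _ => hdem v), sum_add_distrib, sum_ite_eq]
      split_ifs with e
      · exact hadd X hX hc (mem_sdiff.1 e).2
      · exact h.adm X hX hc
    · intro i hi hS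
      show 100 * k ≤ σ.mu _ + _
      by_cases e : i = m
      · subst e
        rw [hzm, if_pos rfl]
        omega
      · rw [hzz i (by omega)] at hS ⊢
        have := h.zmu i (by omega) hS
        omega
    · have key : ∀ i < m, σ.z i ≠ z := fun i hi e => by
        have h1 := h.zmu i hi (e ▸ hz)
        have h2 := hmu z hz hcz
        rw [e] at h1
        omega
      intro i hi j hj e
      by_cases a : i = m <;> by_cases b : j = m
      · omega
      · subst a
        rw [hzm, hzz j (by omega)] at e
        exact absurd e.symm (key j (by omega))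
      · subst b
        rw [hzm, hzz i (by omega)] at e
        exact absurd e (key i (by omega))
      · rw [hzz i (by omega), hzz j (by omega)] at e
        exact h.zinj i (by omega) j (by omega) e
  · apply sim_of_sub
    intro o x y hr
    cases o with
    | arc a => exact Or.inr hr
    | tok τ =>
      obtain ⟨h1, h2, h3⟩ := hr
      rcases mem_union.1 h1 with e | e
      · right
        rw [hbs τ e] at h2
        rw [hzz _ (h.tlab τ e)] at h3
        exact ⟨e, h2, h3⟩
      · left
        have e1 : (startSt k m σ z).bs τ = z := if_pos (mem_newT e)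
        rw [h2, h3, e1, mem_newT e, hzm]
    | peb p =>
      obtain ⟨_, h2, h3⟩ := hr
      left
      rw [h2, h3, Nat.add_sub_cancel, hzm]
      rfl
    | dang => exact Or.inr hr
    | done j i =>
      obtain ⟨h1, h2, h3, h4, h5⟩ := hr
      have hj : j < m := by
        rcases h3 with e | e
        · omega
        · exact absurd (mem_range.2 (by omega)) e
      right
      rw [hzz j hj] at h4
      rw [hzz i (by omega)] at h5
      exact ⟨h1, hj, Or.inr (by rw [hN]; simp), h4, h5⟩

end Pool.Agent.MP_b9875a_co.H99.LN
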