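import Pool.Agent.MP_b9875a_co.H99.Col
import Pool.Agent.MP_b9875a_co.H99.Spec

set_option autoImplicit false

namespace Pool.Agent.MP_b9875a_co.H99.PL

open Finset

variable {V : Type} [DecidableEq V]

omit [DecidableEq V] in
lemma sum_card_le {α : Type} (X : Finset V) (f : V → Finset V) (E : Finset α) (g : V → V → α)
    (hg : ∀ v w v' w', g v w = g v' w' → v = v' ∧ w = w')
    (h : ∀ v ∈ X, ∀ w ∈ f v, g v w ∈ E) : ∑ v ∈ X, (f v).card ≤ E.card := by
  rw [← card_sigma]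
  refine card_le_card_of_injOn (fun x => g x.1 x.2) (fun x hx => ?_) (fun x _ y _ e => ?_)
  · have := mem_sigma.1 (mem_coe.1 hx)
    exact mem_coe.2 (h _ this.1 _ this.2)
  · obtain ⟨a, b⟩ := hg _ _ _ _ e
    exact Sigma.ext a (heq_of_eq b)

omit [DecidableEq V] in
lemma Rch.mono {A B : Finset (V × V)} (h : A ⊆ B) {a b : V} (r : Rch A a b) : Rch B a b := by
  induction r with
  | refl => exact Relation.ReflTransGen.refl
  | tail _ e ih => exact Relation.ReflTransGen.tail ih (h e)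

lemma Rch.rev {A : Finset (V × V)} {a b : V} (r : Rch A a b) : Rch (A.image Prod.swap) b a := by
  induction r with
  | refl => exact Relation.ReflTransGen.refl
  | tail _ e ih => exact Relation.ReflTransGen.head (mem_image.2 ⟨_, e, rfl⟩) ih

omit [DecidableEq V] in
lemma Rch.cross {A : Finset (V × V)} {a b : V} (r : Rch A a b) (U : Finset V) (ha : a ∈ U) :
    b ∉ U → ∃ e ∈ A, e.1 ∈ U ∧ e.2 ∉ U := by
  induction r with
  | refl => exact fun h => absurd ha h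
  | @tail x y _ e ih =>
    intro hy
    by_cases hx : x ∈ U
    · exact ⟨(x, y), e, hx, hy⟩
    · exact ih hx

/-- the weight used to bound the blank of a single vertex -/
def fw (K x : ℕ) : ℕ := ∑ i ∈ range x, 2 ^ (i / (4 * K))

lemma fw_mono (K : ℕ) {x y : ℕ} (h : x ≤ y) : fw K x ≤ fw K y :=
  sum_le_sum_of_subset (range_subset_range.2 h)

lemma fw_small (K : ℕ) {x : ℕ} (h : x ≤ 8 * K) : fw K x ≤ 2 * x := by
  unfold fw
  have : ∀ i ∈ range x, 2 ^ (i / (4 * K)) ≤ 2 := by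
    intro i hi
    have h1 := mem_range.1 hi
    have h2 : i / (4 * K) < 2 := (Nat.div_lt_iff_lt_mul (by omega)).2 (by omega)
    calc 2 ^ (i / (4 * K)) ≤ 2 ^ 1 := Nat.pow_le_pow_right (by omega) (by omega)
      _ = 2 := by norm_num
  have := sum_le_card_nsmul _ _ _ this
  rw [card_range, smul_eq_mul] at this
  omega

lemma fw_add_ge (K x y j : ℕ) (hK : 1 ≤ K) (h : 4 * K * j ≤ x) :
    fw K x + y * 2 ^ j ≤ fw K (x + y) := by
  unfold fw
  rw [sum_range_add]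
  have : ∀ i ∈ range y, 2 ^ j ≤ 2 ^ ((x + i) / (4 * K)) := fun i _ =>
    Nat.pow_le_pow_right (by omega) ((Nat.le_div_iff_mul_le (by omega)).2 (by
      rw [mul_comm]; omega))
  have := card_nsmul_le_sum _ _ _ this
  rw [card_range, smul_eq_mul] at this
  omega

lemma fw_add_le (K x y j : ℕ) (hK : 1 ≤ K) (h : x + y ≤ 4 * K * (j + 1)) :
    fw K (x + y) ≤ fw K x + y * 2 ^ j := by
  unfold fw
  rw [sum_range_add]
  have : ∀ i ∈ range y, 2 ^ ((x + i) / (4 * K)) ≤ 2 ^ j := fun i hi =>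
    Nat.pow_le_pow_right (by omega) (Nat.lt_succ_iff.1 ((Nat.div_lt_iff_lt_mul (by omega)).2 (by
      have := mem_range.1 hi
      rw [mul_comm, Nat.succ_eq_add_one]; omega)))
  have := sum_le_card_nsmul _ _ _ this
  rw [card_range, smul_eq_mul] at this
  omega

lemma fw_big (K L : ℕ) (hK : 1 ≤ K) : 4 * K * 2 ^ L ≤ fw K (4 * K * L) + 4 * K := by
  induction L with
  | zero => simp
  | succ L ih =>
    have := fw_add_ge K (4 * K * L) (4 * K) L hK le_rfl
    rw [mul_add, mul_one, pow_succ, ← mul_assoc]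
    omega

/-- the state of the search -/
structure Sta (V : Type) where
  S : Finset V
  D : Finset (V × V)
  T : Finset (ℕ × ℕ)
  tl : ℕ × ℕ → V
  ds : ℕ × ℕ → V
  ln : ℕ × ℕ → Finset (V × V)
  c : V → ℕ
  mu : V → ℕ
  be : V → ℕ

namespace Sta

variable (σ : Sta V)

/-- free heads inside the region -/
def out (v : V) : Finset V := σ.S.filter (fun w => (v, w) ∈ σ.D)

/-- number of tokens outside `R` -/
def ph (R : Finset V) : ℕ := (σ.T.filter (fun τ => σ.tl τ ∉ R)).card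

/-- number of tokens at `v` -/
def fi (v : V) : ℕ := (σ.T.filter (fun τ => σ.tl τ = v)).card

/-- number of tokens with destination `v` -/
def pend (v : V) : ℕ := (σ.T.filter (fun τ => σ.ds τ = v)).card

/-- capped cut -/
def val (R : Finset V) : ℕ := vl σ.c σ.out R

/-- alive vertices -/
def alive : Finset V := σ.S.filter (fun v => 1 ≤ σ.c v)

/-- the lanes are valid -/
structure Tok : Prop where
  tlS : ∀ τ ∈ σ.T, σ.tl τ ∈ σ.S
  rch : ∀ τ ∈ σ.T, Rch (σ.ln τ) (σ.tl τ) (σ.ds τ)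
  dD : ∀ τ ∈ σ.T, Disjoint (σ.ln τ) σ.D
  dd : ∀ τ ∈ σ.T, ∀ τ' ∈ σ.T, τ ≠ τ' → Disjoint (σ.ln τ) (σ.ln τ')

/-- every large set can reach the tokens outside it -/
def Adm (θ : ℕ) : Prop := ∀ R, R ⊆ σ.S → θ ≤ R.card → σ.ph R ≤ σ.val R

/-- all arcs in use lie in `F` -/
def Av (F : Finset (V × V)) : Prop := σ.D ⊆ F ∧ ∀ τ ∈ σ.T, σ.ln τ ⊆ F

/-- the invariant of the search -/
structure Good (N K L b n : ℕ) : Prop where
  tok : σ.Tok
  nm : ∀ τ ∈ σ.T, τ.1 < n
  nN : n ≤ N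
  tot : ∀ v ∈ σ.S, σ.c v + σ.mu v + σ.be v = 8 * K * L
  fi : ∀ v ∈ σ.S, σ.fi v ≤ σ.mu v
  smu : ∑ v ∈ σ.S, σ.mu v ≤ n * K
  deg : ∀ v ∈ σ.S, 1 ≤ σ.c v →
    b + (4 * (8 * K * L) + 4 * N + 4) ≤ (σ.out v).card + σ.mu v + σ.be v
  adm : σ.Adm (N + 1)
  big : N + 1 ≤ σ.S.card
  sbe : ∑ v ∈ σ.S, σ.be v ≤ (6 * N + 11) * K
  psi : ∑ v ∈ σ.alive, fw K (σ.be v) ≤ 2 * ((6 * N + 11) * K)
  belt : ∀ v ∈ σ.S, σ.be v < 4 * K * L

variable {σ}

lemma ph_mod (X Y : Finset V) : σ.ph X + σ.ph Y = σ.ph (X ∩ Y) + σ.ph (X ∪ Y) := by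
  unfold ph
  simp only [card_filter, ← sum_add_distrib]
  refine sum_congr rfl (fun τ _ => ?_)
  by_cases a : σ.tl τ ∈ X <;> by_cases b : σ.tl τ ∈ Y <;> simp [a, b]

lemma ph_eq (t : σ.Tok) (R : Finset V) : σ.ph R = ∑ v ∈ σ.S \ R, σ.fi v := by
  unfold ph fi
  rw [sum_card_fiberwise_eq_card_filter]
  congr 1
  exact filter_congr (fun τ hτ => by simp [t.tlS τ hτ])

lemma lanes [Fintype V] (flow : FlowStmt) (t : σ.Tok) {θ : ℕ} (hA : σ.Adm θ) {R : Finset V}
    (hR : R ⊆ σ.S) (hL : θ ≤ R.card) :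
    ∃ (tl' : ℕ × ℕ → V) (ln' : ℕ × ℕ → Finset (V × V)),
      (∀ τ ∈ σ.T, tl' τ ∈ R ∧ Rch (ln' τ) (tl' τ) (σ.ds τ) ∧
        Disjoint (ln' τ) (σ.D.filter (fun e => e.2 ∈ R)) ∧ ln' τ ⊆ σ.ln τ ∪ σ.D ∧
        (σ.tl τ ∈ R → tl' τ = σ.tl τ)) ∧
      (∀ τ ∈ σ.T, ∀ τ' ∈ σ.T, τ ≠ τ' → Disjoint (ln' τ) (ln' τ')) ∧
      ∀ v, ((σ.T.filter (fun τ => σ.tl τ ∉ R)).filter (fun τ => tl' τ = v)).card ≤
        min (σ.c v) (σ.out v \ R).card := by
  obtain ⟨e, P, h1, h2, h3⟩ := flow V (ℕ × ℕ)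
    ((σ.D.filter (fun e => e.2 ∉ R)).image Prod.swap) (σ.T.filter (fun τ => σ.tl τ ∉ R)) σ.tl
    (fun v => if v ∈ R then min (σ.c v) (σ.out v \ R).card else 0) (fun U => by
      have hsub : R ⊆ R ∪ (σ.S \ U) := subset_union_left
      have a1 := hA (R ∪ (σ.S \ U)) (union_subset hR sdiff_subset) (hL.trans (card_le_card hsub))
      have a2 : ((σ.T.filter (fun τ => σ.tl τ ∉ R)).filter (fun τ => σ.tl τ ∈ U)).card ≤
          σ.ph (R ∪ (σ.S \ U)) := by
        refine card_le_card (fun τ hτ => ?_)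
        simp only [mem_filter, mem_union, mem_sdiff] at hτ ⊢
        tauto
      have a3 := sum_filter_add_sum_filter_not (R ∪ (σ.S \ U)) (fun v => v ∈ U)
        (fun v => min (σ.c v) (σ.out v \ (R ∪ (σ.S \ U))).card)
      have a4 : ∑ v ∈ (R ∪ (σ.S \ U)).filter (fun v => v ∈ U),
          min (σ.c v) (σ.out v \ (R ∪ (σ.S \ U))).card ≤
          ∑ v ∈ U, if v ∈ R then min (σ.c v) (σ.out v \ R).card else 0 := by
        rw [← sum_filter]
        have : (R ∪ (σ.S \ U)).filter (fun v => v ∈ U) = U.filter (fun v => v ∈ R) := by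
          ext v
          simp only [mem_filter, mem_union, mem_sdiff]
          tauto
        rw [this]
        exact sum_le_sum (fun v _ => min_le_min_left _ (card_sd_anti _ hsub))
      have a5 : ∑ v ∈ (R ∪ (σ.S \ U)).filter (fun v => v ∉ U),
          min (σ.c v) (σ.out v \ (R ∪ (σ.S \ U))).card ≤
          cutA ((σ.D.filter (fun e => e.2 ∉ R)).image Prod.swap) U := by
        refine (sum_le_sum (fun v _ => min_le_right _ _)).trans (sum_card_le _ _ _
          (fun v w => (w, v)) (fun _ _ _ _ e => ⟨(Prod.ext_iff.1 e).2, (Prod.ext_iff.1 e).1⟩) ?_)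
        intro v hv w hw
        simp only [out, mem_filter, mem_union, mem_sdiff] at hv hw
        exact mem_filter.2 ⟨mem_image.2 ⟨(v, w), mem_filter.2 ⟨hw.1.2, by tauto⟩, rfl⟩,
          by tauto, hv.2⟩
      unfold val vl at a1
      omega)
  have hP : ∀ τ ∈ σ.T, σ.tl τ ∉ R → ∀ x ∈ (P τ).image Prod.swap, x ∈ σ.D ∧ x.2 ∉ R := by
    intro τ hτ a x hx
    obtain ⟨y, hy, rfl⟩ := mem_image.1 hx
    obtain ⟨z, hz, rfl⟩ := mem_image.1 ((h1 τ (mem_filter.2 ⟨hτ, a⟩)).1 hy)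
    exact mem_filter.1 hz
  have he : ∀ τ ∈ σ.T, σ.tl τ ∉ R → e τ ∈ R := by
    intro τ hτ a
    by_contra b
    have := h3 (e τ)
    simp only [if_neg b] at this
    rw [Nat.le_zero, card_eq_zero, filter_eq_empty_iff] at this
    exact this (mem_filter.2 ⟨hτ, a⟩) rfl
  have hln : ∀ τ ∈ σ.T, ∀ x ∈ (if σ.tl τ ∈ R then σ.ln τ else σ.ln τ ∪ (P τ).image Prod.swap),
      x ∈ σ.ln τ ∨ (σ.tl τ ∉ R ∧ x ∈ (P τ).image Prod.swap) := by
    intro τ _ x hx
    by_cases a : σ.tl τ ∈ R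
    · rw [if_pos a] at hx; exact Or.inl hx
    · rw [if_neg a] at hx; exact (mem_union.1 hx).imp id (fun b => ⟨a, b⟩)
  refine ⟨fun τ => if σ.tl τ ∈ R then σ.tl τ else e τ,
    fun τ => if σ.tl τ ∈ R then σ.ln τ else σ.ln τ ∪ (P τ).image Prod.swap,
    fun τ hτ => ⟨?_, ?_, ?_, ?_, fun a => if_pos a⟩, fun τ hτ τ' hτ' hne => ?_, fun v => ?_⟩
  · by_cases a : σ.tl τ ∈ R
    · simp only [if_pos a]; exact a
    · simp only [if_neg a]; exact he τ hτ a
  · by_cases a : σ.tl τ ∈ R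
    · simp only [if_pos a]; exact t.rch τ hτ
    · simp only [if_neg a]
      exact Relation.ReflTransGen.trans
        (Rch.mono subset_union_right (h1 τ (mem_filter.2 ⟨hτ, a⟩)).2.rev)
        (Rch.mono subset_union_left (t.rch τ hτ))
  · rw [disjoint_left]
    intro x hx hx'
    rcases hln τ hτ x hx with a | a
    · exact disjoint_left.1 (t.dD τ hτ) a (mem_filter.1 hx').1
    · exact (hP τ hτ a.1 x a.2).2 (mem_filter.1 hx').2
  · intro x hx
    rcases hln τ hτ x hx with a | a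
    · exact mem_union_left _ a
    · exact mem_union_right _ (hP τ hτ a.1 x a.2).1
  · rw [disjoint_left]
    intro x hx hx'
    rcases hln τ hτ x hx with a | a <;> rcases hln τ' hτ' x hx' with b | b
    · exact disjoint_left.1 (t.dd τ hτ τ' hτ' hne) a b
    · exact disjoint_left.1 (t.dD τ hτ) a (hP τ' hτ' b.1 x b.2).1
    · exact disjoint_left.1 (t.dD τ' hτ') b (hP τ hτ a.1 x a.2).1
    · obtain ⟨y, hy, e1⟩ := mem_image.1 a.2
      obtain ⟨z, hz, e2⟩ := mem_image.1 b.2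
      have : y = z := Prod.swap_injective (e1.trans e2.symm)
      exact disjoint_left.1 (h2 τ (mem_filter.2 ⟨hτ, a.1⟩) τ' (mem_filter.2 ⟨hτ', b.1⟩) hne) hy
        (this ▸ hz)
  · refine le_trans (le_of_eq ?_) ((h3 v).trans (by dsimp only; split_ifs <;> omega))
    congr 1
    exact filter_congr (fun τ hτ => by simp only [if_neg (mem_filter.1 hτ).2])

/-- The dive into an extreme set. -/
lemma dive [Fintype V] (flow : FlowStmt) {N K L b n q : ℕ} (hK : 1 ≤ K) (hL : 3 * N + 7 < 2 ^ L)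
    {R : Finset V} (hR : R ⊆ σ.S) (big : N + 1 ≤ R.card)
    (tok : σ.Tok) (nm : ∀ τ ∈ σ.T, τ.1 < n) (nN : n ≤ N)
    (tot : ∀ v ∈ R, σ.c v + σ.mu v + σ.be v = 8 * K * L)
    (fi : ∀ v ∈ σ.S, σ.fi v ≤ σ.mu v) (smu : ∑ v ∈ σ.S, σ.mu v ≤ n * K)
    (deg : ∀ v ∈ R, 1 ≤ σ.c v →
      b + (4 * (8 * K * L) + 4 * N + 4) ≤ (σ.out v).card + σ.mu v + σ.be v)
    (adm : σ.Adm (N + 1)) (belt : ∀ v ∈ R, σ.be v < 4 * K * L)
    (hq : σ.val R = σ.ph R + q)
    (ext : ∀ R', R' ⊆ R → N + 1 ≤ R'.card → σ.ph R' + q ≤ σ.val R')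
    (sbe : ∑ v ∈ R, σ.be v + q ≤ (6 * N + 11) * K)
    (psi : ∀ ν : V → ℕ, ∑ v ∈ R, ν v = q →
      ∑ v ∈ R.filter (fun v => 1 ≤ σ.c v), fw K (σ.be v + ν v) ≤ 2 * ((6 * N + 11) * K)) :
    ∃ σ' : Sta V, σ'.Good N K L b n ∧ σ'.S = R ∧ σ'.alive ⊆ σ.alive ∧
      (∀ v, σ'.pend v = σ.pend v) ∧ ∀ F, σ.Av F → σ'.Av F := by
  obtain ⟨tl', ln', h1, h2, h3⟩ := lanes flow tok adm hR big
  set ψ : V → ℕ := fun v =>
    ((σ.T.filter (fun τ => σ.tl τ ∉ R)).filter (fun τ => tl' τ = v)).card with hψ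
  set x : V → ℕ := fun v => min (σ.c v) (σ.out v \ R).card with hx
  have hψx : ∀ v, ψ v ≤ x v := h3
  have hxc : ∀ v, x v ≤ σ.c v := fun v => min_le_left _ _
  set σ' : Sta V := ⟨R, σ.D.filter (fun e => e.2 ∈ R), σ.T, tl', σ.ds, ln',
    fun v => σ.c v - x v, fun v => σ.mu v + ψ v, fun v => σ.be v + (x v - ψ v)⟩ with hσ
  have hout : ∀ v, σ'.out v = σ.out v ∩ R := fun v => by
    ext w
    have := @hR w
    simp only [hσ, out, mem_filter, mem_inter]
    tauto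
  have hsψ : ∀ R', ∑ v ∈ R', ψ v =
      ((σ.T.filter (fun τ => σ.tl τ ∉ R)).filter (fun τ => tl' τ ∈ R')).card :=
    fun R' => sum_card_fiberwise_eq_card_filter _ _ _
  have hph : ∀ R', R' ⊆ R → σ'.ph R' + ∑ v ∈ R', ψ v = σ.ph R' := by
    intro R' hR'
    rw [hsψ, filter_filter]
    simp only [hσ, ph, card_filter, ← sum_add_distrib]
    refine sum_congr rfl (fun τ hτ => ?_)
    have a := (h1 τ hτ).2.2.2.2
    by_cases p : σ.tl τ ∈ R
    · rw [a p]
      simp [p]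
    · have : σ.tl τ ∉ R' := fun e => p (hR' e)
      by_cases r : tl' τ ∈ R' <;> simp [p, r, this]
  have hψR : ∑ v ∈ R, ψ v = σ.ph R := by
    have a := hph R (Subset.refl _)
    have b : σ'.ph R = 0 := by
      unfold ph
      rw [card_eq_zero, filter_eq_empty_iff]
      exact fun τ hτ e => e (h1 τ hτ).1
    omega
  have hν : ∀ R', ∑ v ∈ R', (x v - ψ v) + ∑ v ∈ R', ψ v = ∑ v ∈ R', x v := fun R' => by
    rw [← sum_add_distrib]
    exact sum_congr rfl (fun v _ => Nat.sub_add_cancel (hψx v))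
  have hνR : ∑ v ∈ R, (x v - ψ v) = q := by
    have a := hν R
    have b : ∑ v ∈ R, x v = σ.val R := rfl
    omega
  have hpsi := psi _ hνR
  have hal : σ'.alive ⊆ R.filter (fun v => 1 ≤ σ.c v) := fun v hv => by
    have a := mem_filter.1 hv
    have b : 1 ≤ σ.c v - x v := a.2
    exact mem_filter.2 ⟨a.1, by omega⟩
  refine ⟨σ', ⟨⟨fun τ hτ => (h1 τ hτ).1, fun τ hτ => (h1 τ hτ).2.1, fun τ hτ => (h1 τ hτ).2.2.1,
    h2⟩, nm, nN, fun v hv => ?_, fun v hv => ?_, ?_, fun v hv hc => ?_, fun R' hR' hb => ?_, big,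
    ?_, (sum_le_sum_of_subset hal).trans hpsi, fun v hv => ?_⟩, rfl,
    hal.trans (filter_subset_filter _ hR), fun v => rfl, fun F hF => ⟨(filter_subset _ _).trans hF.1,
      fun τ hτ => (h1 τ hτ).2.2.2.1.trans (union_subset (hF.2 τ hτ) hF.1)⟩⟩
  · have a := tot v hv
    have := hψx v
    have := hxc v
    show σ.c v - x v + (σ.mu v + ψ v) + (σ.be v + (x v - ψ v)) = _
    omega
  · have a := fi v (hR hv)
    have b : σ'.fi v ≤ σ.fi v + ψ v := by
      refine le_trans (card_le_card (fun τ hτ => ?_)) (card_union_le _ _)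
      have c := mem_filter.1 hτ
      by_cases p : σ.tl τ ∈ R
      · exact mem_union_left _ (mem_filter.2 ⟨c.1, ((h1 τ c.1).2.2.2.2 p).symm.trans c.2⟩)
      · exact mem_union_right _ (mem_filter.2 ⟨mem_filter.2 ⟨c.1, p⟩, c.2⟩)
    show σ'.fi v ≤ σ.mu v + ψ v
    omega
  · show ∑ v ∈ R, (σ.mu v + ψ v) ≤ _
    rw [sum_add_distrib, hψR, ph_eq tok]
    have a : ∑ v ∈ σ.S \ R, σ.fi v ≤ ∑ v ∈ σ.S \ R, σ.mu v :=
      sum_le_sum (fun v hv => fi v (mem_sdiff.1 hv).1)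
    have b := sum_sdiff (f := σ.mu) hR
    omega
  · have hc' : 1 ≤ σ.c v - x v := hc
    have a := deg v hv (by omega)
    have b := card_sdiff_add_card_inter (σ.out v) R
    have c : x v = min (σ.c v) (σ.out v \ R).card := rfl
    have := hψx v
    rw [hout]
    show _ ≤ _ + (σ.mu v + ψ v) + (σ.be v + (x v - ψ v))
    omega
  · have hR'' : R' ⊆ R := hR'
    have a := ext R' hR'' hb
    have b := hph R' hR''
    have c := hν R'
    have d : ∑ v ∈ R', (x v - ψ v) ≤ ∑ v ∈ R, (x v - ψ v) := sum_le_sum_of_subset hR''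
    have e : σ.val R' ≤ σ'.val R' + ∑ v ∈ R', x v := by
      unfold val vl
      rw [← sum_add_distrib]
      refine sum_le_sum (fun v _ => ?_)
      have f : σ.out v \ R' ⊆ ((σ.out v ∩ R) \ R') ∪ (σ.out v \ R) := by
        intro w
        simp only [mem_sdiff, mem_inter, mem_union]
        tauto
      have g := (card_le_card f).trans (card_union_le _ _)
      have c : x v = min (σ.c v) (σ.out v \ R).card := rfl
      rw [hout]
      show _ ≤ min (σ.c v - x v) _ + _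
      omega
    omega
  · show ∑ v ∈ R, (σ.be v + (x v - ψ v)) ≤ _
    rw [sum_add_distrib, hνR]
    exact sbe
  · show σ.be v + (x v - ψ v) < _
    by_cases a : 1 ≤ σ.c v
    · by_contra hn
      have b := single_le_sum (f := fun v => fw K (σ.be v + (x v - ψ v)))
        (fun _ _ => Nat.zero_le _) (mem_filter.2 ⟨hv, a⟩ : v ∈ R.filter (fun v => 1 ≤ σ.c v))
      have c := fw_mono K (not_lt.1 hn)
      have d := fw_big K L hK
      have e := Nat.mul_le_mul_left (4 * K) (show 3 * N + 8 ≤ 2 ^ L by omega)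
      have f : 4 * K * (3 * N + 8) = 12 * (N * K) + 32 * K := by ring
      have g : 2 * ((6 * N + 11) * K) = 12 * (N * K) + 22 * K := by ring
      omega
    · have := belt v hv
      have := hxc v
      omega

end Sta

end Pool.Agent.MP_b9875a_co.H99.PL
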